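import Pool.Agent.H68.TG.Def

/-!
# Module Arz: compactness of equi-Lipschitz curves
`‖δ k t - x‖ ≤ ρ |t|`: all values at the rational times lie in compact balls; the countable product of compact metric spaces is
sequentially compact (`isCompact_univ_pi`, `IsCompact.tendsto_subseq`), or a diagonal argument: a subsequence converges at all rationals. The
Lipschitz bound gives convergence (Cauchy) at all `t`, the limit is `ρ`-Lipschitz.
-/

set_option autoImplicit false

open MeasureTheory Filter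
open scoped RealInnerProductSpace Topology

namespace Pool.Agent.H68.TG

open Pool.Agent.H33.AM (E Tor pr IsPeriodic IsEL)
open Pool.Agent.H68.HD
open Pool.Agent.H68.TO (Slow Cst md)

variable {n : ℕ}

theorem arz {ρ : ℝ} (hρ : 0 ≤ ρ) {δ : ℕ → ℝ → E n} (hδ : ∀ k, Lip ρ (δ k)) {x : E n}
    (h0 : ∀ k, δ k 0 = x) :
    ∃ φ : ℕ → ℕ, StrictMono φ ∧ ∃ η : ℝ → E n, Lip ρ η ∧
      ∀ t, Tendsto (fun k => δ (φ k) t) atTop (𝓝 (η t)) := by
  -- convergence at the rational times
  have hK : IsCompact (Set.pi Set.univ fun q : ℚ => Metric.closedBall x (ρ * |(q : ℝ)|)) :=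
    isCompact_univ_pi fun q => isCompact_closedBall x _
  have hm : ∀ k : ℕ, (fun q : ℚ => δ k (q : ℝ)) ∈
      Set.pi Set.univ fun q : ℚ => Metric.closedBall x (ρ * |(q : ℝ)|) := by
    intro k q _
    have h1 := hδ k 0 (q : ℝ)
    rw [h0 k, sub_zero] at h1
    rw [Metric.mem_closedBall, dist_eq_norm]
    exact h1
  obtain ⟨g, -, φ, hφ, hg⟩ := hK.tendsto_subseq hm
  have hq : ∀ q : ℚ, Tendsto (fun k => δ (φ k) (q : ℝ)) atTop (𝓝 (g q)) := fun q =>
    (tendsto_pi_nhds.1 hg) q
  -- convergence at all times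
  have hC : ∀ t : ℝ, ∃ y : E n, Tendsto (fun k => δ (φ k) t) atTop (𝓝 y) := by
    intro t
    refine cauchySeq_tendsto_of_complete (Metric.cauchySeq_iff'.2 fun ε hε => ?_)
    have hr : 0 < ρ + 1 := by linarith
    obtain ⟨q, hq1⟩ := exists_rat_near t (show (0 : ℝ) < ε / (4 * (ρ + 1)) by positivity)
    have hq2 : ρ * |t - (q : ℝ)| ≤ ε / 4 := by
      calc ρ * |t - (q : ℝ)| ≤ (ρ + 1) * (ε / (4 * (ρ + 1))) := by
            gcongr
            linarith
        _ = ε / 4 := by field_simp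
    obtain ⟨N, hN⟩ := Metric.cauchySeq_iff'.1 (hq q).cauchySeq (ε / 4) (by positivity)
    refine ⟨N, fun k hk => ?_⟩
    have h1 := hδ (φ k) (q : ℝ) t
    have h2 := hδ (φ N) (q : ℝ) t
    have h3 := hN k hk
    rw [dist_eq_norm] at h3 ⊢
    have e : δ (φ k) t - δ (φ N) t = (δ (φ k) t - δ (φ k) q) + (δ (φ k) q - δ (φ N) q) -
        (δ (φ N) t - δ (φ N) q) := by abel
    rw [e]
    have h4 := norm_sub_le ((δ (φ k) t - δ (φ k) q) + (δ (φ k) q - δ (φ N) q))
      (δ (φ N) t - δ (φ N) q)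
    have h5 := norm_add_le (δ (φ k) t - δ (φ k) q) (δ (φ k) q - δ (φ N) q)
    linarith
  choose η hη using hC
  refine ⟨φ, hφ, η, fun s t => ?_, hη⟩
  exact le_of_tendsto ((hη t).sub (hη s)).norm (Eventually.of_forall fun k => hδ (φ k) s t)

end Pool.Agent.H68.TG
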