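import Mathlib

/-!
# Module Gro: two-sided Gronwall inequality
Forward from `t₀`: `norm_le_gronwallBound_of_norm_deriv_right_le` with `ε = 0`, `δ = ‖y t₀‖` (`gronwallBound_ε0`); backward: the same for
`s ↦ y (t₀ - s)` (or `y (-s)`). One-sided derivatives from `HasDerivWithinAt` on `Icc a b`.
-/

set_option autoImplicit false

open MeasureTheory Filter
open scoped RealInnerProductSpace Topology

namespace Pool.Agent.H68.TG

private theorem fwd_Gro {F : Type*} [NormedAddCommGroup F] [NormedSpace ℝ F] {y y' : ℝ → F} {c d K : ℝ}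
    (hy : ∀ t ∈ Set.Icc c d, HasDerivWithinAt y (y' t) (Set.Icc c d) t)
    (hb : ∀ t ∈ Set.Icc c d, ‖y' t‖ ≤ K * ‖y t‖) :
    ∀ t ∈ Set.Icc c d, ‖y t‖ ≤ ‖y c‖ * Real.exp (K * (t - c)) := by
  intro t ht
  have h1 := norm_le_gronwallBound_of_norm_deriv_right_le (f := y) (f' := y') (δ := ‖y c‖) (K := K) (ε := 0)
    (a := c) (b := d) (fun x hx => (hy x hx).continuousWithinAt)
    (fun x hx => by
      have hx' : x ∈ Set.Icc c d := ⟨hx.1, hx.2.le⟩
      have h2 : HasDerivWithinAt y (y' x) (Set.Icc x d) x :=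
        (hy x hx').mono fun z hz => ⟨hx.1.trans hz.1, hz.2⟩
      exact h2.mono_of_mem_nhdsWithin (Icc_mem_nhdsGE hx.2))
    le_rfl
    (fun x hx => by
      rw [add_zero]
      exact hb x ⟨hx.1, hx.2.le⟩)
    t ht
  rwa [gronwallBound_ε0] at h1

theorem gro {F : Type*} [NormedAddCommGroup F] [NormedSpace ℝ F] {y y' : ℝ → F} {a b t₀ K : ℝ}
    (hK : 0 ≤ K) (ht : t₀ ∈ Set.Icc a b)
    (hy : ∀ t ∈ Set.Icc a b, HasDerivWithinAt y (y' t) (Set.Icc a b) t)
    (hb : ∀ t ∈ Set.Icc a b, ‖y' t‖ ≤ K * ‖y t‖) :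
    ∀ t ∈ Set.Icc a b, ‖y t‖ ≤ ‖y t₀‖ * Real.exp (K * |t - t₀|) := by
  intro t htt
  rcases le_total t₀ t with h | h
  · have h1 := fwd_Gro (y := y) (y' := y') (c := t₀) (d := b) (K := K)
      (fun x hx => (hy x ⟨ht.1.trans hx.1, hx.2⟩).mono fun z hz => ⟨ht.1.trans hz.1, hz.2⟩)
      (fun x hx => hb x ⟨ht.1.trans hx.1, hx.2⟩) t ⟨h, htt.2⟩
    rwa [abs_of_nonneg (sub_nonneg.2 h)]
  · have hmap : ∀ x ∈ Set.Icc (0 : ℝ) (t₀ - a), t₀ - x ∈ Set.Icc a b := by
      intro x hx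
      constructor
      · linarith [hx.2]
      · linarith [hx.1, ht.2]
    have h1 := fwd_Gro (y := fun s => y (t₀ - s)) (y' := fun s => (-1 : ℝ) • y' (t₀ - s)) (c := 0) (d := t₀ - a)
      (K := K)
      (fun x hx => by
        have h2 : HasDerivWithinAt (fun s : ℝ => t₀ - s) (-1) (Set.Icc 0 (t₀ - a)) x := by
          have h3 := (hasDerivWithinAt_id x (Set.Icc 0 (t₀ - a))).const_sub t₀
          exact h3
        exact HasDerivWithinAt.scomp x (hy (t₀ - x) (hmap x hx)) h2 hmap)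
      (fun x hx => by
        have h4 := hb (t₀ - x) (hmap x hx)
        show ‖(-1 : ℝ) • y' (t₀ - x)‖ ≤ K * ‖y (t₀ - x)‖
        rw [norm_smul, norm_neg, norm_one, one_mul]
        exact h4)
      (t₀ - t) ⟨sub_nonneg.2 h, by linarith [htt.1]⟩
    simp only [sub_zero, sub_sub_cancel] at h1
    rw [abs_of_nonpos (sub_nonpos.2 h), neg_sub]
    exact h1

end Pool.Agent.H68.TG
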