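import Pool.Agent.H68.TG.Def

/-!
# Module Rg1: regularity of L, Lv, Lx
-/

set_option autoImplicit false

open MeasureTheory Filter
open scoped RealInnerProductSpace Topology

namespace Pool.Agent.H68.TG

open Pool.Agent.H33.AM (E Tor pr IsPeriodic IsEL)
open Pool.Agent.H68.HD
open Pool.Agent.H68.TO (Slow Cst md)

variable {n : ℕ}

private theorem rg_fd {L : E n → E n → ℝ → ℝ} (hL : Ton L) (x v : E n) (t : ℝ) :
    HasFDerivAt (fun z : E n × E n × ℝ => L z.1 z.2.1 z.2.2)
      (fderiv ℝ (fun z : E n × E n × ℝ => L z.1 z.2.1 z.2.2) (x, v, t)) (x, v, t) :=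
  ((hL.smooth.differentiable (by norm_num)) (x, v, t)).hasFDerivAt

private theorem rg_v {L : E n → E n → ℝ → ℝ} (hL : Ton L) (x v : E n) (t : ℝ) :
    HasFDerivAt (fun v => L x v t)
      ((fderiv ℝ (fun z : E n × E n × ℝ => L z.1 z.2.1 z.2.2) (x, v, t)).comp
        ((0 : E n →L[ℝ] E n).prod ((ContinuousLinearMap.id ℝ (E n)).prod (0 : E n →L[ℝ] ℝ)))) v := by
  have h1 : HasFDerivAt (fun v : E n => ((x, v, t) : E n × E n × ℝ))
      ((0 : E n →L[ℝ] E n).prod ((ContinuousLinearMap.id ℝ (E n)).prod (0 : E n →L[ℝ] ℝ))) v :=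
    (hasFDerivAt_const x v).prodMk ((hasFDerivAt_id v).prodMk (hasFDerivAt_const t v))
  exact (rg_fd hL x v t).comp v h1

private theorem rg_x {L : E n → E n → ℝ → ℝ} (hL : Ton L) (x v : E n) (t : ℝ) :
    HasFDerivAt (fun x => L x v t)
      ((fderiv ℝ (fun z : E n × E n × ℝ => L z.1 z.2.1 z.2.2) (x, v, t)).comp
        ((ContinuousLinearMap.id ℝ (E n)).prod ((0 : E n →L[ℝ] E n).prod (0 : E n →L[ℝ] ℝ)))) x := by
  have h1 : HasFDerivAt (fun x : E n => ((x, v, t) : E n × E n × ℝ))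
      ((ContinuousLinearMap.id ℝ (E n)).prod ((0 : E n →L[ℝ] E n).prod (0 : E n →L[ℝ] ℝ))) x :=
    (hasFDerivAt_id x).prodMk ((hasFDerivAt_const v x).prodMk (hasFDerivAt_const t x))
  exact (rg_fd hL x v t).comp x h1

theorem lv_grad {L : E n → E n → ℝ → ℝ} (hL : Ton L) (x v : E n) (t : ℝ) :
    HasGradientAt (fun v => L x v t) (Lv L x v t) v :=
  (rg_v hL x v t).differentiableAt.hasGradientAt

theorem lx_grad {L : E n → E n → ℝ → ℝ} (hL : Ton L) (x v : E n) (t : ℝ) :
    HasGradientAt (fun x => L x v t) (Lx L x v t) x :=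
  (rg_x hL x v t).differentiableAt.hasGradientAt

private theorem lv_eq {L : E n → E n → ℝ → ℝ} (hL : Ton L) (x v : E n) (t : ℝ) :
    Lv L x v t = (InnerProductSpace.toDual ℝ (E n)).symm
      ((fderiv ℝ (fun z : E n × E n × ℝ => L z.1 z.2.1 z.2.2) (x, v, t)).comp
        ((0 : E n →L[ℝ] E n).prod ((ContinuousLinearMap.id ℝ (E n)).prod (0 : E n →L[ℝ] ℝ)))) := by
  unfold Lv gradient
  rw [(rg_v hL x v t).fderiv]

private theorem lx_eq {L : E n → E n → ℝ → ℝ} (hL : Ton L) (x v : E n) (t : ℝ) :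
    Lx L x v t = (InnerProductSpace.toDual ℝ (E n)).symm
      ((fderiv ℝ (fun z : E n × E n × ℝ => L z.1 z.2.1 z.2.2) (x, v, t)).comp
        ((ContinuousLinearMap.id ℝ (E n)).prod ((0 : E n →L[ℝ] E n).prod (0 : E n →L[ℝ] ℝ)))) := by
  unfold Lx gradient
  rw [(rg_x hL x v t).fderiv]

private theorem fd_cont {L : E n → E n → ℝ → ℝ} (hL : Ton L) :
    Continuous (fderiv ℝ (fun z : E n × E n × ℝ => L z.1 z.2.1 z.2.2)) :=
  hL.smooth.continuous_fderiv (by norm_num)

theorem lv_cont {L : E n → E n → ℝ → ℝ} (hL : Ton L) :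
    Continuous fun z : E n × E n × ℝ => Lv L z.1 z.2.1 z.2.2 := by
  simp only [lv_eq hL]
  exact (InnerProductSpace.toDual ℝ (E n)).symm.continuous.comp
    ((fd_cont hL).clm_comp continuous_const)

theorem lx_cont {L : E n → E n → ℝ → ℝ} (hL : Ton L) :
    Continuous fun z : E n × E n × ℝ => Lx L z.1 z.2.1 z.2.2 := by
  simp only [lx_eq hL]
  exact (InnerProductSpace.toDual ℝ (E n)).symm.continuous.comp
    ((fd_cont hL).clm_comp continuous_const)

theorem ltot {L : E n → E n → ℝ → ℝ} (hL : Ton L) (x v ξ η : E n) (t s : ℝ) :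
    HasDerivAt (fun s : ℝ => L (x + s • ξ) (v + s • η) t)
      (⟪Lx L (x + s • ξ) (v + s • η) t, ξ⟫ + ⟪Lv L (x + s • ξ) (v + s • η) t, η⟫) s := by
  have h1 : HasDerivAt (fun s : ℝ => ((x + s • ξ, v + s • η, t) : E n × E n × ℝ))
      (ξ, η, (0 : ℝ)) s := by
    have a1 : HasDerivAt (fun s : ℝ => x + s • ξ) ξ s := by
      have := ((hasDerivAt_id s).smul_const ξ).const_add x
      simpa using this
    have a2 : HasDerivAt (fun s : ℝ => v + s • η) η s := by
      have := ((hasDerivAt_id s).smul_const η).const_add v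
      simpa using this
    exact a1.prodMk (a2.prodMk (hasDerivAt_const s t))
  have h2 := (rg_fd hL (x + s • ξ) (v + s • η) t).comp_hasDerivAt s h1
  refine h2.congr_deriv ?_
  rw [lx_eq hL, lv_eq hL, InnerProductSpace.toDual_symm_apply, InnerProductSpace.toDual_symm_apply]
  simp only [ContinuousLinearMap.comp_apply, ContinuousLinearMap.prod_apply,
    ContinuousLinearMap.id_apply, zero_apply]
  rw [← map_add]
  simp

end Pool.Agent.H68.TG
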