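import Pool.Agent.H68.TG.Def
import Pool.Agent.H68.TG.Rg1

/-!
# Module Rg2: convexity in the velocity, periodicity of Lv and Lx
Convexity: the second derivative in `v` along a line is positive (`hL.pos`), so `fun v => L x v t` is strictly convex
(restrict to lines: `strictConvexOn_of_deriv2_pos` or `StrictMonoOn` of the derivative). `subg`: supporting affine function.
Periodicity: `L x v s = L y v t` as functions of `v`; for `Lx`: `L (x' + zv z) v s = L x' v t` for all `x'`.
-/

set_option autoImplicit false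

open MeasureTheory Filter
open scoped RealInnerProductSpace Topology

namespace Pool.Agent.H68.TG

open Pool.Agent.H33.AM (E Tor pr IsPeriodic IsEL)
open Pool.Agent.H68.HD
open Pool.Agent.H68.TO (Slow Cst md)

variable {n : ℕ}

private theorem Rg2_smooth {L : E n → E n → ℝ → ℝ} (hL : Ton L) (x : E n) (t : ℝ) :
    ContDiff ℝ 2 fun v => L x v t := by
  have h1 : ContDiff ℝ 2 fun v : E n => ((x, v, t) : E n × E n × ℝ) :=
    contDiff_const.prodMk (contDiff_id.prodMk contDiff_const)
  exact hL.smooth.comp h1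

private theorem Rg2_line {L : E n → E n → ℝ → ℝ} (hL : Ton L) (x v η : E n) (t : ℝ) (hη : η ≠ 0) :
    StrictConvexOn ℝ Set.univ fun s : ℝ => L x (v + s • η) t := by
  have hf := Rg2_smooth hL x t
  have hf1 : Differentiable ℝ fun v => L x v t := hf.differentiable (by norm_num)
  have hf2 : Differentiable ℝ (fderiv ℝ fun v => L x v t) := by
    have h1 : ContDiff ℝ 1 (fderiv ℝ fun v => L x v t) := hf.fderiv_right (by norm_num)
    exact h1.differentiable (by norm_num)
  have hline : ∀ s : ℝ, HasDerivAt (fun s : ℝ => v + s • η) η s := by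
    intro s
    have h1 := ((hasDerivAt_id s).smul_const η).const_add v
    simpa using h1
  have h1 : ∀ s : ℝ, HasDerivAt (fun s : ℝ => L x (v + s • η) t) (fderiv ℝ (fun v => L x v t) (v + s • η) η) s := by
    intro s
    exact (hf1 (v + s • η)).hasFDerivAt.comp_hasDerivAt s (hline s)
  have h2 : ∀ s : ℝ, HasDerivAt (fun s : ℝ => fderiv ℝ (fun v => L x v t) (v + s • η) η)
      (fderiv ℝ (fderiv ℝ fun v => L x v t) (v + s • η) η η) s := by
    intro s
    have h3 : HasDerivAt (fun s : ℝ => fderiv ℝ (fun v => L x v t) (v + s • η))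
        (fderiv ℝ (fderiv ℝ fun v => L x v t) (v + s • η) η) s :=
      (hf2 (v + s • η)).hasFDerivAt.comp_hasDerivAt s (hline s)
    have h4 := h3.clm_apply (hasDerivAt_const s η)
    rw [map_zero, add_zero] at h4
    exact h4
  refine strictConvexOn_univ_of_deriv2_pos ?_ fun s => ?_
  · exact continuous_iff_continuousAt.2 fun s => (h1 s).continuousAt
  · have h3 : deriv (fun s : ℝ => L x (v + s • η) t) = fun s => fderiv ℝ (fun v => L x v t) (v + s • η) η :=
      funext fun s => (h1 s).deriv
    show 0 < deriv (deriv fun s : ℝ => L x (v + s • η) t) s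
    rw [h3, (h2 s).deriv]
    exact hL.pos x _ t η hη

theorem sconv {L : E n → E n → ℝ → ℝ} (hL : Ton L) (x : E n) (t : ℝ) :
    StrictConvexOn ℝ Set.univ fun v => L x v t := by
  refine ⟨convex_univ, fun v _ w _ hvw a b ha hb hab => ?_⟩
  have h1 := (Rg2_line hL x v (w - v) t (sub_ne_zero.2 hvw.symm)).2 (Set.mem_univ (0 : ℝ)) (Set.mem_univ (1 : ℝ))
    zero_ne_one ha hb hab
  have h2 : v + (a • (0 : ℝ) + b • (1 : ℝ)) • (w - v) = a • v + b • w := by
    have h3 : a = 1 - b := by linarith
    rw [h3]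
    simp only [smul_eq_mul, mul_zero, mul_one, zero_add, smul_sub, sub_smul, one_smul]
    abel
  simp only [h2] at h1
  simp only [zero_smul, one_smul, add_zero, add_sub_cancel] at h1
  exact h1

theorem subg {L : E n → E n → ℝ → ℝ} (hL : Ton L) (x v w : E n) (t : ℝ) :
    L x v t + ⟪Lv L x v t, w - v⟫ ≤ L x w t := by
  by_cases hvw : v = w
  · subst hvw
    rw [sub_self, inner_zero_right, add_zero]
  · have h1 := (Rg2_line hL x v (w - v) t (sub_ne_zero.2 (Ne.symm hvw))).convexOn
    have h2 := ltot hL x v 0 (w - v) t 0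
    simp only [smul_zero, add_zero, zero_smul, inner_zero_right, zero_add] at h2
    have h3 := h1.le_slope_of_hasDerivAt (Set.mem_univ (0 : ℝ)) (Set.mem_univ (1 : ℝ)) zero_lt_one h2
    rw [slope_def_field] at h3
    simp only [one_smul, zero_smul, add_zero, add_sub_cancel, sub_zero, div_one] at h3
    linarith

private theorem Rg2_per {L : E n → E n → ℝ → ℝ} (hL : Ton L) (x v : E n) (z : Fin n → ℤ) (t : ℝ) (k : ℤ) :
    L (x + zv z) v (t + k) = L x v t := by
  refine hL.per _ _ _ _ _ ?_ ?_
  · exact (pr_eq_pr.2 ⟨z, rfl⟩).symm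
  · rw [← sub_eq_zero, ← AddCircle.coe_sub, AddCircle.coe_eq_zero_iff]
    exact ⟨k, by simp⟩

theorem lv_per {L : E n → E n → ℝ → ℝ} (hL : Ton L) (x v : E n) (z : Fin n → ℤ) (t : ℝ) (k : ℤ) :
    Lv L (x + zv z) v (t + k) = Lv L x v t := by
  unfold Lv
  have h1 : (fun v => L (x + zv z) v (t + k)) = fun v => L x v t := funext fun v => Rg2_per hL x v z t k
  rw [h1]

theorem lx_per {L : E n → E n → ℝ → ℝ} (hL : Ton L) (x v : E n) (z : Fin n → ℤ) (t : ℝ) (k : ℤ) :
    Lx L (x + zv z) v (t + k) = Lx L x v t := by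
  unfold Lx gradient
  rw [← fderiv_comp_add_right]
  have h1 : (fun y => L (y + zv z) v (t + k)) = fun y => L y v t := funext fun y => Rg2_per hL y v z t k
  rw [h1]

end Pool.Agent.H68.TG
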