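import Pool.Agent.H68.TG.Def
import Pool.Agent.H68.TG.Rg1
import Pool.Agent.H68.TG.Rg2

/-!
# Module MuL: Lv and Lx are Lipschitz on bounded sets of velocities, uniformly in (x, t)
The second derivative of the jointly `C²` function is continuous and periodic (`fderiv_comp_add_right`), hence bounded on
`{‖v‖ ≤ V}`; `(Lx, Lv)` are components of the first derivative, which is Lipschitz on the convex set `{‖v‖ ≤ V}`, mean
value inequality `Convex.norm_image_sub_le_of_norm_fderiv_le` (or `_of_norm_hasFDerivWithin_le`).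
-/

set_option autoImplicit false

open MeasureTheory Filter
open scoped RealInnerProductSpace Topology

namespace Pool.Agent.H68.TG

open Pool.Agent.H33.AM (E Tor pr IsPeriodic IsEL)
open Pool.Agent.H68.HD
open Pool.Agent.H68.TO (Slow Cst md)

variable {n : ℕ}

/-- The Lagrangian as a function of one variable. -/
private def Fu (L : E n → E n → ℝ → ℝ) (z : E n × E n × ℝ) : ℝ := L z.1 z.2.1 z.2.2

private theorem fu_per {L : E n → E n → ℝ → ℝ} (hL : Ton L) (m : Fin n → ℤ) (k : ℤ) :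
    (fun z => Fu L (z + (zv m, 0, (k : ℝ)))) = Fu L := by
  funext z
  have h1 : pr (z.1 + zv m) = pr z.1 := (pr_eq_pr.2 ⟨m, rfl⟩).symm
  have h2 : ((z.2.2 + (k : ℝ) : ℝ) : UnitAddCircle) = (z.2.2 : UnitAddCircle) := by
    rw [← sub_eq_zero, ← AddCircle.coe_sub, AddCircle.coe_eq_zero_iff]
    exact ⟨k, by simp⟩
  have h3 := hL.per (z.1 + zv m) z.1 z.2.1 (z.2.2 + (k : ℝ)) z.2.2 h1 h2
  simpa [Fu] using h3

private theorem d2_per {L : E n → E n → ℝ → ℝ} (hL : Ton L) (m : Fin n → ℤ) (k : ℤ)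
    (z : E n × E n × ℝ) :
    fderiv ℝ (fderiv ℝ (Fu L)) (z + (zv m, 0, (k : ℝ))) = fderiv ℝ (fderiv ℝ (Fu L)) z := by
  have h1 : (fun z => fderiv ℝ (Fu L) (z + (zv m, 0, (k : ℝ)))) = fderiv ℝ (Fu L) := by
    funext z
    rw [← fderiv_comp_add_right, fu_per hL m k]
  rw [← fderiv_comp_add_right, h1]

private theorem d2_bd {L : E n → E n → ℝ → ℝ} (hL : Ton L) (V : ℝ) :
    ∃ C : ℝ, 0 ≤ C ∧ ∀ z : E n × E n × ℝ, ‖z.2.1‖ ≤ V → ‖fderiv ℝ (fderiv ℝ (Fu L)) z‖ ≤ C := by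
  have hF : ContDiff ℝ 2 (Fu L) := hL.smooth
  have h1 : ContDiff ℝ 1 (fderiv ℝ (Fu L)) := hF.fderiv_right (by norm_num)
  have h2 : Continuous (fderiv ℝ (fderiv ℝ (Fu L))) := h1.continuous_fderiv (by norm_num)
  have h2n : Continuous fun z : E n × E n × ℝ => ‖fderiv ℝ (fderiv ℝ (Fu L)) z‖ :=
    (continuous_norm (E := E n × E n × ℝ →L[ℝ] E n × E n × ℝ →L[ℝ] ℝ)).comp h2
  have hK : IsCompact (Metric.closedBall (0 : E n) (Real.sqrt n) ×ˢ
      (Metric.closedBall (0 : E n) V ×ˢ Set.Icc (0 : ℝ) 1)) :=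
    (isCompact_closedBall _ _).prod ((isCompact_closedBall _ _).prod isCompact_Icc)
  obtain ⟨C, hC⟩ := hK.exists_bound_of_continuousOn
    (f := fun z => ‖fderiv ℝ (fderiv ℝ (Fu L)) z‖) h2n.continuousOn
  refine ⟨max C 0, le_max_right _ _, fun z hz => le_trans ?_ (le_max_left _ _)⟩
  obtain ⟨m, hm, -⟩ := exists_near z.1
  rw [← d2_per hL m (-⌊z.2.2⌋) z]
  refine (le_abs_self _).trans (hC _ ?_)
  refine ⟨?_, ?_, ?_⟩
  · simpa using hm
  · simpa using hz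
  · have h3 := Int.floor_le z.2.2
    have h4 := Int.lt_floor_add_one z.2.2
    simp only [Prod.snd_add, Set.mem_Icc, Int.cast_neg]
    constructor <;> linarith

private theorem d1_lip {L : E n → E n → ℝ → ℝ} (hL : Ton L) (V : ℝ) :
    ∃ C : ℝ, 0 ≤ C ∧ ∀ x y v w t, ‖v‖ ≤ V → ‖w‖ ≤ V →
      ‖fderiv ℝ (Fu L) (x, v, t) - fderiv ℝ (Fu L) (y, w, t)‖ ≤ C * (‖x - y‖ + ‖v - w‖) := by
  obtain ⟨C, hC, h⟩ := d2_bd hL V
  refine ⟨C, hC, fun x y v w t hv hw => ?_⟩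
  have hF : ContDiff ℝ 2 (Fu L) := hL.smooth
  have h1 : ContDiff ℝ 1 (fderiv ℝ (Fu L)) := hF.fderiv_right (by norm_num)
  have hs : Convex ℝ {z : E n × E n × ℝ | ‖z.2.1‖ ≤ V} := by
    have h3 : Convex ℝ (Metric.closedBall (0 : E n) V) := convex_closedBall _ _
    have h4 : {z : E n × E n × ℝ | ‖z.2.1‖ ≤ V} =
        ((ContinuousLinearMap.fst ℝ (E n) ℝ).comp (ContinuousLinearMap.snd ℝ (E n) (E n × ℝ))) ⁻¹'
          Metric.closedBall (0 : E n) V := by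
      ext z
      simp
    rw [h4]
    exact h3.linear_preimage _
  have h2 := hs.norm_image_sub_le_of_norm_fderiv_le
    (f := fderiv ℝ (Fu L)) (C := C) (x := (y, w, t)) (y := (x, v, t))
    (fun z _ => (h1.differentiable (by norm_num)) z) (fun z hz => h z hz) hw hv
  refine h2.trans (mul_le_mul_of_nonneg_left ?_ hC)
  have h5 : ((x, v, t) - (y, w, t) : E n × E n × ℝ) = (x - y, v - w, 0) := by simp
  rw [h5, Prod.norm_mk, Prod.norm_mk]
  have h6 := norm_nonneg (x - y)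
  have h7 := norm_nonneg (v - w)
  refine max_le (by linarith) (max_le (by linarith) ?_)
  simp only [norm_zero]
  linarith

private theorem comp_le {i : E n →L[ℝ] E n × E n × ℝ} (hi : ∀ η, ‖i η‖ ≤ ‖η‖)
    (A B : E n × E n × ℝ →L[ℝ] ℝ) : ‖A.comp i - B.comp i‖ ≤ ‖A - B‖ := by
  refine ContinuousLinearMap.opNorm_le_bound _ (norm_nonneg _) fun η => ?_
  have h1 : (A.comp i - B.comp i) η = (A - B) (i η) := by simp
  rw [h1]
  exact ((A - B).le_opNorm _).trans (mul_le_mul_of_nonneg_left (hi η) (norm_nonneg _))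

private theorem grad_sub {f g : E n → ℝ} {v w : E n} {A B : E n →L[ℝ] ℝ}
    (hf : HasFDerivAt f A v) (hg : HasFDerivAt g B w) :
    ‖gradient f v - gradient g w‖ = ‖A - B‖ := by
  unfold gradient
  rw [hf.fderiv, hg.fderiv, ← map_sub, LinearIsometryEquiv.norm_map]

private theorem fv {L : E n → E n → ℝ → ℝ} (hL : Ton L) (x v : E n) (t : ℝ) :
    HasFDerivAt (fun v => L x v t) ((fderiv ℝ (Fu L) (x, v, t)).comp
      ((0 : E n →L[ℝ] E n).prod ((ContinuousLinearMap.id ℝ (E n)).prod (0 : E n →L[ℝ] ℝ)))) v := by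
  have hF : ContDiff ℝ 2 (Fu L) := hL.smooth
  have h1 : HasFDerivAt (Fu L) (fderiv ℝ (Fu L) (x, v, t)) (x, v, t) :=
    ((hF.differentiable (by norm_num)) _).hasFDerivAt
  have h2 : HasFDerivAt (fun v : E n => (x, v, t))
      ((0 : E n →L[ℝ] E n).prod ((ContinuousLinearMap.id ℝ (E n)).prod (0 : E n →L[ℝ] ℝ))) v :=
    (hasFDerivAt_const x v).prodMk ((hasFDerivAt_id v).prodMk (hasFDerivAt_const t v))
  exact HasFDerivAt.comp v h1 h2

private theorem fx {L : E n → E n → ℝ → ℝ} (hL : Ton L) (x v : E n) (t : ℝ) :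
    HasFDerivAt (fun x => L x v t) ((fderiv ℝ (Fu L) (x, v, t)).comp
      ((ContinuousLinearMap.id ℝ (E n)).prod ((0 : E n →L[ℝ] E n).prod (0 : E n →L[ℝ] ℝ)))) x := by
  have hF : ContDiff ℝ 2 (Fu L) := hL.smooth
  have h1 : HasFDerivAt (Fu L) (fderiv ℝ (Fu L) (x, v, t)) (x, v, t) :=
    ((hF.differentiable (by norm_num)) _).hasFDerivAt
  have h2 : HasFDerivAt (fun x : E n => (x, v, t))
      ((ContinuousLinearMap.id ℝ (E n)).prod ((0 : E n →L[ℝ] E n).prod (0 : E n →L[ℝ] ℝ))) x :=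
    (hasFDerivAt_id x).prodMk ((hasFDerivAt_const v x).prodMk (hasFDerivAt_const t x))
  exact HasFDerivAt.comp x h1 h2

theorem mu_lip {L : E n → E n → ℝ → ℝ} (hL : Ton L) (V : ℝ) :
    ∃ C : ℝ, 0 ≤ C ∧ ∀ x y v w t, ‖v‖ ≤ V → ‖w‖ ≤ V →
      ‖Lv L x v t - Lv L y w t‖ ≤ C * (‖x - y‖ + ‖v - w‖) ∧
      ‖Lx L x v t - Lx L y w t‖ ≤ C * (‖x - y‖ + ‖v - w‖) := by
  obtain ⟨C, hC, h⟩ := d1_lip hL V
  refine ⟨C, hC, fun x y v w t hv hw => ⟨?_, ?_⟩⟩
  · unfold Lv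
    rw [grad_sub (fv hL x v t) (fv hL y w t)]
    exact (comp_le (fun η => by simp [Prod.norm_def]) _ _).trans (h x y v w t hv hw)
  · unfold Lx
    rw [grad_sub (fx hL x v t) (fx hL y w t)]
    exact (comp_le (fun η => by simp [Prod.norm_def]) _ _).trans (h x y v w t hv hw)

end Pool.Agent.H68.TG
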