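import Pool.Agent.H68.TG.Def
import Pool.Agent.H68.TG.Rg1
import Pool.Agent.H68.TG.Rg2

/-!
# Module MuP: strong monotonicity of Lv on bounded sets
The second derivative in `v`, `B(x, v, t)(w, w)`, is continuous in `(x, v, t, w)` (it is the `v`-part of the second derivative
of the jointly `C²` function) and positive for `w ≠ 0`, so it is `≥ μ > 0` on the compact set `‖x‖ ≤ √n`, `‖v‖ ≤ V`,
`0 ≤ t ≤ 1`, `‖w‖ = 1`; by periodicity (`exists_near`, `pr_eq_pr`, `Int.fract`) for all `x`, `t`; homogeneity. Then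
`⟪Lv(v) - Lv(w), v - w⟫` is the difference of the derivatives at `s = 1, 0` of `s ↦ L(x, w + s (v - w), t)`, mean value
theorem (segment in the ball). Alternative: compactness argument by contradiction.
-/

set_option autoImplicit false

open MeasureTheory Filter
open scoped RealInnerProductSpace Topology

namespace Pool.Agent.H68.TG

open Pool.Agent.H33.AM (E Tor pr IsPeriodic IsEL)
open Pool.Agent.H68.HD
open Pool.Agent.H68.TO (Slow Cst md)

variable {n : ℕ}

namespace MuP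

/-- The inclusion of the velocities. -/
noncomputable def J (n : ℕ) : E n →L[ℝ] E n × E n × ℝ :=
  (0 : E n →L[ℝ] E n).prod ((ContinuousLinearMap.id ℝ (E n)).prod (0 : E n →L[ℝ] ℝ))

/-- The Lagrangian as a function of one variable. -/
def F (L : E n → E n → ℝ → ℝ) (z : E n × E n × ℝ) : ℝ := L z.1 z.2.1 z.2.2

/-- The second derivative in the velocity. -/
noncomputable def G (L : E n → E n → ℝ → ℝ) (z : E n × E n × ℝ) (u : E n) : ℝ :=
  fderiv ℝ (fderiv ℝ (F L)) z (J n u) (J n u)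

theorem hasJ (x v : E n) (t : ℝ) : HasFDerivAt (fun v : E n => (x, v, t)) (J n) v :=
  (hasFDerivAt_const x v).prodMk ((hasFDerivAt_id v).prodMk (hasFDerivAt_const t v))

theorem hasF {L : E n → E n → ℝ → ℝ} (hL : Ton L) (z : E n × E n × ℝ) :
    HasFDerivAt (F L) (fderiv ℝ (F L) z) z :=
  ((hL.smooth : ContDiff ℝ 2 (F L)).differentiable (by norm_num) z).hasFDerivAt

theorem smooth1 {L : E n → E n → ℝ → ℝ} (hL : Ton L) : ContDiff ℝ 1 (fderiv ℝ (F L)) :=
  (hL.smooth : ContDiff ℝ 2 (F L)).fderiv_right (by norm_num)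

theorem hasF2 {L : E n → E n → ℝ → ℝ} (hL : Ton L) (z : E n × E n × ℝ) :
    HasFDerivAt (fderiv ℝ (F L)) (fderiv ℝ (fderiv ℝ (F L)) z) z :=
  ((smooth1 hL).differentiable (by norm_num) z).hasFDerivAt

theorem fderiv_v {L : E n → E n → ℝ → ℝ} (hL : Ton L) (x : E n) (t : ℝ) :
    fderiv ℝ (fun v => L x v t) = fun v => (fderiv ℝ (F L) (x, v, t)).comp (J n) := by
  funext v
  exact ((hasF hL (x, v, t)).comp v (hasJ x v t)).fderiv

theorem fderiv_vv {L : E n → E n → ℝ → ℝ} (hL : Ton L) (x v u : E n) (t : ℝ) :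
    fderiv ℝ (fderiv ℝ fun v => L x v t) v u u = G L (x, v, t) u := by
  rw [fderiv_v hL x t]
  have h1 := ((ContinuousLinearMap.compL ℝ (E n) (E n × E n × ℝ) ℝ).flip (J n)).hasFDerivAt.comp v
    ((hasF2 hL (x, v, t)).comp v (hasJ x v t))
  have h2 : HasFDerivAt (fun v => (fderiv ℝ (F L) (x, v, t)).comp (J n)) _ v := h1
  rw [h2.fderiv]
  rfl

theorem G_cont {L : E n → E n → ℝ → ℝ} (hL : Ton L) :
    Continuous fun p : (E n × E n × ℝ) × E n => G L p.1 p.2 := by
  have h1 : Continuous (fderiv ℝ (fderiv ℝ (F L))) := (smooth1 hL).continuous_fderiv (by norm_num)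
  have h2 : Continuous fun p : (E n × E n × ℝ) × E n => J n p.2 := (J n).continuous.comp continuous_snd
  exact ((h1.comp continuous_fst).clm_apply h2).clm_apply h2

theorem G_smul (L : E n → E n → ℝ → ℝ) (z : E n × E n × ℝ) (c : ℝ) (u : E n) :
    G L z (c • u) = c ^ 2 * G L z u := by
  simp only [G, map_smul, smul_apply, smul_eq_mul]
  ring

theorem G_pos {L : E n → E n → ℝ → ℝ} (hL : Ton L) (x v u : E n) (t : ℝ) (hu : u ≠ 0) :
    0 < G L (x, v, t) u := by
  rw [← fderiv_vv hL]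
  exact hL.pos x v t u hu

/-- The inner product with the momentum. -/
theorem inner_lv {L : E n → E n → ℝ → ℝ} (hL : Ton L) (x v u : E n) (t : ℝ) :
    ⟪Lv L x v t, u⟫ = fderiv ℝ (F L) (x, v, t) (J n u) := by
  have h1 : fderiv ℝ (fun v => L x v t) v = (fderiv ℝ (F L) (x, v, t)).comp (J n) :=
    congrFun (fderiv_v hL x t) v
  have h2 : ⟪Lv L x v t, u⟫ = fderiv ℝ (fun v => L x v t) v u := by
    unfold Lv gradient
    exact InnerProductSpace.toDual_symm_apply
  rw [h2, h1]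
  rfl

theorem hasLine {L : E n → E n → ℝ → ℝ} (hL : Ton L) (x w u : E n) (t s : ℝ) :
    HasDerivAt (fun s : ℝ => ⟪Lv L x (w + s • u) t, u⟫) (G L (x, w + s • u, t) u) s := by
  have h1 : HasDerivAt (fun s : ℝ => w + s • u) u s := by
    simpa using ((hasDerivAt_id s).smul_const u).const_add w
  have h2 : HasFDerivAt (fun v : E n => fderiv ℝ (F L) (x, v, t) (J n u))
      ((fderiv ℝ (fderiv ℝ (F L)) (x, w + s • u, t)).comp (J n) |>.flip (J n u)) (w + s • u) := by
    have h3 := ((hasF2 hL (x, w + s • u, t)).comp (w + s • u) (hasJ x (w + s • u) t)).clm_apply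
      (hasFDerivAt_const (J n u) (w + s • u))
    refine h3.congr_fderiv ?_
    ext a
    simp
  have h4 := h2.comp_hasDerivAt s h1
  have h5 : (fun s : ℝ => ⟪Lv L x (w + s • u) t, u⟫) =
      (fun v : E n => fderiv ℝ (F L) (x, v, t) (J n u)) ∘ fun s : ℝ => w + s • u := by
    funext s
    exact inner_lv hL _ _ _ _
  rw [h5]
  exact h4

end MuP

open MuP

theorem mu_pos {L : E n → E n → ℝ → ℝ} (hL : Ton L) (V : ℝ) :
    ∃ μ : ℝ, 0 < μ ∧ ∀ x v w t, ‖v‖ ≤ V → ‖w‖ ≤ V →
      μ * ‖v - w‖ ^ 2 ≤ ⟪Lv L x v t - Lv L x w t, v - w⟫ := by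
  have hK : IsCompact ((Metric.closedBall (0 : E n) (Real.sqrt n) ×ˢ
      (Metric.closedBall (0 : E n) V ×ˢ Set.Icc (0 : ℝ) 1)) ×ˢ Metric.sphere (0 : E n) 1) :=
    ((isCompact_closedBall _ _).prod ((isCompact_closedBall _ _).prod isCompact_Icc)).prod
      (isCompact_sphere _ _)
  obtain ⟨μ, hμ, hG⟩ := hK.exists_forall_le' (G_cont hL).continuousOn (a := 0) (by
    rintro ⟨⟨x, v, t⟩, u⟩ ⟨-, hu⟩
    refine G_pos hL x v u t ?_
    rintro rfl
    simp at hu)
  refine ⟨μ, hμ, fun x v w t hv hw => ?_⟩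
  obtain ⟨z, hz, -⟩ := exists_near x
  have ht0 : 0 ≤ t + ((-⌊t⌋ : ℤ) : ℝ) := by
    push_cast
    linarith [Int.floor_le t]
  have ht1 : t + ((-⌊t⌋ : ℤ) : ℝ) ≤ 1 := by
    push_cast
    linarith [Int.lt_floor_add_one t]
  rw [← lv_per hL x v z t (-⌊t⌋), ← lv_per hL x w z t (-⌊t⌋)]
  set x' := x + zv z
  set t' := t + ((-⌊t⌋ : ℤ) : ℝ)
  set u := v - w with hu
  have key : ∀ s ∈ Set.Ioo (0 : ℝ) 1, μ * ‖u‖ ^ 2 ≤ G L (x', w + s • u, t') u := by
    intro s hs
    by_cases h0 : u = 0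
    · simp [h0, G]
    · have hn : 0 < ‖u‖ := norm_pos_iff.2 h0
      have hb : ‖w + s • u‖ ≤ V := by
        have e : w + s • u = (1 - s) • w + s • v := by
          rw [hu]
          module
        rw [e]
        calc ‖(1 - s) • w + s • v‖ ≤ ‖(1 - s) • w‖ + ‖s • v‖ := norm_add_le _ _
          _ = (1 - s) * ‖w‖ + s * ‖v‖ := by
              rw [norm_smul, norm_smul, Real.norm_of_nonneg (by linarith [hs.2]),
                Real.norm_of_nonneg hs.1.le]
          _ ≤ (1 - s) * V + s * V :=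
              add_le_add (mul_le_mul_of_nonneg_left hw (by linarith [hs.2]))
                (mul_le_mul_of_nonneg_left hv hs.1.le)
          _ = V := by ring
      have h1 := hG ((x', w + s • u, t'), ‖u‖⁻¹ • u) ⟨⟨by simpa using hz, by simpa using hb, ht0, ht1⟩, by
        simp [norm_smul, hn.ne']⟩
      simp only at h1
      rw [G_smul, inv_pow, inv_mul_eq_div, le_div_iff₀ (by positivity)] at h1
      exact h1
  have hmv := exists_hasDerivAt_eq_slope (fun s : ℝ => ⟪Lv L x' (w + s • u) t', u⟫)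
    (fun s => G L (x', w + s • u, t') u) (by norm_num : (0 : ℝ) < 1)
    (fun s _ => (hasLine hL x' w u t' s).continuousAt.continuousWithinAt)
    (fun s _ => hasLine hL x' w u t' s)
  obtain ⟨s, hs, he⟩ := hmv
  have h2 := key s hs
  rw [he] at h2
  have e1 : w + (1 : ℝ) • u = v := by rw [hu]; module
  have e0 : w + (0 : ℝ) • u = w := by simp
  rw [e1, e0, ← inner_sub_left] at h2
  simpa using h2

end Pool.Agent.H68.TG
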