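import Pool.Agent.H68.TG.Def
import Pool.Agent.H68.TG.Gro
import Pool.Agent.H68.TG.MuP
import Pool.Agent.H68.TG.MuL

/-!
# Module Cls: continuous dependence of Euler-Lagrange curves
`μ, C₀` from `mu_pos`, `mu_lip` for `V`. With `p i = Lv(γ i, w i, t)`: `μ ‖w 1 - w 2‖² ≤ ⟪Lv(γ 1, w 1) - Lv(γ 1, w 2), w 1 - w 2⟫`, and
`Lv(γ 1, w 1) - Lv(γ 1, w 2) = p 1 - p 2 + (Lv(γ 2, w 2) - Lv(γ 1, w 2))`, so `‖w 1 - w 2‖ ≤ (‖p 1 - p 2‖ + C₀ ‖γ 1 - γ 2‖)/μ`. `gro` for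
`y = (γ 1 - γ 2, p 1 - p 2) ∈ E × E`, `‖y'‖ ≤ K ‖y‖` by `mu_lip`; `|t - t₀| ≤ 1`; at `t₀`: `‖p 1 - p 2‖ ≤ C₀ (‖γ 1 - γ 2‖ + ‖w 1 - w 2‖)`.
-/

set_option autoImplicit false

open MeasureTheory Filter
open scoped RealInnerProductSpace Topology

namespace Pool.Agent.H68.TG

open Pool.Agent.H33.AM (E Tor pr IsPeriodic IsEL)
open Pool.Agent.H68.HD
open Pool.Agent.H68.TO (Slow Cst md)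

variable {n : ℕ}

private theorem fst_Cls (x y : E n) : ‖x‖ ≤ ‖(x, y)‖ := by
  rw [Prod.norm_def]
  exact le_max_left _ _

private theorem snd_Cls (x y : E n) : ‖y‖ ≤ ‖(x, y)‖ := by
  rw [Prod.norm_def]
  exact le_max_right _ _

theorem cls {L : E n → E n → ℝ → ℝ} (hL : Ton L) (V : ℝ) :
    ∃ C : ℝ, 0 ≤ C ∧ ∀ (γ₁ w₁ γ₂ w₂ : ℝ → E n) (a b t₀ : ℝ), b - a ≤ 1 → t₀ ∈ Set.Icc a b →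
      Elc L γ₁ w₁ a b → Elc L γ₂ w₂ a b →
      (∀ t ∈ Set.Icc a b, ‖w₁ t‖ ≤ V) → (∀ t ∈ Set.Icc a b, ‖w₂ t‖ ≤ V) →
      ∀ t ∈ Set.Icc a b, ‖γ₁ t - γ₂ t‖ + ‖w₁ t - w₂ t‖ ≤
        C * (‖γ₁ t₀ - γ₂ t₀‖ + ‖w₁ t₀ - w₂ t₀‖) := by
  obtain ⟨μ, hμ, hpos⟩ := mu_pos hL V
  obtain ⟨C₀, hC₀, hlip⟩ := mu_lip hL V
  obtain ⟨D, hD⟩ : ∃ D, D = (1 + C₀) / μ := ⟨_, rfl⟩
  have hD0 : 0 ≤ D := by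
    rw [hD]
    positivity
  -- the velocities are controlled by the positions and the momenta
  have key : ∀ (x₁ x₂ v₁ v₂ : E n) (t : ℝ), ‖v₁‖ ≤ V → ‖v₂‖ ≤ V →
      ‖v₁ - v₂‖ ≤ D * ‖(x₁ - x₂, Lv L x₁ v₁ t - Lv L x₂ v₂ t)‖ := by
    intro x₁ x₂ v₁ v₂ t h1 h2
    have e1 := hpos x₁ v₁ v₂ t h1 h2
    have e2 := real_inner_le_norm (Lv L x₁ v₁ t - Lv L x₁ v₂ t) (v₁ - v₂)
    have e3 : ‖Lv L x₁ v₁ t - Lv L x₁ v₂ t‖ ≤ ‖Lv L x₁ v₁ t - Lv L x₂ v₂ t‖ + C₀ * ‖x₁ - x₂‖ := by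
      have e4 : Lv L x₁ v₁ t - Lv L x₁ v₂ t = (Lv L x₁ v₁ t - Lv L x₂ v₂ t) - (Lv L x₁ v₂ t - Lv L x₂ v₂ t) := by
        abel
      have e5 := (hlip x₁ x₂ v₂ v₂ t h2 h2).1
      rw [sub_self, norm_zero, add_zero] at e5
      rw [e4]
      exact (norm_sub_le _ _).trans (by linarith)
    have e6 : ‖Lv L x₁ v₁ t - Lv L x₂ v₂ t‖ ≤ ‖(x₁ - x₂, Lv L x₁ v₁ t - Lv L x₂ v₂ t)‖ := snd_Cls _ _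
    have e7 : ‖x₁ - x₂‖ ≤ ‖(x₁ - x₂, Lv L x₁ v₁ t - Lv L x₂ v₂ t)‖ := fst_Cls _ _
    have e8 : ‖Lv L x₁ v₁ t - Lv L x₁ v₂ t‖ ≤ (1 + C₀) * ‖(x₁ - x₂, Lv L x₁ v₁ t - Lv L x₂ v₂ t)‖ := by
      have e9 := mul_le_mul_of_nonneg_left e7 hC₀
      linarith
    rcases eq_or_lt_of_le (norm_nonneg (v₁ - v₂)) with h0 | h0
    · rw [← h0]
      exact mul_nonneg hD0 (norm_nonneg _)
    · have e10 : μ * ‖v₁ - v₂‖ ≤ (1 + C₀) * ‖(x₁ - x₂, Lv L x₁ v₁ t - Lv L x₂ v₂ t)‖ := by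
        have e11 : μ * ‖v₁ - v₂‖ * ‖v₁ - v₂‖ ≤
            (1 + C₀) * ‖(x₁ - x₂, Lv L x₁ v₁ t - Lv L x₂ v₂ t)‖ * ‖v₁ - v₂‖ := by
          have e12 := mul_le_mul_of_nonneg_right e8 h0.le
          have e13 : μ * ‖v₁ - v₂‖ ^ 2 = μ * ‖v₁ - v₂‖ * ‖v₁ - v₂‖ := by ring
          linarith
        exact le_of_mul_le_mul_right e11 h0
      rw [hD, div_mul_eq_mul_div, le_div_iff₀ hμ]
      linarith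
  refine ⟨(1 + D) * Real.exp (D + C₀ * (1 + D)) * (1 + C₀), by positivity, ?_⟩
  intro γ₁ w₁ γ₂ w₂ a b t₀ hab ht₀ h1 h2 hw1 hw2 t ht
  have hK : 0 ≤ D + C₀ * (1 + D) := by positivity
  have hy : ∀ s ∈ Set.Icc a b, HasDerivWithinAt
      (fun s => (γ₁ s - γ₂ s, Lv L (γ₁ s) (w₁ s) s - Lv L (γ₂ s) (w₂ s) s))
      (w₁ s - w₂ s, Lx L (γ₁ s) (w₁ s) s - Lx L (γ₂ s) (w₂ s) s) (Set.Icc a b) s := fun s hs =>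
    ((h1.dx s hs).sub (h2.dx s hs)).prodMk ((h1.dp s hs).sub (h2.dp s hs))
  have hb : ∀ s ∈ Set.Icc a b, ‖(w₁ s - w₂ s, Lx L (γ₁ s) (w₁ s) s - Lx L (γ₂ s) (w₂ s) s)‖ ≤
      (D + C₀ * (1 + D)) * ‖(γ₁ s - γ₂ s, Lv L (γ₁ s) (w₁ s) s - Lv L (γ₂ s) (w₂ s) s)‖ := by
    intro s hs
    have e1 := key (γ₁ s) (γ₂ s) (w₁ s) (w₂ s) s (hw1 s hs) (hw2 s hs)
    have e2 := (hlip (γ₁ s) (γ₂ s) (w₁ s) (w₂ s) s (hw1 s hs) (hw2 s hs)).2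
    obtain ⟨N, hN⟩ : ∃ N, N = ‖(γ₁ s - γ₂ s, Lv L (γ₁ s) (w₁ s) s - Lv L (γ₂ s) (w₂ s) s)‖ := ⟨_, rfl⟩
    have hN0 : 0 ≤ N := by
      rw [hN]
      exact norm_nonneg _
    have e3 : ‖γ₁ s - γ₂ s‖ ≤ N := by
      rw [hN]
      exact fst_Cls _ _
    rw [← hN] at e1 ⊢
    have e4 : C₀ * (‖γ₁ s - γ₂ s‖ + ‖w₁ s - w₂ s‖) ≤ C₀ * ((1 + D) * N) :=
      mul_le_mul_of_nonneg_left (by linarith) hC₀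
    have e5 : 0 ≤ C₀ * (1 + D) * N := by positivity
    have e6 : 0 ≤ D * N := by positivity
    rw [Prod.norm_def]
    refine max_le ?_ ?_
    · show ‖w₁ s - w₂ s‖ ≤ _
      linarith
    · show ‖Lx L (γ₁ s) (w₁ s) s - Lx L (γ₂ s) (w₂ s) s‖ ≤ _
      linarith
  have hg := gro hK ht₀ hy hb t ht
  have habs : |t - t₀| ≤ 1 := by
    rw [abs_le]
    constructor
    · linarith [ht.1, ht₀.2]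
    · linarith [ht.2, ht₀.1]
  have hexp : Real.exp ((D + C₀ * (1 + D)) * |t - t₀|) ≤ Real.exp (D + C₀ * (1 + D)) := by
    apply Real.exp_le_exp.2
    have e1 := mul_le_mul_of_nonneg_left habs hK
    linarith
  have hy0 : ‖(γ₁ t₀ - γ₂ t₀, Lv L (γ₁ t₀) (w₁ t₀) t₀ - Lv L (γ₂ t₀) (w₂ t₀) t₀)‖ ≤
      (1 + C₀) * (‖γ₁ t₀ - γ₂ t₀‖ + ‖w₁ t₀ - w₂ t₀‖) := by
    have e1 := (hlip (γ₁ t₀) (γ₂ t₀) (w₁ t₀) (w₂ t₀) t₀ (hw1 t₀ ht₀) (hw2 t₀ ht₀)).1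
    have e2 := norm_nonneg (γ₁ t₀ - γ₂ t₀)
    have e3 := norm_nonneg (w₁ t₀ - w₂ t₀)
    have e4 : 0 ≤ C₀ * (‖γ₁ t₀ - γ₂ t₀‖ + ‖w₁ t₀ - w₂ t₀‖) := by positivity
    rw [Prod.norm_def]
    refine max_le ?_ ?_
    · show ‖γ₁ t₀ - γ₂ t₀‖ ≤ _
      linarith
    · show ‖Lv L (γ₁ t₀) (w₁ t₀) t₀ - Lv L (γ₂ t₀) (w₂ t₀) t₀‖ ≤ _
      linarith
  have hfin := key (γ₁ t) (γ₂ t) (w₁ t) (w₂ t) t (hw1 t ht) (hw2 t ht)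
  have hfst : ‖γ₁ t - γ₂ t‖ ≤ ‖(γ₁ t - γ₂ t, Lv L (γ₁ t) (w₁ t) t - Lv L (γ₂ t) (w₂ t) t)‖ := fst_Cls _ _
  have hD1 : 0 ≤ 1 + D := by linarith
  have hC1 : 0 ≤ 1 + C₀ := by linarith
  calc ‖γ₁ t - γ₂ t‖ + ‖w₁ t - w₂ t‖
      ≤ (1 + D) * ‖(γ₁ t - γ₂ t, Lv L (γ₁ t) (w₁ t) t - Lv L (γ₂ t) (w₂ t) t)‖ := by linarith
    _ ≤ (1 + D) * (‖(γ₁ t₀ - γ₂ t₀, Lv L (γ₁ t₀) (w₁ t₀) t₀ - Lv L (γ₂ t₀) (w₂ t₀) t₀)‖ *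
          Real.exp ((D + C₀ * (1 + D)) * |t - t₀|)) := mul_le_mul_of_nonneg_left hg hD1
    _ ≤ (1 + D) * (((1 + C₀) * (‖γ₁ t₀ - γ₂ t₀‖ + ‖w₁ t₀ - w₂ t₀‖)) * Real.exp (D + C₀ * (1 + D))) := by
        refine mul_le_mul_of_nonneg_left ?_ hD1
        exact mul_le_mul hy0 hexp (Real.exp_pos _).le (by positivity)
    _ = (1 + D) * Real.exp (D + C₀ * (1 + D)) * (1 + C₀) * (‖γ₁ t₀ - γ₂ t₀‖ + ‖w₁ t₀ - w₂ t₀‖) := by ring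

end Pool.Agent.H68.TG
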