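import Pool.Agent.H68.TG.Def
import Pool.Agent.H68.TG.Rg1
import Pool.Agent.H68.HD.AC0

/-!
# Module Ctn: continuation: the velocities stay below ρ
Let `f t = ‖Lv L (δ t) (w t) t‖`, continuous on `[0, 1]`. (i) If `f < P` on `[a, b] ∋ t₀` then `deriv δ = w` a.e. on `[a, b]` (`hmo.small`), so `δ t - δ s = ∫_s^t w`
(`ac_ftc`; Lipschitz) with `w` continuous, so `Elc L δ w a b`, so `‖w‖ ≤ ρ` on `[a, b]` (`hun`), so `f < P` there by `hmom`. (ii) `f t₀ < P` since `‖w t₀‖ ≤ C₁ ≤ ρ`. The set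
of `b ∈ [t₀, 1]` with `f < P` on `[t₀, b]` is closed under limits (at the supremum `‖w‖ ≤ ρ` by continuity, so `f < P`) and open, so it
is `[t₀, 1]`; the same to the left; then (i) with `[a, b] = [0, 1]`.
-/

set_option autoImplicit false

open MeasureTheory Filter
open scoped RealInnerProductSpace Topology

namespace Pool.Agent.H68.TG

open Pool.Agent.H33.AM (E Tor pr IsPeriodic IsEL)
open Pool.Agent.H68.HD
open Pool.Agent.H68.TO (Slow Cst md)

variable {n : ℕ}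

private theorem Ctn_lip {δ : ℝ → E n} {ρs : ℝ} (hρs : 0 ≤ ρs) (hδ : Lip ρs δ) :
    LipschitzWith (Real.toNNReal ρs) δ := by
  refine LipschitzWith.of_dist_le_mul fun x y => ?_
  rw [dist_eq_norm, Real.dist_eq, Real.coe_toNNReal _ hρs]
  exact hδ y x

/-- A Lipschitz curve with momentum smaller than `P` is an Euler-Lagrange curve. -/
private theorem Ctn_elc {L : E n → E n → ℝ → ℝ} {P ρ ρs : ℝ} {δ w : ℝ → E n}
    (hρs : 0 ≤ ρs) (hδ : Lip ρs δ) (hmo : Mo L P ρ δ w) {a b : ℝ} (ha : 0 ≤ a) (hb : b ≤ 1) (hab : a ≤ b)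
    (hf : ∀ t ∈ Set.Icc a b, ‖Lv L (δ t) (w t) t‖ < P) : Elc L δ w a b := by
  have hsub : Set.Icc a b ⊆ Set.Icc (0 : ℝ) 1 := Set.Icc_subset_Icc ha hb
  have hcl : Continuous fun c : ℝ => max a (min c b) := by fun_prop
  have hcm : ∀ c : ℝ, max a (min c b) ∈ Set.Icc a b := fun c =>
    ⟨le_max_left _ _, max_le hab (min_le_right _ _)⟩
  have hce : ∀ c ∈ Set.Icc a b, max a (min c b) = c := fun c hc => by
    rw [min_eq_left hc.2, max_eq_right hc.1]
  have hwt : Continuous fun c : ℝ => w (max a (min c b)) :=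
    (hmo.wc.mono hsub).comp_continuous hcl hcm
  have hG : ∀ u ∈ Set.Icc a b, δ u = δ a + ∫ s in a..u, w (max a (min s b)) := by
    intro u hu
    have h1 : ∫ s in a..u, deriv δ s = δ u - δ a :=
      ac_ftc ((Ctn_lip hρs hδ).lipschitzOnWith.absolutelyContinuousOnInterval)
    have h2 : ∫ s in a..u, deriv δ s = ∫ s in a..u, w (max a (min s b)) := by
      refine intervalIntegral.integral_congr_ae ?_
      filter_upwards [hmo.small] with s hs h3
      rw [Set.uIoc_of_le hu.1] at h3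
      have h4 : s ∈ Set.Icc a b := ⟨h3.1.le, h3.2.trans hu.2⟩
      rw [hs (hsub h4) (hf s h4), hce s h4]
    rw [← h2, h1]
    abel
  refine ⟨hmo.wc.mono hsub, fun t ht => ?_, fun t ht => (hmo.dp t (hsub ht)).mono hsub⟩
  have h1 : HasDerivAt (fun u => δ a + ∫ s in a..u, w (max a (min s b))) (w (max a (min t b))) t :=
    (hwt.integral_hasStrictDerivAt a t).hasDerivAt.const_add _
  rw [hce t ht] at h1
  exact h1.hasDerivWithinAt.congr (fun s hs => hG s hs) (hG t ht)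

theorem ctn {L : E n → E n → ℝ → ℝ} (hL : Ton L) {P ρ C₁ ρs : ℝ} {δ w : ℝ → E n}
    (hρs : 0 ≤ ρs) (hδ : Lip ρs δ) (hmo : Mo L P ρ δ w)
    (hmom : ∀ x v t, ‖v‖ ≤ ρ → ‖Lv L x v t‖ < P) (hun : Un L C₁ ρ) (hC : C₁ ≤ ρ) {t₀ : ℝ}
    (ht₀ : t₀ ∈ Set.Icc (0 : ℝ) 1) (h₀ : ‖w t₀‖ ≤ C₁) :
    ∀ t ∈ Set.Icc (0 : ℝ) 1, ‖w t‖ ≤ ρ := by
  -- (i)
  have h1 : ∀ a b : ℝ, 0 ≤ a → b ≤ 1 → t₀ ∈ Set.Icc a b →
      (∀ t ∈ Set.Icc a b, ‖Lv L (δ t) (w t) t‖ < P) → ∀ t ∈ Set.Icc a b, ‖w t‖ ≤ ρ := by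
    intro a b ha hb ht hf
    exact hun δ w a b t₀ ha hb ht (Ctn_elc hρs hδ hmo ha hb (ht.1.trans ht.2) hf) h₀
  have hδc : Continuous δ := (Ctn_lip hρs hδ).continuous
  have hfc : ContinuousOn (fun t => ‖Lv L (δ t) (w t) t‖) (Set.Icc (0 : ℝ) 1) := by
    have h2 : ContinuousOn (fun t : ℝ => ((δ t, w t, t) : E n × E n × ℝ)) (Set.Icc (0 : ℝ) 1) :=
      hδc.continuousOn.prodMk (hmo.wc.prodMk continuousOn_id)
    exact ((lv_cont hL).comp_continuousOn h2).norm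
  -- (ii)
  have h2 : ∀ t ∈ Set.Icc (0 : ℝ) 1, ‖Lv L (δ t) (w t) t‖ < P := by
    by_contra hne
    push Not at hne
    obtain ⟨t₁, ht₁, ht₁'⟩ := hne
    have hcl : IsClosed (Set.Icc (0 : ℝ) 1 ∩ (fun t => ‖Lv L (δ t) (w t) t‖) ⁻¹' Set.Ici P) :=
      hfc.preimage_isClosed_of_isClosed isClosed_Icc isClosed_Ici
    have hcp : IsCompact (Set.Icc (0 : ℝ) 1 ∩ (fun t => ‖Lv L (δ t) (w t) t‖) ⁻¹' Set.Ici P) :=
      isCompact_Icc.of_isClosed_subset hcl Set.inter_subset_left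
    obtain ⟨s, ⟨hs, hsP⟩, hmin⟩ := hcp.exists_isMinOn ⟨t₁, ht₁, ht₁'⟩
      (f := fun t => |t - t₀|) (by fun_prop)
    have hsP' : P ≤ ‖Lv L (δ s) (w s) s‖ := hsP
    have hst : s ≠ t₀ := by
      rintro rfl
      exact absurd (hmom (δ s) (w s) s (h₀.trans hC)) (not_lt.2 hsP')
    have hr : 0 < |s - t₀| := abs_pos.2 (sub_ne_zero.2 hst)
    -- the points strictly between
    have h3 : ∀ l : ℝ, 0 ≤ l → l < 1 → ‖w (t₀ + l * (s - t₀))‖ ≤ ρ := by
      intro l hl0 hl1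
      obtain ⟨u, hu⟩ : ∃ u, u = t₀ + l * (s - t₀) := ⟨_, rfl⟩
      have hus : |u - t₀| < |s - t₀| := by
        rw [hu, add_sub_cancel_left, abs_mul, abs_of_nonneg hl0]
        nlinarith
      have hu01 : u ∈ Set.Icc (0 : ℝ) 1 := by
        rw [hu]
        constructor
        · nlinarith [ht₀.1, hs.1]
        · nlinarith [ht₀.2, hs.2]
      rw [← hu]
      refine h1 (min t₀ u) (max t₀ u) (le_min ht₀.1 hu01.1) (max_le ht₀.2 hu01.2)
        ⟨min_le_left _ _, le_max_left _ _⟩ (fun t ht => ?_) u ⟨min_le_right _ _, le_max_right _ _⟩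
      by_contra hcon
      have hcon' : P ≤ ‖Lv L (δ t) (w t) t‖ := not_lt.1 hcon
      have ht01 : t ∈ Set.Icc (0 : ℝ) 1 := ⟨(le_min ht₀.1 hu01.1).trans ht.1, ht.2.trans (max_le ht₀.2 hu01.2)⟩
      have h4 : |s - t₀| ≤ |t - t₀| := hmin ⟨ht01, hcon'⟩
      have h5 : |t - t₀| ≤ |u - t₀| := by
        rcases le_total t₀ u with h6 | h6
        · rw [min_eq_left h6, max_eq_right h6] at ht
          rw [abs_of_nonneg (by linarith [ht.1]), abs_of_nonneg (by linarith)]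
          linarith [ht.2]
        · rw [min_eq_right h6, max_eq_left h6] at ht
          rw [abs_of_nonpos (by linarith [ht.2]), abs_of_nonpos (by linarith)]
          linarith [ht.1]
      linarith
    have h4 : ‖w s‖ ≤ ρ := by
      have h5 : ContinuousWithinAt (fun l : ℝ => ‖w (t₀ + l * (s - t₀))‖) (Set.Icc (0 : ℝ) 1) 1 := by
        have h6 : ContinuousOn (fun l : ℝ => ‖w (t₀ + l * (s - t₀))‖) (Set.Icc (0 : ℝ) 1) := by
          refine (hmo.wc.comp (f := fun l : ℝ => t₀ + l * (s - t₀)) (by fun_prop) fun l hl => ?_).norm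
          constructor
          · nlinarith [ht₀.1, hs.1, hl.1, hl.2]
          · nlinarith [ht₀.2, hs.2, hl.1, hl.2]
        exact h6 1 (Set.right_mem_Icc.2 zero_le_one)
      have h7 : Tendsto (fun l : ℝ => ‖w (t₀ + l * (s - t₀))‖) (𝓝[Set.Ico 0 1] 1)
          (𝓝 ‖w (t₀ + 1 * (s - t₀))‖) :=
        h5.mono_left (nhdsWithin_mono _ Set.Ico_subset_Icc_self)
      rw [one_mul, add_sub_cancel] at h7
      have h8 : (𝓝[Set.Ico (0 : ℝ) 1] 1).NeBot := by
        rw [← mem_closure_iff_nhdsWithin_neBot, closure_Ico zero_ne_one]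
        exact Set.right_mem_Icc.2 zero_le_one
      refine le_of_tendsto h7 ?_
      filter_upwards [self_mem_nhdsWithin] with l hl
      exact h3 l hl.1 hl.2
    exact absurd (hmom (δ s) (w s) s h4) (not_lt.2 hsP')
  exact h1 0 1 le_rfl le_rfl ht₀ h2

end Pool.Agent.H68.TG
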