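import Pool.Agent.H68.TG.Def
import Pool.Agent.H68.TG.Rg1
import Pool.Agent.H68.TG.Rg2
import Pool.Agent.H68.TO.Bd

/-!
# Module La: the auxiliary Lagrangian: minimizers, upper bound, periodicity
`Qf ≥ 0` is continuous, `L ≥ -b` (`hL.sup 0`), so the infimum is over a set bounded below; `w ↦ L x w t + Qf (v - w)` is continuous
and tends to infinity (`hL.sup 1`), so a minimizer exists (`Continuous.exists_forall_le`). `mi_bd`: `Qf` is `(P + S)`-Lipschitz, so
`L(w) + Q(v - w) ≤ L(0) + Q(v)` gives `L(w) ≤ L(0) + (P + S)‖w‖`; `hL.sup (P + S + 1)` and a bound `A` of `L(·, 0, ·)` (`TO.bd`).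
-/

set_option autoImplicit false

open MeasureTheory Filter
open scoped RealInnerProductSpace Topology

namespace Pool.Agent.H68.TG

open Pool.Agent.H33.AM (E Tor pr IsPeriodic IsEL)
open Pool.Agent.H68.HD
open Pool.Agent.H68.TO (Slow Cst md)

variable {n : ℕ}

private theorem La_qf_nonneg {P S : ℝ} (hP : 0 ≤ P) (hS : 0 ≤ S) (U : ℝ) (u : E n) :
    0 ≤ Qf P S U u := by
  have h1 : 0 ≤ max (‖u‖ - U) 0 := le_max_right _ _
  unfold Qf
  positivity

private theorem La_qf_cont (P S U : ℝ) (v : E n) : Continuous fun w : E n => Qf P S U (v - w) := by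
  unfold Qf
  fun_prop

private theorem La_bdd {L : E n → E n → ℝ → ℝ} (hL : Ton L) {P S : ℝ} (hP : 0 ≤ P) (hS : 0 ≤ S)
    (U : ℝ) (x v : E n) (t : ℝ) :
    BddBelow (Set.range fun w : E n => L x w t + Qf P S U (v - w)) := by
  obtain ⟨b, hb⟩ := hL.sup 0
  refine ⟨-b, ?_⟩
  rintro _ ⟨w, rfl⟩
  have h1 := hb x w t
  have h2 := La_qf_nonneg hP hS U (v - w)
  rw [zero_mul, zero_sub] at h1
  show -b ≤ L x w t + Qf P S U (v - w)
  linarith

theorem ls_le {L : E n → E n → ℝ → ℝ} (hL : Ton L) {P S : ℝ} (hP : 0 ≤ P) (hS : 0 ≤ S) (U : ℝ)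
    (x v w : E n) (t : ℝ) : Ls L P S U x v t ≤ L x w t + Qf P S U (v - w) := by
  exact ciInf_le (La_bdd hL hP hS U x v t) w

theorem ls_at {L : E n → E n → ℝ → ℝ} (hL : Ton L) {P S : ℝ} (hP : 0 ≤ P) (hS : 0 ≤ S) (U : ℝ)
    (x v : E n) (t : ℝ) : ∃ w, Mi L P S U x v t w := by
  have hc : Continuous fun w : E n => L x w t + Qf P S U (v - w) := by
    have h1 : Continuous fun w : E n => L x w t :=
      hL.smooth.continuous.comp (by fun_prop : Continuous fun w : E n => (x, w, t))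
    exact h1.add (La_qf_cont P S U v)
  obtain ⟨b, hb⟩ := hL.sup 1
  have hlim : Tendsto (fun w : E n => L x w t + Qf P S U (v - w)) (cocompact (E n)) atTop := by
    refine tendsto_atTop_mono (fun w => ?_)
      (tendsto_atTop_add_const_right _ (-b) (tendsto_norm_cocompact_atTop (E := E n)))
    have h1 := hb x w t
    have h2 := La_qf_nonneg hP hS U (v - w)
    show ‖w‖ + -b ≤ L x w t + Qf P S U (v - w)
    linarith
  obtain ⟨w, hw⟩ := hc.exists_forall_le hlim
  exact ⟨w, le_antisymm (ls_le hL hP hS U x v w t) (le_ciInf hw)⟩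

theorem ls_le_l {L : E n → E n → ℝ → ℝ} (hL : Ton L) {P S U : ℝ} (hP : 0 ≤ P) (hS : 0 ≤ S)
    (hU : 0 ≤ U) (x v : E n) (t : ℝ) : Ls L P S U x v t ≤ L x v t := by
  have h := ls_le hL hP hS U x v v t
  have h0 : Qf P S U (v - v) = 0 := by
    unfold Qf
    rw [sub_self, norm_zero, max_eq_right (by linarith)]
    ring
  rw [h0, add_zero] at h
  exact h

theorem ls_per {L : E n → E n → ℝ → ℝ} (hL : Ton L) (P S U : ℝ) : IsPeriodic (Ls L P S U) := by
  intro x y v s t hxy hst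
  unfold Ls
  exact iInf_congr fun w => by rw [hL.per x y w s t hxy hst]

theorem qf_lip {P S : ℝ} (hP : 0 ≤ P) (hS : 0 ≤ S) (U : ℝ) (u u' : E n) :
    Qf P S U u ≤ Qf P S U u' + (P + S) * ‖u - u'‖ := by
  have h1 : ‖u‖ ≤ ‖u'‖ + ‖u - u'‖ := by
    have := norm_add_le u' (u - u')
    rwa [add_sub_cancel] at this
  have h2 : max (‖u‖ - U) 0 ≤ max (‖u'‖ - U) 0 + ‖u - u'‖ := by
    refine max_le ?_ ?_
    · have := le_max_left (‖u'‖ - U) 0
      linarith
    · have := le_max_right (‖u'‖ - U) 0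
      have := norm_nonneg (u - u')
      linarith
  have h3 := mul_le_mul_of_nonneg_left h1 hP
  have h4 := mul_le_mul_of_nonneg_left h2 hS
  unfold Qf
  linarith

theorem mi_bd {L : E n → E n → ℝ → ℝ} (hL : Ton L) {P S : ℝ} (hP : 0 ≤ P) (hS : 0 ≤ S) (U : ℝ) :
    ∃ W : ℝ, ∀ x v t w, Mi L P S U x v t w → ‖w‖ ≤ W := by
  obtain ⟨b, hb⟩ := hL.sup (P + S + 1)
  obtain ⟨A, -, hA⟩ := Pool.Agent.H68.TO.bd hL.per hL.smooth.continuous 0
  refine ⟨A + b, fun x v t w hw => ?_⟩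
  have h1 := ls_le hL hP hS U x v 0 t
  rw [show Ls L P S U x v t = L x w t + Qf P S U (v - w) from hw] at h1
  have h2 := qf_lip hP hS U (v - 0) (v - w)
  have h3 : ‖v - 0 - (v - w)‖ = ‖w‖ := by
    congr 1
    abel
  rw [h3] at h2
  have h4 := hb x w t
  have h5 := (abs_le.1 (hA x 0 t (by rw [norm_zero]))).2
  linarith

end Pool.Agent.H68.TG
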