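import Pool.Agent.H68.TG.Def
import Pool.Agent.H68.TG.La

/-!
# Module Lb: continuity of the auxiliary Lagrangian
By `mi_bd` the infimum is attained in the fixed compact ball `closedBall 0 W` (`W ≥ 0`), so `Ls` is the `sInf` of the image of this ball
under a jointly continuous function: `IsCompact.continuous_sInf`. (Or directly: at `z₀`, upper and lower estimates.)
-/

set_option autoImplicit false

open MeasureTheory Filter
open scoped RealInnerProductSpace Topology

namespace Pool.Agent.H68.TG

open Pool.Agent.H33.AM (E Tor pr IsPeriodic IsEL)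
open Pool.Agent.H68.HD
open Pool.Agent.H68.TO (Slow Cst md)

variable {n : ℕ}

theorem ls_cont {L : E n → E n → ℝ → ℝ} (hL : Ton L) {P S : ℝ} (hP : 0 ≤ P) (hS : 0 ≤ S) (U : ℝ) :
    Continuous fun z : E n × E n × ℝ => Ls L P S U z.1 z.2.1 z.2.2 := by
  obtain ⟨W, hW⟩ := mi_bd hL hP hS U
  have hf : Continuous (Function.uncurry fun (z : E n × E n × ℝ) (w : E n) =>
      L z.1 w z.2.2 + Qf P S U (z.2.1 - w)) := by
    have h1 : Continuous fun q : (E n × E n × ℝ) × E n => L q.1.1 q.2 q.1.2.2 :=
      hL.smooth.continuous.comp (f := fun q : (E n × E n × ℝ) × E n => (q.1.1, q.2, q.1.2.2))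
        (by fun_prop)
    have h2 : Continuous fun q : (E n × E n × ℝ) × E n => Qf P S U (q.1.2.1 - q.2) := by
      unfold Qf
      fun_prop
    exact h1.add h2
  have h := (isCompact_closedBall (0 : E n) (max W 0)).continuous_sInf
    (f := fun (z : E n × E n × ℝ) (w : E n) => L z.1 w z.2.2 + Qf P S U (z.2.1 - w)) hf
  have he : (fun z : E n × E n × ℝ => Ls L P S U z.1 z.2.1 z.2.2) = fun z : E n × E n × ℝ =>
      sInf ((fun w : E n => L z.1 w z.2.2 + Qf P S U (z.2.1 - w)) '' Metric.closedBall (0 : E n) (max W 0)) := by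
    funext z
    symm
    apply IsLeast.csInf_eq
    constructor
    · obtain ⟨w, hw⟩ := ls_at hL hP hS U z.1 z.2.1 z.2.2
      refine ⟨w, ?_, hw.symm⟩
      rw [mem_closedBall_zero_iff]
      exact (hW _ _ _ _ hw).trans (le_max_left _ _)
    · rintro _ ⟨w, -, rfl⟩
      exact ls_le hL hP hS U z.1 z.2.1 w z.2.2
  rw [he]
  exact h

end Pool.Agent.H68.TG
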