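import Pool.Agent.H68.TG.Def
import Pool.Agent.H68.TG.La
import Pool.Agent.H68.TG.Lb
import Pool.Agent.H68.TG.Rg1
import Pool.Agent.H68.TG.Rg2
import Pool.Agent.H68.TO.LpI
import Pool.Agent.H68.HD.AC0

/-!
# Module Db1: the first variation, only w is varied
`φ t = ∫_0^t ψ` is `N`-Lipschitz, `φ 0 = φ 1 = 0`, `φ' = ψ` a.e. (Lebesgue). For real `s`: `δ + s φ` is Lipschitz with the same end points and derivative
`δ' + s ψ` a.e., and `Ls(δ + s φ, δ' + s ψ, t) ≤ L(δ + s φ, w + s ψ, t) + Qf(δ' - w)` (`ls_le`), equality at `s = 0` (`hmi`). So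
`A(s) = ∫ (L(δ + s φ, w + s ψ, t) + Qf(δ' - w)) dt ≥ A(0)`. `A` is differentiable at `0` with the derivative in the statement
(`hasDerivAt_integral_of_dominated_loc_of_deriv_le`, `ltot`; everything is bounded for `|s| ≤ 1`, `t ∈ [0, 1]` by continuity on compact sets), so
it is `0` (`IsLocalMin.hasDerivAt_eq_zero`).
-/

set_option autoImplicit false

open MeasureTheory Filter
open scoped RealInnerProductSpace Topology

namespace Pool.Agent.H68.TG

open Pool.Agent.H33.AM (E Tor pr IsPeriodic IsEL)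
open Pool.Agent.H68.HD
open Pool.Agent.H68.TO (Slow Cst md)

variable {n : ℕ}

private theorem db1_ii {f : ℝ → E n} {N : ℝ} (hf : Measurable f) (hfb : ∀ t, ‖f t‖ ≤ N) (a b : ℝ) :
    IntervalIntegrable f volume a b :=
  (intervalIntegrable_const (c := N)).mono_fun' hf.aestronglyMeasurable
    (Eventually.of_forall fun t => hfb t)

private theorem db1_qf (P S U : ℝ) : Continuous (Qf P S U : E n → ℝ) := by
  unfold Qf
  fun_prop

/-- a measurable function with bounded values is integrable -/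
private theorem db1_bd {f : ℝ → ℝ} {C : ℝ} (hf : Measurable f) (hfb : ∀ t ∈ Set.Icc (0 : ℝ) 1, ‖f t‖ ≤ C) :
    IntervalIntegrable f volume 0 1 := by
  rw [intervalIntegrable_iff_integrableOn_Icc_of_le zero_le_one]
  refine Measure.integrableOn_of_bounded (M := C) (by simp) hf.aestronglyMeasurable ?_
  rw [ae_restrict_iff' measurableSet_Icc]
  exact Eventually.of_forall hfb

/-- a continuous function is bounded on bounded sets -/
private theorem db1_cpt {F : Type*} [NormedAddCommGroup F] {g : E n × E n × ℝ → F} (hg : Continuous g)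
    (R R' : ℝ) : ∃ C : ℝ, 0 ≤ C ∧ ∀ (x v : E n) (t : ℝ), ‖x‖ ≤ R → ‖v‖ ≤ R' → t ∈ Set.Icc (0 : ℝ) 1 →
      ‖g (x, v, t)‖ ≤ C := by
  have hK : IsCompact ((Metric.closedBall (0 : E n) R) ×ˢ (Metric.closedBall (0 : E n) R' ×ˢ
      Set.Icc (0 : ℝ) 1)) :=
    (isCompact_closedBall _ _).prod ((isCompact_closedBall _ _).prod isCompact_Icc)
  obtain ⟨C, hC⟩ := hK.exists_bound_of_continuousOn hg.continuousOn
  refine ⟨max C 0, le_max_right _ _, fun x v t hx hv ht => (hC (x, v, t) ⟨?_, ?_, ht⟩).trans (le_max_left _ _)⟩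
  · rw [Metric.mem_closedBall, dist_zero_right]
    exact hx
  · rw [Metric.mem_closedBall, dist_zero_right]
    exact hv

theorem db1 {L : E n → E n → ℝ → ℝ} (hL : Ton L) {P S U : ℝ} (hP : 0 ≤ P) (hS : 0 ≤ S)
    {δ w : ℝ → E n} {ρs W : ℝ} (hρs : 0 ≤ ρs) (hδ : Lip ρs δ) (hw : Measurable w)
    (hwb : ∀ t, ‖w t‖ ≤ W) (hmi : ∀ t, Mi L P S U (δ t) (deriv δ t) t (w t))
    (hmin : ∀ (η : ℝ → E n) (ρ' : ℝ), 0 ≤ ρ' → Lip ρ' η → η 0 = δ 0 → η 1 = δ 1 →
      ∫ t in (0 : ℝ)..1, Ls L P S U (δ t) (deriv δ t) t ≤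
        ∫ t in (0 : ℝ)..1, Ls L P S U (η t) (deriv η t) t)
    {ψ : ℝ → E n} {N : ℝ} (hψ : Measurable ψ) (hψb : ∀ t, ‖ψ t‖ ≤ N)
    (h0 : ∫ t in (0 : ℝ)..1, ψ t = 0) :
    ∫ t in (0 : ℝ)..1, (⟪Lx L (δ t) (w t) t, ∫ s in (0 : ℝ)..t, ψ s⟫ +
      ⟪Lv L (δ t) (w t) t, ψ t⟫) = 0 := by
  have hN : 0 ≤ N := (norm_nonneg _).trans (hψb 0)
  obtain ⟨φ, hφ⟩ : ∃ φ : ℝ → E n, φ = fun t => ∫ s in (0 : ℝ)..t, ψ s := ⟨_, rfl⟩
  have hφa : ∀ t, φ t = ∫ s in (0 : ℝ)..t, ψ s := fun t => by rw [hφ]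
  have hφl : Lip N φ := by
    intro s t
    rw [hφa, hφa, intervalIntegral.integral_interval_sub_left (db1_ii hψ hψb 0 t) (db1_ii hψ hψb 0 s)]
    exact intervalIntegral.norm_integral_le_of_norm_le_const fun x _ => hψb x
  have hφ0 : φ 0 = 0 := by rw [hφa, intervalIntegral.integral_same]
  have hφ1 : φ 1 = 0 := by rw [hφa, h0]
  have hφb : ∀ t ∈ Set.Icc (0 : ℝ) 1, ‖φ t‖ ≤ N := by
    intro t ht
    have h1 := hφl 0 t
    rw [hφ0, sub_zero, sub_zero, abs_of_nonneg ht.1] at h1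
    exact h1.trans (mul_le_of_le_one_right hN ht.2)
  have hδb : ∀ t ∈ Set.Icc (0 : ℝ) 1, ‖δ t‖ ≤ ‖δ 0‖ + ρs := by
    intro t ht
    have h1 := hδ 0 t
    rw [sub_zero, abs_of_nonneg ht.1] at h1
    have h2 : ‖δ t‖ ≤ ‖δ 0‖ + ‖δ t - δ 0‖ := by
      have h3 : δ t = δ 0 + (δ t - δ 0) := by abel
      calc ‖δ t‖ = ‖δ 0 + (δ t - δ 0)‖ := by rw [← h3]
        _ ≤ _ := norm_add_le _ _
    have h4 : ρs * t ≤ ρs := mul_le_of_le_one_right hρs ht.2
    linarith
  have hδc : Continuous δ := by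
    have h1 : LipschitzWith ⟨ρs, hρs⟩ δ := by
      refine LipschitzWith.of_dist_le_mul fun x y => ?_
      rw [dist_eq_norm, Real.dist_eq]
      exact hδ y x
    exact h1.continuous
  have hφc : Continuous φ := by
    have h1 : LipschitzWith ⟨N, hN⟩ φ := by
      refine LipschitzWith.of_dist_le_mul fun x y => ?_
      rw [dist_eq_norm, Real.dist_eq]
      exact hφl y x
    exact h1.continuous
  have hdb : ∀ t, ‖deriv δ t‖ ≤ ρs := fun t => TO.lpi_deriv hρs hδ t
  -- the curves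
  obtain ⟨η, hη⟩ : ∃ η : ℝ → ℝ → E n, η = fun s t => δ t + s • φ t := ⟨_, rfl⟩
  have hηa : ∀ s t, η s t = δ t + s • φ t := fun s t => by rw [hη]
  have hηl : ∀ s, Lip (ρs + |s| * N) (η s) := by
    intro s u t
    rw [hηa, hηa]
    have h1 : δ t + s • φ t - (δ u + s • φ u) = (δ t - δ u) + s • (φ t - φ u) := by
      rw [smul_sub]
      abel
    rw [h1]
    refine (norm_add_le _ _).trans ?_
    rw [norm_smul, Real.norm_eq_abs, add_mul, mul_assoc]
    exact add_le_add (hδ u t) (mul_le_mul_of_nonneg_left (hφl u t) (abs_nonneg s))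
  have hηρ : ∀ s : ℝ, 0 ≤ ρs + |s| * N := fun s => by positivity
  have hη0 : ∀ s, η s 0 = δ 0 := fun s => by rw [hηa, hφ0, smul_zero, add_zero]
  have hη1 : ∀ s, η s 1 = δ 1 := fun s => by rw [hηa, hφ1, smul_zero, add_zero]
  have hac : AbsolutelyContinuousOnInterval δ 0 1 := by
    have h1 : LipschitzWith ⟨ρs, hρs⟩ δ := by
      refine LipschitzWith.of_dist_le_mul fun x y => ?_
      rw [dist_eq_norm, Real.dist_eq]
      exact hδ y x
    exact h1.lipschitzOnWith.absolutelyContinuousOnInterval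
  have hηd : ∀ s, ∀ᵐ t : ℝ, t ∈ Set.uIcc (0 : ℝ) 1 → deriv (η s) t = deriv δ t + s • ψ t := by
    intro s
    filter_upwards [ac_diff hac, (db1_ii hψ hψb 0 1).ae_hasDerivAt_integral] with t h1 h2 ht
    have h3 : HasDerivAt φ (ψ t) t := by
      rw [hφ]
      exact h2 ht 0 Set.left_mem_uIcc
    have h4 := (h1 ht).hasDerivAt.add (h3.const_smul s)
    have h5 : η s = δ + s • φ := by
      rw [hη]
      rfl
    rw [h5]
    exact h4.deriv
  -- the integrand
  obtain ⟨F, hF⟩ : ∃ F : ℝ → ℝ → ℝ, F = fun s t =>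
      L (δ t + s • φ t) (w t + s • ψ t) t + Qf P S U (deriv δ t - w t) := ⟨_, rfl⟩
  have hFa : ∀ s t, F s t = L (δ t + s • φ t) (w t + s • ψ t) t + Qf P S U (deriv δ t - w t) :=
    fun s t => by rw [hF]
  have hz : ∀ s : ℝ, Measurable fun t : ℝ => ((δ t + s • φ t, w t + s • ψ t, t) : E n × E n × ℝ) := by
    intro s
    exact (hδc.measurable.add (hφc.measurable.const_smul s)).prodMk
      ((hw.add (hψ.const_smul s)).prodMk measurable_id)
  have hFm : ∀ s, Measurable (F s) := by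
    intro s
    rw [hF]
    exact ((hL.smooth.continuous.measurable.comp (hz s))).add
      ((db1_qf P S U).measurable.comp ((measurable_deriv δ).sub hw))
  have hxb : ∀ s : ℝ, ∀ t ∈ Set.Icc (0 : ℝ) 1, ‖δ t + s • φ t‖ ≤ ‖δ 0‖ + ρs + |s| * N := by
    intro s t ht
    refine (norm_add_le _ _).trans (add_le_add (hδb t ht) ?_)
    rw [norm_smul, Real.norm_eq_abs]
    exact mul_le_mul_of_nonneg_left (hφb t ht) (abs_nonneg s)
  have hvb : ∀ s : ℝ, ∀ t, ‖w t + s • ψ t‖ ≤ W + |s| * N := by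
    intro s t
    refine (norm_add_le _ _).trans (add_le_add (hwb t) ?_)
    rw [norm_smul, Real.norm_eq_abs]
    exact mul_le_mul_of_nonneg_left (hψb t) (abs_nonneg s)
  have hFi : ∀ s, IntervalIntegrable (F s) volume 0 1 := by
    intro s
    obtain ⟨C, -, hC⟩ := db1_cpt hL.smooth.continuous (‖δ 0‖ + ρs + |s| * N) (W + |s| * N)
    obtain ⟨C', -, hC'⟩ := db1_cpt (n := n) ((db1_qf P S U).comp (continuous_fst)) (ρs + W) 0
    refine db1_bd (C := C + C') (hFm s) fun t ht => ?_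
    rw [hFa]
    refine (norm_add_le _ _).trans (add_le_add ?_ ?_)
    · exact hC _ _ t (hxb s t ht) (hvb s t) ht
    · exact hC' (deriv δ t - w t) 0 t ((norm_sub_le _ _).trans (add_le_add (hdb t) (hwb t)))
        (by rw [norm_zero]) ht
  have hA0 : ∫ t in (0 : ℝ)..1, F 0 t = ∫ t in (0 : ℝ)..1, Ls L P S U (δ t) (deriv δ t) t := by
    refine intervalIntegral.integral_congr fun t _ => ?_
    show F 0 t = Ls L P S U (δ t) (deriv δ t) t
    rw [hFa, zero_smul, zero_smul, add_zero, add_zero]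
    exact (hmi t).symm
  have hAs : ∀ s, ∫ t in (0 : ℝ)..1, Ls L P S U (η s t) (deriv (η s) t) t ≤ ∫ t in (0 : ℝ)..1, F s t := by
    intro s
    refine intervalIntegral.integral_mono_ae_restrict zero_le_one
      (TO.lpi_int (ls_cont hL hP hS U) (hηρ s) (hηl s)) (hFi s) ?_
    rw [Filter.EventuallyLE, ae_restrict_iff' measurableSet_Icc]
    filter_upwards [hηd s] with t ht htm
    rw [ht (by rw [Set.uIcc_of_le zero_le_one]; exact htm), hFa, hηa]
    have h1 := ls_le hL hP hS U (δ t + s • φ t) (deriv δ t + s • ψ t) (w t + s • ψ t) t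
    have h2 : deriv δ t + s • ψ t - (w t + s • ψ t) = deriv δ t - w t := by abel
    rw [h2] at h1
    exact h1
  have hminA : IsLocalMin (fun s => ∫ t in (0 : ℝ)..1, F s t) 0 := by
    refine Eventually.of_forall fun s => ?_
    show ∫ t in (0 : ℝ)..1, F 0 t ≤ ∫ t in (0 : ℝ)..1, F s t
    rw [hA0]
    exact (hmin (η s) _ (hηρ s) (hηl s) (hη0 s) (hη1 s)).trans (hAs s)
  -- the derivative
  obtain ⟨G, hG⟩ : ∃ G : ℝ → ℝ → ℝ, G = fun s t =>
      ⟪Lx L (δ t + s • φ t) (w t + s • ψ t) t, φ t⟫ + ⟪Lv L (δ t + s • φ t) (w t + s • ψ t) t, ψ t⟫ :=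
    ⟨_, rfl⟩
  obtain ⟨CX, hCX0, hCX⟩ := db1_cpt (lx_cont hL) (‖δ 0‖ + ρs + N) (W + N)
  obtain ⟨CV, hCV0, hCV⟩ := db1_cpt (lv_cont hL) (‖δ 0‖ + ρs + N) (W + N)
  have hder := intervalIntegral.hasDerivAt_integral_of_dominated_loc_of_deriv_le (μ := volume)
    (a := 0) (b := 1) (F := F) (F' := G) (x₀ := 0) (s := Metric.ball 0 1)
    (bound := fun _ => CX * N + CV * N) (Metric.ball_mem_nhds 0 one_pos)
    (Eventually.of_forall fun s => (hFm s).aestronglyMeasurable) (hFi 0)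
    (by
      rw [hG]
      exact ((((lx_cont hL).measurable.comp (hz 0)).inner hφc.measurable).add
        (((lv_cont hL).measurable.comp (hz 0)).inner hψ)).aestronglyMeasurable)
    (by
      refine Eventually.of_forall fun t ht s hs => ?_
      have ht' : t ∈ Set.Icc (0 : ℝ) 1 := by
        rw [Set.uIoc_of_le zero_le_one] at ht
        exact ⟨ht.1.le, ht.2⟩
      have hs' : |s| ≤ 1 := by
        rw [Metric.mem_ball, dist_zero_right, Real.norm_eq_abs] at hs
        exact hs.le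
      have h1 : |s| * N ≤ N := mul_le_of_le_one_left hN hs'
      have h2 := (hxb s t ht').trans (add_le_add_right h1 (‖δ 0‖ + ρs))
      have h3 := (hvb s t).trans (add_le_add_right h1 W)
      rw [hG]
      refine (norm_add_le _ _).trans (add_le_add ?_ ?_)
      · exact (norm_inner_le_norm _ _).trans
          (mul_le_mul (hCX _ _ t h2 h3 ht') (hφb t ht') (norm_nonneg _) hCX0)
      · exact (norm_inner_le_norm _ _).trans
          (mul_le_mul (hCV _ _ t h2 h3 ht') (hψb t) (norm_nonneg _) hCV0))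
    intervalIntegrable_const
    (by
      refine Eventually.of_forall fun t _ s _ => ?_
      rw [hF, hG]
      exact (ltot hL (δ t) (w t) (φ t) (ψ t) t s).add_const _)
  have h1 := hminA.hasDerivAt_eq_zero hder.2
  refine (intervalIntegral.integral_congr fun t _ => ?_).trans h1
  show ⟪Lx L (δ t) (w t) t, ∫ s in (0 : ℝ)..t, ψ s⟫ + ⟪Lv L (δ t) (w t) t, ψ t⟫ = G 0 t
  rw [hG, ← hφa]
  simp only [zero_smul, add_zero]

end Pool.Agent.H68.TG
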