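import Pool.Agent.H68.TG.Def

/-!
# Module Db2: the lemma of du Bois-Reymond
`G t = ∫_0^t g`, `φ t = ∫_0^t ψ` with `φ 1 = 0`: `∫_0^1 ⟪g, φ⟫ = -∫_0^1 ⟪G, ψ⟫` (integration by parts for absolutely continuous functions, or
Fubini on the triangle, componentwise). So `∫ ⟪f - G, ψ⟫ = 0`; `q = ∫_0^1 (f - G)`, `ψ = (f - G - q)` on `[0, 1]`, `0` outside: `∫ ‖ψ‖² = 0`.
-/

set_option autoImplicit false

open MeasureTheory Filter
open scoped RealInnerProductSpace Topology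

namespace Pool.Agent.H68.TG

open Pool.Agent.H33.AM (E Tor pr IsPeriodic IsEL)
open Pool.Agent.H68.HD
open Pool.Agent.H68.TO (Slow Cst md)

variable {n : ℕ}

private lemma db2_int {μ : Measure ℝ} [IsFiniteMeasure μ] {u : ℝ → E n} (hu : Measurable u) {N : ℝ}
    (hN : ∀ t, ‖u t‖ ≤ N) : Integrable u μ :=
  Integrable.of_bound hu.aestronglyMeasurable N (Filter.Eventually.of_forall hN)

private lemma db2_ii {u : ℝ → E n} (hu : Measurable u) {N : ℝ} (hN : ∀ t, ‖u t‖ ≤ N) (a b : ℝ) :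
    IntervalIntegrable u volume a b :=
  ⟨db2_int hu hN, db2_int hu hN⟩

private lemma db2_fub {g ψ : ℝ → E n} (hg : Measurable g) (hψ : Measurable ψ) {N M : ℝ}
    (hN : ∀ t, ‖g t‖ ≤ N) (hM : ∀ t, ‖ψ t‖ ≤ M) :
    ∫ t in (0 : ℝ)..1, ⟪g t, ∫ s in (0 : ℝ)..t, ψ s⟫ =
      ∫ s in (0 : ℝ)..1, ⟪∫ t in s..1, g t, ψ s⟫ := by
  have hN0 : 0 ≤ N := le_trans (norm_nonneg _) (hN 0)
  have hM0 : 0 ≤ M := le_trans (norm_nonneg _) (hM 0)
  set μ : Measure ℝ := volume.restrict (Set.Ioc 0 1) with hμ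
  set F : ℝ → ℝ → ℝ := fun t s => if s ≤ t then ⟪g t, ψ s⟫ else 0 with hF
  have hFm : Measurable (Function.uncurry F) := by
    have h1 : Measurable fun z : ℝ × ℝ => ⟪g z.1, ψ z.2⟫ :=
      (hg.comp measurable_fst).inner (hψ.comp measurable_snd)
    exact Measurable.ite (measurableSet_le measurable_snd measurable_fst) h1 measurable_const
  have hFb : ∀ z : ℝ × ℝ, ‖Function.uncurry F z‖ ≤ N * M := by
    rintro ⟨t, s⟩
    simp only [Function.uncurry, hF]
    split_ifs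
    · exact (norm_inner_le_norm _ _).trans
        (mul_le_mul (hN _) (hM _) (norm_nonneg _) hN0)
    · simpa using mul_nonneg hN0 hM0
  have hFi : Integrable (Function.uncurry F) (μ.prod μ) :=
    Integrable.of_bound hFm.aestronglyMeasurable (N * M) (Filter.Eventually.of_forall hFb)
  have hsw := integral_integral_swap hFi
  rw [intervalIntegral.integral_of_le zero_le_one, intervalIntegral.integral_of_le zero_le_one]
  have e1 : ∫ t in Set.Ioc (0 : ℝ) 1, ⟪g t, ∫ s in (0 : ℝ)..t, ψ s⟫ = ∫ t, ∫ s, F t s ∂μ ∂μ := by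
    refine setIntegral_congr_fun measurableSet_Ioc fun t ht => ?_
    rw [intervalIntegral.integral_of_le ht.1.le, ← integral_inner (db2_int hψ hM) (g t)]
    have : ∀ s, F t s = (Set.Iic t).indicator (fun s => ⟪g t, ψ s⟫) s := by
      intro s
      simp only [hF, Set.indicator, Set.mem_Iic]
    simp_rw [this]
    rw [integral_indicator measurableSet_Iic, hμ, Measure.restrict_restrict measurableSet_Iic]
    have hset : Set.Iic t ∩ Set.Ioc 0 1 = Set.Ioc 0 t := by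
      ext s
      simp only [Set.mem_inter_iff, Set.mem_Iic, Set.mem_Ioc]
      constructor
      · rintro ⟨h1, h2, _⟩
        exact ⟨h2, h1⟩
      · rintro ⟨h1, h2⟩
        exact ⟨h2, h1, h2.trans ht.2⟩
    rw [hset]
  have e2 : ∫ s in Set.Ioc (0 : ℝ) 1, ⟪∫ t in s..1, g t, ψ s⟫ = ∫ s, ∫ t, F t s ∂μ ∂μ := by
    refine setIntegral_congr_fun measurableSet_Ioc fun s hs => ?_
    rw [real_inner_comm, intervalIntegral.integral_of_le hs.2,
      ← integral_inner (db2_int hg hN) (ψ s)]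
    have : ∀ t, F t s = (Set.Ici s).indicator (fun t => ⟪ψ s, g t⟫) t := by
      intro t
      simp only [hF, Set.indicator, Set.mem_Ici]
      rw [real_inner_comm]
    simp_rw [this]
    rw [integral_indicator measurableSet_Ici, hμ, Measure.restrict_restrict measurableSet_Ici]
    have hset : Set.Ici s ∩ Set.Ioc 0 1 = Set.Icc s 1 := by
      ext t
      simp only [Set.mem_inter_iff, Set.mem_Ici, Set.mem_Ioc, Set.mem_Icc]
      constructor
      · rintro ⟨h1, _, h3⟩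
        exact ⟨h1, h3⟩
      · rintro ⟨h1, h2⟩
        exact ⟨h1, hs.1.trans_le h1, h2⟩
    rw [hset, integral_Icc_eq_integral_Ioc]
  rw [e1, e2]
  exact hsw

theorem db2 {f g : ℝ → E n} (hf : Measurable f) (hg : Measurable g) {N : ℝ}
    (hfb : ∀ t ∈ Set.Icc (0 : ℝ) 1, ‖f t‖ ≤ N) (hgb : ∀ t ∈ Set.Icc (0 : ℝ) 1, ‖g t‖ ≤ N)
    (h : ∀ ψ : ℝ → E n, Measurable ψ → (∃ N' : ℝ, ∀ t, ‖ψ t‖ ≤ N') →
      ∫ t in (0 : ℝ)..1, ψ t = 0 →
      ∫ t in (0 : ℝ)..1, (⟪g t, ∫ s in (0 : ℝ)..t, ψ s⟫ + ⟪f t, ψ t⟫) = 0) :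
    ∃ q : E n, ∀ᵐ t : ℝ, t ∈ Set.Icc (0 : ℝ) 1 → f t = q + ∫ s in (0 : ℝ)..t, g s := by
  have hN0 : 0 ≤ N := le_trans (norm_nonneg _) (hfb 0 ⟨le_rfl, zero_le_one⟩)
  -- truncated functions
  set f₁ : ℝ → E n := (Set.Icc (0 : ℝ) 1).indicator f with hf₁
  set g₁ : ℝ → E n := (Set.Icc (0 : ℝ) 1).indicator g with hg₁
  have hf₁m : Measurable f₁ := hf.indicator measurableSet_Icc
  have hg₁m : Measurable g₁ := hg.indicator measurableSet_Icc
  have hf₁b : ∀ t, ‖f₁ t‖ ≤ N := by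
    intro t
    by_cases ht : t ∈ Set.Icc (0 : ℝ) 1
    · rw [hf₁, Set.indicator_of_mem ht]
      exact hfb t ht
    · rw [hf₁, Set.indicator_of_notMem ht]
      simpa using hN0
  have hg₁b : ∀ t, ‖g₁ t‖ ≤ N := by
    intro t
    by_cases ht : t ∈ Set.Icc (0 : ℝ) 1
    · rw [hg₁, Set.indicator_of_mem ht]
      exact hgb t ht
    · rw [hg₁, Set.indicator_of_notMem ht]
      simpa using hN0
  have hgG : ∀ t ∈ Set.Icc (0 : ℝ) 1, ∫ s in (0 : ℝ)..t, g s = ∫ s in (0 : ℝ)..t, g₁ s := by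
    intro t ht
    refine intervalIntegral.integral_congr fun s hs => ?_
    rw [Set.uIcc_of_le ht.1] at hs
    rw [hg₁, Set.indicator_of_mem (show s ∈ Set.Icc (0 : ℝ) 1 from ⟨hs.1, hs.2.trans ht.2⟩)]
  set G : ℝ → E n := fun t => ∫ s in (0 : ℝ)..t, g₁ s with hG
  have hGc : Continuous G := intervalIntegral.continuous_primitive (fun a b => db2_ii hg₁m hg₁b a b) 0
  obtain ⟨C, hC⟩ := isCompact_Icc.exists_bound_of_continuousOn (hGc.continuousOn (s := Set.Icc (0 : ℝ) 1))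
  have hC0 : 0 ≤ C := le_trans (norm_nonneg _) (hC 0 ⟨le_rfl, zero_le_one⟩)
  set q : E n := ∫ t in (0 : ℝ)..1, (f₁ t - G t) with hq
  set ψ : ℝ → E n := (Set.Icc (0 : ℝ) 1).indicator fun t => f₁ t - G t - q with hψ
  have hψm : Measurable ψ :=
    ((hf₁m.sub hGc.measurable).sub measurable_const).indicator measurableSet_Icc
  have hψb : ∀ t, ‖ψ t‖ ≤ N + C + ‖q‖ := by
    intro t
    by_cases ht : t ∈ Set.Icc (0 : ℝ) 1
    · rw [hψ, Set.indicator_of_mem ht]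
      calc ‖f₁ t - G t - q‖ ≤ ‖f₁ t - G t‖ + ‖q‖ := norm_sub_le _ _
        _ ≤ ‖f₁ t‖ + ‖G t‖ + ‖q‖ := by gcongr; exact norm_sub_le _ _
        _ ≤ N + C + ‖q‖ := by
            have := hf₁b t
            have := hC t ht
            gcongr
    · rw [hψ, Set.indicator_of_notMem ht, norm_zero]
      positivity
  have hψe : ∀ t ∈ Set.Icc (0 : ℝ) 1, ψ t = f₁ t - G t - q := fun t ht => by
    rw [hψ, Set.indicator_of_mem ht]
  have hGi : IntervalIntegrable G volume 0 1 := hGc.intervalIntegrable _ _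
  have hfi : IntervalIntegrable f₁ volume 0 1 := db2_ii hf₁m hf₁b 0 1
  have hψi : IntervalIntegrable ψ volume 0 1 := db2_ii hψm hψb 0 1
  have hψ0 : ∫ t in (0 : ℝ)..1, ψ t = 0 := by
    have : ∫ t in (0 : ℝ)..1, ψ t = ∫ t in (0 : ℝ)..1, (f₁ t - G t - q) := by
      refine intervalIntegral.integral_congr fun s hs => ?_
      rw [Set.uIcc_of_le zero_le_one] at hs
      exact hψe s hs
    rw [this, intervalIntegral.integral_sub (hfi.sub hGi) intervalIntegrable_const, ← hq]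
    simp
  have hmain := h ψ hψm ⟨_, hψb⟩ hψ0
  -- replace the functions by the truncated ones
  have h1 : ∫ t in (0 : ℝ)..1, (⟪g t, ∫ s in (0 : ℝ)..t, ψ s⟫ + ⟪f t, ψ t⟫) =
      ∫ t in (0 : ℝ)..1, (⟪g₁ t, ∫ s in (0 : ℝ)..t, ψ s⟫ + ⟪f₁ t, ψ t⟫) := by
    refine intervalIntegral.integral_congr fun s hs => ?_
    rw [Set.uIcc_of_le zero_le_one] at hs
    simp only [hf₁, hg₁, Set.indicator_of_mem hs]
  rw [h1] at hmain
  have hΨc : Continuous fun t => ∫ s in (0 : ℝ)..t, ψ s :=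
    intervalIntegral.continuous_primitive (fun a b => db2_ii hψm hψb a b) 0
  -- integrability of inner products of bounded functions
  have hint : ∀ (u v : ℝ → E n) (A B : ℝ), Measurable u → Measurable v →
      (∀ t ∈ Set.Icc (0 : ℝ) 1, ‖u t‖ ≤ A) → (∀ t ∈ Set.Icc (0 : ℝ) 1, ‖v t‖ ≤ B) →
      IntervalIntegrable (fun t => ⟪u t, v t⟫) volume 0 1 := by
    intro u v A B hu hv hA hB
    have hA0 : 0 ≤ A := le_trans (norm_nonneg _) (hA 0 ⟨le_rfl, zero_le_one⟩)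
    rw [intervalIntegrable_iff_integrableOn_Ioc_of_le zero_le_one]
    refine Integrable.of_bound (hu.inner hv).aestronglyMeasurable (A * B) ?_
    filter_upwards [ae_restrict_mem measurableSet_Ioc] with t ht
    have ht' : t ∈ Set.Icc (0 : ℝ) 1 := ⟨ht.1.le, ht.2⟩
    exact (norm_inner_le_norm _ _).trans (mul_le_mul (hA t ht') (hB t ht') (norm_nonneg _) hA0)
  obtain ⟨C', hC'⟩ := isCompact_Icc.exists_bound_of_continuousOn
    (hΨc.continuousOn (s := Set.Icc (0 : ℝ) 1))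
  rw [intervalIntegral.integral_add
    (hint g₁ _ N C' hg₁m hΨc.measurable (fun t _ => hg₁b t) hC')
    (hint f₁ ψ N _ hf₁m hψm (fun t _ => hf₁b t) (fun t _ => hψb t)),
    db2_fub hg₁m hψm hg₁b hψb] at hmain
  have hGs : ∀ s, ∫ t in s..1, g₁ t = G 1 - G s := by
    intro s
    rw [hG]
    exact (intervalIntegral.integral_interval_sub_left (db2_ii hg₁m hg₁b 0 1)
      (db2_ii hg₁m hg₁b 0 s)).symm
  have h2 : ∫ s in (0 : ℝ)..1, ⟪∫ t in s..1, g₁ t, ψ s⟫ =
      (∫ s in (0 : ℝ)..1, ⟪G 1, ψ s⟫) - ∫ s in (0 : ℝ)..1, ⟪G s, ψ s⟫ := by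
    rw [← intervalIntegral.integral_sub
      (hint (fun _ => G 1) ψ _ _ measurable_const hψm (fun t _ => le_rfl) (fun t _ => hψb t))
      (hint G ψ C _ hGc.measurable hψm hC (fun t _ => hψb t))]
    refine intervalIntegral.integral_congr fun s _ => ?_
    rw [hGs, inner_sub_left]
  have hconst : ∀ c : E n, ∫ s in (0 : ℝ)..1, ⟪c, ψ s⟫ = 0 := by
    intro c
    rw [intervalIntegral.integral_of_le zero_le_one, integral_inner (db2_int hψm hψb) c,
      ← intervalIntegral.integral_of_le zero_le_one, hψ0, inner_zero_right]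
  rw [h2, hconst (G 1), zero_sub] at hmain
  have h3 : ∫ s in (0 : ℝ)..1, ⟪ψ s, ψ s⟫ = 0 := by
    have e : ∫ s in (0 : ℝ)..1, ⟪ψ s, ψ s⟫ =
        (∫ s in (0 : ℝ)..1, ⟪f₁ s, ψ s⟫) - (∫ s in (0 : ℝ)..1, ⟪G s, ψ s⟫) -
          ∫ s in (0 : ℝ)..1, ⟪q, ψ s⟫ := by
      have i1 := hint f₁ ψ N _ hf₁m hψm (fun t _ => hf₁b t) (fun t _ => hψb t)
      have i2 := hint G ψ C _ hGc.measurable hψm hC (fun t _ => hψb t)
      have i3 := hint (fun _ => q) ψ _ _ measurable_const hψm (fun t _ => le_rfl) (fun t _ => hψb t)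
      rw [← intervalIntegral.integral_sub i1 i2, ← intervalIntegral.integral_sub (i1.sub i2) i3]
      refine intervalIntegral.integral_congr fun s hs => ?_
      rw [Set.uIcc_of_le zero_le_one] at hs
      rw [← inner_sub_left, ← inner_sub_left, ← hψe s hs]
    rw [e, hconst q]
    linarith
  have h4 : (fun s => ⟪ψ s, ψ s⟫) =ᵐ[volume.restrict (Set.Ioc (0 : ℝ) 1)] 0 := by
    rw [intervalIntegral.integral_of_le zero_le_one] at h3
    refine (integral_eq_zero_iff_of_nonneg (fun s => real_inner_self_nonneg) ?_).1 h3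
    have := hint ψ ψ _ _ hψm hψm (fun t _ => hψb t) (fun t _ => hψb t)
    rwa [intervalIntegrable_iff_integrableOn_Ioc_of_le zero_le_one] at this
  refine ⟨q, ?_⟩
  have h5 : ∀ᵐ t : ℝ, t ∈ Set.Ioc (0 : ℝ) 1 → ψ t = 0 := by
    have := (ae_restrict_iff' measurableSet_Ioc).1 h4
    filter_upwards [this] with t ht hm
    exact inner_self_eq_zero.1 (ht hm)
  have h6 : ∀ᵐ t : ℝ, t ≠ 0 := by
    simp [ae_iff]
  filter_upwards [h5, h6] with t ht ht0 hm
  have hm' : t ∈ Set.Ioc (0 : ℝ) 1 := ⟨lt_of_le_of_ne hm.1 (Ne.symm ht0), hm.2⟩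
  have h7 := ht hm'
  rw [hψe t hm] at h7
  rw [hgG t hm]
  have h8 : f₁ t = f t := by rw [hf₁, Set.indicator_of_mem hm]
  rw [h8] at h7
  have h9 : f t = G t + q := by
    have := sub_eq_zero.1 h7
    exact sub_eq_iff_eq_add'.1 this
  rw [h9, add_comm]

end Pool.Agent.H68.TG
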