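import Pool.Agent.H68.TO.Tr

/-!
# Tonelli Lagrangians with a complete flow: definitions of the project TG

`Ton`: the Lagrangians of the problem, `C²` instead of real-analytic. `Ls`: the auxiliary Lagrangian
`min_w (L(x, w, t) + Q(v - w))`. `Elc`: Euler-Lagrange curves on an interval. `Lip`: Lipschitz curves.
-/

set_option autoImplicit false

open MeasureTheory Filter
open scoped RealInnerProductSpace

namespace Pool.Agent.H68.TG

open Pool.Agent.H33.AM (E Tor pr IsPeriodic IsEL)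
open Pool.Agent.H68.HD

variable {n : ℕ}

/-- The Lagrangians of the problem, of class `C²` instead of real-analytic: periodic, positive definite
second derivative in the velocity, superlinear, complete Euler-Lagrange flow. -/
structure Ton (L : E n → E n → ℝ → ℝ) : Prop where
  per : IsPeriodic L
  smooth : ContDiff ℝ 2 fun z : E n × E n × ℝ => L z.1 z.2.1 z.2.2
  pos : ∀ x v t w, w ≠ 0 → 0 < fderiv ℝ (fderiv ℝ fun v => L x v t) v w w
  sup : ∀ a : ℝ, ∃ b : ℝ, ∀ x v t, a * ‖v‖ - b ≤ L x v t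
  flow : ∀ x v t, ∃ γ : ℝ → E n, IsEL L γ ∧ γ t = x ∧ deriv γ t = v

/-- The momentum `∂L/∂v`. -/
noncomputable def Lv (L : E n → E n → ℝ → ℝ) (x v : E n) (t : ℝ) : E n :=
  gradient (fun v => L x v t) v

/-- The gradient `∂L/∂x`. -/
noncomputable def Lx (L : E n → E n → ℝ → ℝ) (x v : E n) (t : ℝ) : E n :=
  gradient (fun x => L x v t) x

/-- The velocity `w` with `∂L/∂v (x, w, t) = p`. -/
noncomputable def Vi (L : E n → E n → ℝ → ℝ) (x p : E n) (t : ℝ) : E n :=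
  Classical.epsilon fun w => Lv L x w t = p

/-- `γ` is an Euler-Lagrange curve on `[a, b]`, of velocity `w`. -/
structure Elc (L : E n → E n → ℝ → ℝ) (γ w : ℝ → E n) (a b : ℝ) : Prop where
  wc : ContinuousOn w (Set.Icc a b)
  dx : ∀ t ∈ Set.Icc a b, HasDerivWithinAt γ (w t) (Set.Icc a b) t
  dp : ∀ t ∈ Set.Icc a b,
    HasDerivWithinAt (fun s => Lv L (γ s) (w s) s) (Lx L (γ t) (w t) t) (Set.Icc a b) t

/-- `Q(u) = P |u| + S (|u| - U)₊`. -/
noncomputable def Qf (P S U : ℝ) (u : E n) : ℝ := P * ‖u‖ + S * max (‖u‖ - U) 0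

/-- The auxiliary Lagrangian `min_w (L(x, w, t) + Q(v - w))`. -/
noncomputable def Ls (L : E n → E n → ℝ → ℝ) (P S U : ℝ) : E n → E n → ℝ → ℝ :=
  fun x v t => ⨅ w : E n, (L x w t + Qf P S U (v - w))

/-- `w` is a minimizer for `Ls` at `(x, v, t)`. -/
def Mi (L : E n → E n → ℝ → ℝ) (P S U : ℝ) (x v : E n) (t : ℝ) (w : E n) : Prop :=
  Ls L P S U x v t = L x w t + Qf P S U (v - w)

/-- `δ` is `ρ`-Lipschitz. -/
def Lip (ρ : ℝ) (δ : ℝ → E n) : Prop := ∀ s t, ‖δ t - δ s‖ ≤ ρ * |t - s|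

/-- Every Euler-Lagrange curve in the time interval `[0, 1]` with a velocity at most `C₁` at some time has
velocities at most `ρ`. -/
def Un (L : E n → E n → ℝ → ℝ) (C₁ ρ : ℝ) : Prop :=
  ∀ (γ w : ℝ → E n) (a b t₁ : ℝ), 0 ≤ a → b ≤ 1 → t₁ ∈ Set.Icc a b → Elc L γ w a b → ‖w t₁‖ ≤ C₁ →
    ∀ t ∈ Set.Icc a b, ‖w t‖ ≤ ρ

/-- `w` is a continuous velocity with momentum `∂L/∂v (δ, w, t)` of class `C¹`, and `δ' = w` almost everywhere
where the momentum is smaller than `P`; and `w = δ'` almost everywhere where `|δ'| ≤ ρ`. -/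
structure Mo (L : E n → E n → ℝ → ℝ) (P ρ : ℝ) (δ w : ℝ → E n) : Prop where
  wc : ContinuousOn w (Set.Icc (0 : ℝ) 1)
  dp : ∀ t ∈ Set.Icc (0 : ℝ) 1,
    HasDerivWithinAt (fun s => Lv L (δ s) (w s) s) (Lx L (δ t) (w t) t) (Set.Icc (0 : ℝ) 1) t
  small : ∀ᵐ t : ℝ, t ∈ Set.Icc (0 : ℝ) 1 → ‖Lv L (δ t) (w t) t‖ < P → deriv δ t = w t
  slow : ∀ᵐ t : ℝ, t ∈ Set.Icc (0 : ℝ) 1 → ‖deriv δ t‖ ≤ ρ → deriv δ t = w t

end Pool.Agent.H68.TG
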