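import Pool.Agent.H68.TG.Def
import Pool.Agent.H68.TG.Rg1
import Pool.Agent.H68.TG.Rg2
import Pool.Agent.H68.TG.MuP
import Pool.Agent.H68.TO.Bd

/-!
# Module Inv: the inverse of the momentum map
Existence: `w ↦ L x w t - ⟪p, w⟫` is continuous and coercive (`hL.sup (‖p‖ + 1)`), so it has a minimum, where the gradient
vanishes. Uniqueness: `mu_pos` (or `subg` strictly). `vi_bd`: `subg` with `w = 0`: `⟪Lv(v), v⟫ ≥ L(v) - L(0) ≥ (P + 1)‖v‖ - b - A`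
with `A` a bound of `L(·, 0, ·)` (`TO.bd`), so `‖v‖ ≤ b + A`. `vi_cont` at `(x₀, p₀, t₀)`, `w₀ = Vi(x₀, p₀, t₀)`:
`μ ‖w - w₀‖² ≤ ⟪p - Lv(x, w₀, t), w - w₀⟫`, so `‖w - w₀‖ ≤ ‖p - Lv(x, w₀, t)‖/μ → 0` (`V` from `vi_bd` with `P = ‖p₀‖ + 1`).
-/

set_option autoImplicit false

open MeasureTheory Filter
open scoped RealInnerProductSpace Topology

namespace Pool.Agent.H68.TG

open Pool.Agent.H33.AM (E Tor pr IsPeriodic IsEL)
open Pool.Agent.H68.HD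
open Pool.Agent.H68.TO (Slow Cst md)

variable {n : ℕ}

theorem vi_bd {L : E n → E n → ℝ → ℝ} (hL : Ton L) (P : ℝ) :
    ∃ W : ℝ, ∀ x v t, ‖Lv L x v t‖ ≤ P → ‖v‖ ≤ W := by
  obtain ⟨b, hb⟩ := hL.sup (P + 1)
  obtain ⟨A, _, hA⟩ := Pool.Agent.H68.TO.bd hL.per hL.smooth.continuous 0
  refine ⟨A + b, fun x v t hv => ?_⟩
  have h1 := subg hL x v 0 t
  have h2 := hb x v t
  have h3 : L x 0 t ≤ A := (abs_le.1 (hA x 0 t (by simp))).2
  have h4 : ⟪Lv L x v t, v⟫ ≤ P * ‖v‖ :=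
    (real_inner_le_norm _ _).trans (mul_le_mul_of_nonneg_right hv (norm_nonneg _))
  have h5 : ⟪Lv L x v t, 0 - v⟫ = -⟪Lv L x v t, v⟫ := by
    rw [zero_sub, inner_neg_right]
  rw [h5] at h1
  nlinarith [h1, h2, h3, h4]

private theorem vi_ex {L : E n → E n → ℝ → ℝ} (hL : Ton L) (x p : E n) (t : ℝ) :
    ∃ w, Lv L x w t = p := by
  obtain ⟨b, hb⟩ := hL.sup (‖p‖ + 1)
  have hc : Continuous fun w : E n => L x w t - ⟪p, w⟫ := by
    have h1 : Continuous fun w : E n => L x w t :=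
      hL.smooth.continuous.comp (f := fun w : E n => (x, w, t)) (by fun_prop)
    exact h1.sub (by fun_prop)
  have ht : Tendsto (fun w : E n => L x w t - ⟪p, w⟫) (cocompact (E n)) atTop := by
    have h0 : Tendsto (fun w : E n => ‖w‖ + -b) (cocompact (E n)) atTop :=
      tendsto_atTop_add_const_right _ (-b) (tendsto_norm_cocompact_atTop (E := E n))
    refine tendsto_atTop_mono (fun w => ?_) h0
    have h1 := hb x w t
    have h2 := real_inner_le_norm p w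
    nlinarith [h1, h2]
  obtain ⟨w, hw⟩ := hc.exists_forall_le ht
  refine ⟨w, ?_⟩
  have h1 := (lv_grad hL x w t).hasFDerivAt
  have h2 : HasFDerivAt (fun w : E n => ⟪p, w⟫) (innerSL ℝ p) w := (innerSL ℝ p).hasFDerivAt
  have h3 := h1.sub h2
  have h4 : IsLocalMin (fun w : E n => L x w t - ⟪p, w⟫) w := Eventually.of_forall hw
  have h5 := h4.hasFDerivAt_eq_zero h3
  have h6 : ∀ y : E n, ⟪Lv L x w t - p, y⟫ = 0 := by
    intro y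
    have h7 := congrArg (fun T : E n →L[ℝ] ℝ => T y) h5
    simpa [inner_sub_left] using h7
  exact sub_eq_zero.1 (inner_self_eq_zero.1 (h6 _))

theorem vi_spec {L : E n → E n → ℝ → ℝ} (hL : Ton L) (x p : E n) (t : ℝ) :
    Lv L x (Vi L x p t) t = p :=
  Classical.epsilon_spec (vi_ex hL x p t)

theorem vi_uniq {L : E n → E n → ℝ → ℝ} (hL : Ton L) {x w p : E n} {t : ℝ} (h : Lv L x w t = p) :
    w = Vi L x p t := by
  obtain ⟨μ, hμ, h1⟩ := mu_pos hL (max ‖w‖ ‖Vi L x p t‖)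
  have h2 := h1 x w (Vi L x p t) t (le_max_left _ _) (le_max_right _ _)
  rw [vi_spec hL x p t, h, sub_self, inner_zero_left] at h2
  have h3 : ‖w - Vi L x p t‖ ^ 2 ≤ 0 := by nlinarith [h2, sq_nonneg ‖w - Vi L x p t‖]
  have h4 : ‖w - Vi L x p t‖ = 0 := by nlinarith [norm_nonneg (w - Vi L x p t)]
  exact sub_eq_zero.1 (norm_eq_zero.1 h4)

theorem vi_cont {L : E n → E n → ℝ → ℝ} (hL : Ton L) :
    Continuous fun z : E n × E n × ℝ => Vi L z.1 z.2.1 z.2.2 := by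
  rw [continuous_iff_continuousAt]
  rintro ⟨x₀, p₀, t₀⟩
  obtain ⟨W, hW⟩ := vi_bd hL (‖p₀‖ + 1)
  obtain ⟨μ, hμ, hm⟩ := mu_pos hL W
  have hw₀ : ‖Vi L x₀ p₀ t₀‖ ≤ W := hW x₀ _ t₀ (by rw [vi_spec hL]; linarith)
  have hg : Continuous fun z : E n × E n × ℝ =>
      ‖z.2.1 - Lv L z.1 (Vi L x₀ p₀ t₀) z.2.2‖ / μ := by
    have h1 : Continuous fun z : E n × E n × ℝ => Lv L z.1 (Vi L x₀ p₀ t₀) z.2.2 :=
      (lv_cont hL).comp (f := fun z : E n × E n × ℝ => (z.1, Vi L x₀ p₀ t₀, z.2.2)) (by fun_prop)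
    exact ((continuous_fst.comp continuous_snd).sub h1).norm.div_const μ
  have hg0 : Tendsto (fun z : E n × E n × ℝ => ‖z.2.1 - Lv L z.1 (Vi L x₀ p₀ t₀) z.2.2‖ / μ)
      (𝓝 (x₀, p₀, t₀)) (𝓝 0) := by
    have h1 := hg.tendsto (x₀, p₀, t₀)
    have h2 : ‖(x₀, p₀, t₀).2.1 - Lv L (x₀, p₀, t₀).1 (Vi L x₀ p₀ t₀) (x₀, p₀, t₀).2.2‖ / μ = 0 := by
      simp [vi_spec hL]
    rwa [h2] at h1
  have hev : ∀ᶠ z : E n × E n × ℝ in 𝓝 (x₀, p₀, t₀), ‖z.2.1‖ ≤ ‖p₀‖ + 1 := by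
    have h1 : Continuous fun z : E n × E n × ℝ => ‖z.2.1‖ := by fun_prop
    have h2 : ∀ᶠ z : E n × E n × ℝ in 𝓝 (x₀, p₀, t₀), ‖z.2.1‖ < ‖p₀‖ + 1 :=
      h1.continuousAt.eventually_lt continuousAt_const (by simp)
    exact h2.mono fun z hz => hz.le
  have hb : ∀ᶠ z : E n × E n × ℝ in 𝓝 (x₀, p₀, t₀),
      ‖Vi L z.1 z.2.1 z.2.2 - Vi L x₀ p₀ t₀‖ ≤
        ‖z.2.1 - Lv L z.1 (Vi L x₀ p₀ t₀) z.2.2‖ / μ := by
    refine hev.mono fun z hz => ?_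
    have h1 : ‖Vi L z.1 z.2.1 z.2.2‖ ≤ W := hW z.1 _ z.2.2 (by rw [vi_spec hL]; exact hz)
    have h2 := hm z.1 (Vi L z.1 z.2.1 z.2.2) (Vi L x₀ p₀ t₀) z.2.2 h1 hw₀
    rw [vi_spec hL] at h2
    have h3 := real_inner_le_norm (z.2.1 - Lv L z.1 (Vi L x₀ p₀ t₀) z.2.2)
      (Vi L z.1 z.2.1 z.2.2 - Vi L x₀ p₀ t₀)
    rw [le_div_iff₀ hμ]
    rcases (norm_nonneg (Vi L z.1 z.2.1 z.2.2 - Vi L x₀ p₀ t₀)).eq_or_lt with h4 | h4
    · rw [← h4, zero_mul]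
      exact norm_nonneg _
    · refine le_of_mul_le_mul_right ?_ h4
      nlinarith [h2, h3]
  have h0 : Tendsto (fun z : E n × E n × ℝ => ‖Vi L z.1 z.2.1 z.2.2 - Vi L x₀ p₀ t₀‖)
      (𝓝 (x₀, p₀, t₀)) (𝓝 0) :=
    squeeze_zero' (Eventually.of_forall fun z => norm_nonneg _) hb hg0
  exact tendsto_iff_norm_sub_tendsto_zero.2 h0

end Pool.Agent.H68.TG
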