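import Pool.Agent.H68.TG.Def
import Pool.Agent.H68.TG.Inv

/-!
# Module Elg: global Euler-Lagrange solutions have continuous velocity
`IsEL L γ`: `γ` is differentiable and `p s = Lv L (γ s) (deriv γ s) s` is differentiable with derivative `Lx ...`, so `p` and `γ` are
continuous and `deriv γ s = Vi L (γ s) (p s) s` (`vi_uniq`) is continuous (`vi_cont`).
-/

set_option autoImplicit false

open MeasureTheory Filter
open scoped RealInnerProductSpace Topology

namespace Pool.Agent.H68.TG

open Pool.Agent.H33.AM (E Tor pr IsPeriodic IsEL)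
open Pool.Agent.H68.HD
open Pool.Agent.H68.TO (Slow Cst md)

variable {n : ℕ}

theorem elg {L : E n → E n → ℝ → ℝ} (hL : Ton L) {γ : ℝ → E n} (h : IsEL L γ) :
    Continuous (deriv γ) ∧ ∀ a b : ℝ, Elc L γ (deriv γ) a b := by
  have hγ : Continuous γ := continuous_iff_continuousAt.2 fun t => (h.1 t).continuousAt
  have hp : Continuous fun s => Lv L (γ s) (deriv γ s) s :=
    continuous_iff_continuousAt.2 fun t => (h.2 t).continuousAt
  have he : deriv γ = fun s => Vi L (γ s) (Lv L (γ s) (deriv γ s) s) s :=
    funext fun s => vi_uniq hL rfl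
  have hc : Continuous (deriv γ) := by
    rw [he]
    exact (vi_cont hL).comp (hγ.prodMk (hp.prodMk continuous_id))
  exact ⟨hc, fun a b => ⟨hc.continuousOn, fun t _ => (h.1 t).hasDerivAt.hasDerivWithinAt,
    fun t _ => (h.2 t).hasDerivWithinAt⟩⟩

end Pool.Agent.H68.TG
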