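import Pool.Agent.H68.TG.Def
import Pool.Agent.H68.HD.AC0

/-!
# Module Jen: Jensen's inequality for Lipschitz curves
`ConvexOn.map_average_le` (or `map_set_average_le`, probability measure `(b - a)⁻¹` times Lebesgue measure on `(a, b]`); `f` is continuous
and `deriv δ` is bounded measurable; `∫ deriv δ = δ b - δ a` (`ac_ftc`, Lipschitz functions are absolutely continuous:
`LipschitzOnWith.absolutelyContinuousOnInterval`).
-/

set_option autoImplicit false

open MeasureTheory Filter
open scoped RealInnerProductSpace Topology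

namespace Pool.Agent.H68.TG

open Pool.Agent.H33.AM (E Tor pr IsPeriodic IsEL)
open Pool.Agent.H68.HD
open Pool.Agent.H68.TO (Slow Cst md)

variable {n : ℕ}

private theorem lip_Jen {δ : ℝ → E n} {ρ : ℝ} (hρ : 0 ≤ ρ) (hδ : Lip ρ δ) :
    LipschitzWith (Real.toNNReal ρ) δ := by
  refine LipschitzWith.of_dist_le_mul fun t s => ?_
  rw [dist_eq_norm, dist_eq_norm, Real.coe_toNNReal _ hρ, Real.norm_eq_abs]
  exact hδ s t

theorem jen {f : E n → ℝ} (hf : ConvexOn ℝ Set.univ f) (hc : Continuous f) {δ : ℝ → E n} {ρ : ℝ}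
    (hρ : 0 ≤ ρ) (hδ : Lip ρ δ) {a b : ℝ} (hab : a < b) :
    (b - a) * f ((b - a)⁻¹ • (δ b - δ a)) ≤ ∫ s in a..b, f (deriv δ s) := by
  have hL := lip_Jen hρ hδ
  have hn : ∀ s, ‖deriv δ s‖ ≤ ρ := by
    intro s
    have h := norm_deriv_le_of_lipschitz (x₀ := s) hL
    rwa [Real.coe_toNNReal _ hρ] at h
  have hac : AbsolutelyContinuousOnInterval δ a b :=
    (hL.lipschitzOnWith (s := Set.uIcc a b)).absolutelyContinuousOnInterval
  have hm : StronglyMeasurable (deriv δ) := stronglyMeasurable_deriv δ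
  obtain ⟨C, hC⟩ := (isCompact_closedBall (0 : E n) ρ).exists_bound_of_continuousOn
    (f := f) hc.continuousOn
  have hvol : volume (Set.uIoc a b) ≠ ⊤ := by
    rw [Set.uIoc_of_le hab.le, Real.volume_Ioc]
    exact ENNReal.ofReal_ne_top
  have h0 : volume (Set.uIoc a b) ≠ 0 := by
    rw [Set.uIoc_of_le hab.le, Real.volume_Ioc, ne_eq, ENNReal.ofReal_eq_zero, not_le]
    linarith
  have hfi : IntegrableOn (deriv δ) (Set.uIoc a b) volume :=
    Measure.integrableOn_of_bounded hvol hm.aestronglyMeasurable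
      (Filter.Eventually.of_forall hn)
  have hgi : IntegrableOn (f ∘ deriv δ) (Set.uIoc a b) volume := by
    refine Measure.integrableOn_of_bounded (M := C) hvol
      (hc.comp_stronglyMeasurable hm).aestronglyMeasurable
      (Filter.Eventually.of_forall fun s => ?_)
    exact hC _ (mem_closedBall_zero_iff.2 (hn s))
  have h1 := hf.map_set_average_le hc.continuousOn isClosed_univ h0 hvol
    (Filter.Eventually.of_forall fun _ => Set.mem_univ _) hfi hgi
  rw [interval_average_eq, interval_average_eq, ac_ftc hac, smul_eq_mul] at h1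
  have h2 : (0 : ℝ) < b - a := by linarith
  have h3 := mul_le_mul_of_nonneg_left h1 h2.le
  rwa [← mul_assoc, mul_inv_cancel₀ h2.ne', one_mul] at h3

end Pool.Agent.H68.TG
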