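import Pool.Agent.H68.TG.Def
import Pool.Agent.H68.TG.La

/-!
# Module Lcx: convexity and lower bounds of the auxiliary Lagrangian
Convexity: minimizers `w₁, w₂` at `v₁, v₂`, test with `a w₁ + b w₂` (`sconv`, `Qf` convex). `ls_lo`: at the minimizer
`L(w) + Q(v - w) ≥ a‖w‖ - b + P‖v - w‖ ≥ a‖v‖ - b`. `ls_lo'`: `Q(u) ≥ (P + S)‖u‖ - S U`.
-/

set_option autoImplicit false

open MeasureTheory Filter
open scoped RealInnerProductSpace Topology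

namespace Pool.Agent.H68.TG

open Pool.Agent.H33.AM (E Tor pr IsPeriodic IsEL)
open Pool.Agent.H68.HD
open Pool.Agent.H68.TO (Slow Cst md)

variable {n : ℕ}

private theorem Lcx_qf_conv {P S : ℝ} (hP : 0 ≤ P) (hS : 0 ≤ S) (U : ℝ) (u₁ u₂ : E n) {a b : ℝ}
    (ha : 0 ≤ a) (hb : 0 ≤ b) (hab : a + b = 1) :
    Qf P S U (a • u₁ + b • u₂) ≤ a * Qf P S U u₁ + b * Qf P S U u₂ := by
  have h1 : ‖a • u₁ + b • u₂‖ ≤ a * ‖u₁‖ + b * ‖u₂‖ := by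
    refine (norm_add_le _ _).trans (le_of_eq ?_)
    rw [norm_smul, norm_smul, Real.norm_of_nonneg ha, Real.norm_of_nonneg hb]
  have h2 : max (‖a • u₁ + b • u₂‖ - U) 0 ≤ a * max (‖u₁‖ - U) 0 + b * max (‖u₂‖ - U) 0 := by
    have h3 := mul_le_mul_of_nonneg_left (le_max_left (‖u₁‖ - U) 0) ha
    have h4 := mul_le_mul_of_nonneg_left (le_max_left (‖u₂‖ - U) 0) hb
    have h5 : (a + b) * U = U := by rw [hab, one_mul]
    refine max_le ?_ ?_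
    · nlinarith
    · exact add_nonneg (mul_nonneg ha (le_max_right _ _)) (mul_nonneg hb (le_max_right _ _))
  unfold Qf
  have h6 := mul_le_mul_of_nonneg_left h1 hP
  have h7 := mul_le_mul_of_nonneg_left h2 hS
  linarith

private theorem Lcx_tri (v w : E n) : ‖v‖ ≤ ‖w‖ + ‖v - w‖ := by
  calc ‖v‖ = ‖w + (v - w)‖ := by rw [add_sub_cancel]
    _ ≤ ‖w‖ + ‖v - w‖ := norm_add_le _ _

theorem ls_conv {L : E n → E n → ℝ → ℝ} (hL : Ton L) {P S : ℝ} (hP : 0 ≤ P) (hS : 0 ≤ S) (U : ℝ)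
    (x : E n) (t : ℝ) : ConvexOn ℝ Set.univ fun v => Ls L P S U x v t := by
  refine ⟨convex_univ, fun v₁ _ v₂ _ a b ha hb hab => ?_⟩
  obtain ⟨w₁, h₁⟩ := ls_at hL hP hS U x v₁ t
  obtain ⟨w₂, h₂⟩ := ls_at hL hP hS U x v₂ t
  unfold Mi at h₁ h₂
  have h3 := ls_le hL hP hS U x (a • v₁ + b • v₂) (a • w₁ + b • w₂) t
  have h4 : a • v₁ + b • v₂ - (a • w₁ + b • w₂) = a • (v₁ - w₁) + b • (v₂ - w₂) := by
    rw [smul_sub, smul_sub]
    abel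
  rw [h4] at h3
  have h5 := Lcx_qf_conv hP hS U (v₁ - w₁) (v₂ - w₂) ha hb hab
  have h6 : L x (a • w₁ + b • w₂) t ≤ a * L x w₁ t + b * L x w₂ t :=
    (sconv hL x t).convexOn.2 (Set.mem_univ w₁) (Set.mem_univ w₂) ha hb hab
  show Ls L P S U x (a • v₁ + b • v₂) t ≤ a * Ls L P S U x v₁ t + b * Ls L P S U x v₂ t
  rw [h₁, h₂]
  linarith

theorem ls_lo {L : E n → E n → ℝ → ℝ} (hL : Ton L) {P S U a b : ℝ} (hS : 0 ≤ S) (ha : 0 ≤ a)
    (haP : a ≤ P) (h : ∀ x v t, a * ‖v‖ - b ≤ L x v t) (x v : E n) (t : ℝ) :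
    a * ‖v‖ - b ≤ Ls L P S U x v t := by
  refine le_ciInf fun w => ?_
  have h1 := h x w t
  have h2 : a * ‖v‖ ≤ a * ‖w‖ + a * ‖v - w‖ := by
    rw [← mul_add]
    exact mul_le_mul_of_nonneg_left (Lcx_tri v w) ha
  have h3 : a * ‖v - w‖ ≤ P * ‖v - w‖ := mul_le_mul_of_nonneg_right haP (norm_nonneg _)
  have h4 : 0 ≤ S * max (‖v - w‖ - U) 0 := mul_nonneg hS (le_max_right _ _)
  unfold Qf
  linarith

theorem ls_lo' {L : E n → E n → ℝ → ℝ} (hL : Ton L) {P S U a b : ℝ} (hP : 0 ≤ P) (hS : 0 ≤ S)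
    (ha : 0 ≤ a) (haP : a ≤ P + S) (h : ∀ x v t, a * ‖v‖ - b ≤ L x v t) (x v : E n) (t : ℝ) :
    a * ‖v‖ - (b + S * U) ≤ Ls L P S U x v t := by
  refine le_ciInf fun w => ?_
  have h1 := h x w t
  have h2 : a * ‖v‖ ≤ a * ‖w‖ + a * ‖v - w‖ := by
    rw [← mul_add]
    exact mul_le_mul_of_nonneg_left (Lcx_tri v w) ha
  have h3 : a * ‖v - w‖ ≤ (P + S) * ‖v - w‖ := mul_le_mul_of_nonneg_right haP (norm_nonneg _)
  have h4 : S * (‖v - w‖ - U) ≤ S * max (‖v - w‖ - U) 0 :=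
    mul_le_mul_of_nonneg_left (le_max_left _ _) hS
  unfold Qf
  linarith

end Pool.Agent.H68.TG
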