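import Pool.Agent.H68.TG.Def
import Pool.Agent.H68.TG.La

/-!
# Module Leq: where the auxiliary Lagrangian equals L
`mi_uniq`: strict convexity of `L` (`sconv`) and convexity of `Qf`, midpoint. `ls_eq`: `L(w) + Q(v - w) ≥ L(v) + ⟪Lv(v), w - v⟫ + P‖v - w‖ ≥ L(v)`
(`subg`), and `ls_le_l`. `mi_eq`: with `u = v - w` and `0 < λ ≤ 1`: `L(w) + Q(u) ≤ L(w + λ u) + Q((1 - λ) u)` (`ls_le`) and
`Q((1 - λ) u) ≤ Q(u) - λ P ‖u‖`, so `P ‖u‖ ≤ (L(w + λ u) - L(w))/λ → ⟪Lv(w), u⟫ ≤ ‖Lv(w)‖ ‖u‖` as `λ → 0` (`lv_grad`), so `u = 0`.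
-/

set_option autoImplicit false

open MeasureTheory Filter
open scoped RealInnerProductSpace Topology

namespace Pool.Agent.H68.TG

open Pool.Agent.H33.AM (E Tor pr IsPeriodic IsEL)
open Pool.Agent.H68.HD
open Pool.Agent.H68.TO (Slow Cst md)

variable {n : ℕ}

private theorem Leq_mid {P S : ℝ} (hP : 0 ≤ P) (hS : 0 ≤ S) (U : ℝ) (u₁ u₂ : E n) :
    Qf P S U ((1 / 2 : ℝ) • u₁ + (1 / 2 : ℝ) • u₂) ≤ (Qf P S U u₁ + Qf P S U u₂) / 2 := by
  have h1 : ‖(1 / 2 : ℝ) • u₁ + (1 / 2 : ℝ) • u₂‖ ≤ (‖u₁‖ + ‖u₂‖) / 2 := by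
    refine (norm_add_le _ _).trans (le_of_eq ?_)
    rw [norm_smul, norm_smul, Real.norm_eq_abs, abs_of_nonneg (by norm_num : (0 : ℝ) ≤ 1 / 2)]
    ring
  have h2 : max (‖(1 / 2 : ℝ) • u₁ + (1 / 2 : ℝ) • u₂‖ - U) 0
      ≤ (max (‖u₁‖ - U) 0 + max (‖u₂‖ - U) 0) / 2 := by
    refine max_le ?_ ?_
    · have h3 := le_max_left (‖u₁‖ - U) 0
      have h4 := le_max_left (‖u₂‖ - U) 0
      linarith
    · have h3 := le_max_right (‖u₁‖ - U) 0
      have h4 := le_max_right (‖u₂‖ - U) 0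
      linarith
  have h5 := mul_le_mul_of_nonneg_left h1 hP
  have h6 := mul_le_mul_of_nonneg_left h2 hS
  unfold Qf
  linarith

private theorem Leq_lo {P S : ℝ} (hS : 0 ≤ S) (U : ℝ) (u : E n) : P * ‖u‖ ≤ Qf P S U u := by
  unfold Qf
  have h1 := mul_nonneg hS (le_max_right (‖u‖ - U) 0)
  linarith

theorem mi_uniq {L : E n → E n → ℝ → ℝ} (hL : Ton L) {P S U : ℝ} (hP : 0 ≤ P) (hS : 0 ≤ S)
    {x v w₁ w₂ : E n} {t : ℝ} (h₁ : Mi L P S U x v t w₁) (h₂ : Mi L P S U x v t w₂) : w₁ = w₂ := by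
  by_contra hne
  have h3 := (sconv hL x t).2 (Set.mem_univ w₁) (Set.mem_univ w₂) hne
    (by norm_num : (0 : ℝ) < 1 / 2) (by norm_num : (0 : ℝ) < 1 / 2) (by norm_num)
  have h4 := ls_le hL hP hS U x v ((1 / 2 : ℝ) • w₁ + (1 / 2 : ℝ) • w₂) t
  have h5 : v - ((1 / 2 : ℝ) • w₁ + (1 / 2 : ℝ) • w₂)
      = (1 / 2 : ℝ) • (v - w₁) + (1 / 2 : ℝ) • (v - w₂) := by
    rw [smul_sub, smul_sub]
    have h6 : v = (1 / 2 : ℝ) • v + (1 / 2 : ℝ) • v := by
      rw [← add_smul]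
      norm_num
    nth_rw 1 [h6]
    abel
  have h6 := Leq_mid (n := n) hP hS U (v - w₁) (v - w₂)
  rw [h5] at h4
  unfold Mi at h₁ h₂
  simp only [smul_eq_mul] at h3
  linarith

theorem ls_eq {L : E n → E n → ℝ → ℝ} (hL : Ton L) {P S U : ℝ} (hS : 0 ≤ S) (hU : 0 ≤ U)
    {x v : E n} {t : ℝ} (h : ‖Lv L x v t‖ ≤ P) : Ls L P S U x v t = L x v t := by
  have hP : 0 ≤ P := (norm_nonneg _).trans h
  refine le_antisymm (ls_le_l hL hP hS hU x v t) ?_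
  refine le_ciInf fun w => ?_
  have h1 := subg hL x v w t
  have h2 := Leq_lo (n := n) (P := P) hS U (v - w)
  have h3 := abs_real_inner_le_norm (Lv L x v t) (w - v)
  have h4 := (abs_le.1 h3).1
  have h5 := mul_le_mul_of_nonneg_right h (norm_nonneg (w - v))
  rw [norm_sub_rev v w] at h2
  linarith

theorem mi_eq {L : E n → E n → ℝ → ℝ} (hL : Ton L) {P S U : ℝ} (hP : 0 ≤ P) (hS : 0 ≤ S)
    {x v w : E n} {t : ℝ} (hm : Mi L P S U x v t w) (h : ‖Lv L x w t‖ < P) : w = v := by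
  by_contra hne
  have hu : 0 < ‖v - w‖ := norm_pos_iff.2 (sub_ne_zero.2 (Ne.symm hne))
  have h1 := ltot hL x w 0 (v - w) t 0
  simp only [smul_zero, add_zero, zero_smul, inner_zero_right, zero_add] at h1
  have h2 := h1.tendsto_slope_zero_right
  have h3 : P * ‖v - w‖ ≤ ⟪Lv L x w t, v - w⟫ := by
    refine ge_of_tendsto h2 ?_
    have h4 : ∀ᶠ s : ℝ in 𝓝[>] 0, s ∈ Set.Ioc (0 : ℝ) 1 := Ioc_mem_nhdsGT one_pos
    filter_upwards [h4] with s hs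
    have hs0 : 0 < s := hs.1
    have h5 := ls_le hL hP hS U x v (w + s • (v - w)) t
    have h6 : v - (w + s • (v - w)) = (1 - s) • (v - w) := by
      rw [sub_smul, one_smul]
      abel
    have h7 : Qf P S U ((1 - s) • (v - w)) ≤ Qf P S U (v - w) - s * (P * ‖v - w‖) := by
      have h8 : ‖(1 - s) • (v - w)‖ = (1 - s) * ‖v - w‖ := by
        rw [norm_smul, Real.norm_eq_abs, abs_of_nonneg (by linarith [hs.2])]
      unfold Qf
      rw [h8]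
      have h9 : max ((1 - s) * ‖v - w‖ - U) 0 ≤ max (‖v - w‖ - U) 0 := by
        refine max_le_max ?_ le_rfl
        nlinarith
      have h10 := mul_le_mul_of_nonneg_left h9 hS
      nlinarith
    rw [h6] at h5
    unfold Mi at hm
    have h8 : s * (P * ‖v - w‖) ≤ L x (w + s • (v - w)) t - L x w t := by linarith
    simp only [zero_add, zero_smul, add_zero, smul_eq_mul]
    rw [← div_eq_inv_mul, le_div_iff₀ hs0]
    linarith
  have h4 := real_inner_le_norm (Lv L x w t) (v - w)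
  have h5 := mul_lt_mul_of_pos_right h hu
  linarith

end Pool.Agent.H68.TG
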