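import Pool.Agent.H68.TG.Def
import Pool.Agent.H68.TG.La

/-!
# Module Lmd: Ls is below the modified Lagrangian
`‖v‖ ≤ ρ`: `md = L ≥ Ls`. `‖v‖ ≥ ρ ≥ 1`: `Ls ≤ L(x, 0, t) + Q(v) ≤ A + (P + S)‖v‖ ≤ M₀ ‖v‖²` (`U ≥ 0`) and `Ls ≤ L`, convex combination.
-/

set_option autoImplicit false

open MeasureTheory Filter
open scoped RealInnerProductSpace Topology

namespace Pool.Agent.H68.TG

open Pool.Agent.H33.AM (E Tor pr IsPeriodic IsEL)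
open Pool.Agent.H68.HD
open Pool.Agent.H68.TO (Slow Cst md)

variable {n : ℕ}

theorem ls_le_md {L : E n → E n → ℝ → ℝ} (hL : Ton L) {P S U ρ A M₀ : ℝ} (hP : 0 ≤ P)
    (hS : 0 ≤ S) (hU : 0 ≤ U) (hρ : 1 ≤ ρ) {f : E n → ℝ} (hf0 : ∀ v, 0 ≤ f v)
    (hf1 : ∀ v, f v ≤ 1) (hfρ : ∀ v, ‖v‖ ≤ ρ → f v = 1) (hA : 0 ≤ A) (hA' : ∀ x t, L x 0 t ≤ A)
    (hM : A + P + S ≤ M₀) (x v : E n) (t : ℝ) : Ls L P S U x v t ≤ md L f M₀ x v t := by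
  have h1 : Ls L P S U x v t ≤ L x v t := ls_le_l hL hP hS hU x v t
  by_cases hv : ‖v‖ ≤ ρ
  · have hf : f v = 1 := hfρ v hv
    have : md L f M₀ x v t = L x v t := by simp [md, hf]
    rw [this]
    exact h1
  · have hv1 : 1 ≤ ‖v‖ := le_trans hρ (le_of_lt (not_le.mp hv))
    have h2 : Ls L P S U x v t ≤ L x 0 t + Qf P S U (v - 0) := ls_le hL hP hS U x v 0 t
    have h3 : max (‖v‖ - U) 0 ≤ ‖v‖ := max_le (by linarith) (by linarith)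
    have h4 : Qf P S U (v - 0) ≤ (P + S) * ‖v‖ := by
      have := mul_le_mul_of_nonneg_left h3 hS
      simp only [sub_zero, Qf]
      nlinarith
    have h5 : ‖v‖ ≤ ‖v‖ ^ 2 := by nlinarith
    have h6 : 1 ≤ ‖v‖ ^ 2 := le_trans hv1 h5
    have h7 : (P + S) * ‖v‖ ≤ (P + S) * ‖v‖ ^ 2 :=
      mul_le_mul_of_nonneg_left h5 (add_nonneg hP hS)
    have h8 : A ≤ A * ‖v‖ ^ 2 := by nlinarith
    have h9 : (A + P + S) * ‖v‖ ^ 2 ≤ M₀ * ‖v‖ ^ 2 :=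
      mul_le_mul_of_nonneg_right hM (sq_nonneg _)
    have h10 : Ls L P S U x v t ≤ M₀ * ‖v‖ ^ 2 := by
      have := hA' x t
      nlinarith
    have h11 : f v * Ls L P S U x v t ≤ f v * L x v t := mul_le_mul_of_nonneg_left h1 (hf0 v)
    have h12 : (1 - f v) * Ls L P S U x v t ≤ (1 - f v) * (M₀ * ‖v‖ ^ 2) :=
      mul_le_mul_of_nonneg_left h10 (by linarith [hf1 v])
    simp only [md]
    nlinarith

end Pool.Agent.H68.TG
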