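import Pool.Agent.H68.TG.Def
import Pool.Agent.H68.TG.Jen
import Pool.Agent.H68.TO.LpI

/-!
# Module Lsc: lower semicontinuity of the action
`δ k → η` uniformly on `[0, 1]` (equi-Lipschitz). Given `ε`, `M` is uniformly continuous on the compact set (a ball containing all curves) × `closedBall 0 ρ` ×
`[0, 1]`. For `N` large and `t_i = i/N`: `∫_{t_i}^{t_{i+1}} M(δ k, (δ k)', t) ≥ ∫ M(η(t_i), (δ k)', t_i) - ε/N ≥ (1/N) M(η(t_i), N (δ k(t_{i+1}) - δ k(t_i)), t_i) - ε/N`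
(`jen`), and `k → ∞`: `m ≥ Σ (1/N) M(η(t_i), N (η(t_{i+1}) - η(t_i)), t_i) - ε`. Then `N → ∞`: the sum is the integral of a step function
which converges to `M(η, η', t)` for a.e. `t` (difference quotients over intervals containing `t` tend to `η'(t)` where `η` is
differentiable), dominated convergence.
-/

set_option autoImplicit false

open MeasureTheory Filter
open scoped RealInnerProductSpace Topology

namespace Pool.Agent.H68.TG

open Pool.Agent.H33.AM (E Tor pr IsPeriodic IsEL)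
open Pool.Agent.H68.HD
open Pool.Agent.H68.TO (Slow Cst md)

variable {n : ℕ}

private theorem lsc_quot {η : ℝ → E n} {t : ℝ} (h : DifferentiableAt ℝ η t) {a b : ℕ → ℝ}
    (ha : ∀ᶠ N : ℕ in atTop, a N ≤ t) (hb : ∀ᶠ N : ℕ in atTop, t ≤ b N)
    (hab : ∀ᶠ N : ℕ in atTop, b N - a N = (N : ℝ)⁻¹) :
    Tendsto (fun N : ℕ => (N : ℝ) • (η (b N) - η (a N))) atTop (𝓝 (deriv η t)) := by
  rw [Metric.tendsto_nhds]
  intro c hc
  have h1 := h.hasDerivAt
  rw [hasDerivAt_iff_isLittleO] at h1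
  have h2 := h1.def (c := c / 2) (by positivity)
  obtain ⟨r, hr, h3⟩ := Metric.eventually_nhds_iff.1 h2
  have h4 : ∀ᶠ N : ℕ in atTop, (N : ℝ)⁻¹ < r :=
    (tendsto_inv_atTop_nhds_zero_nat (𝕜 := ℝ)).eventually (gt_mem_nhds hr)
  filter_upwards [ha, hb, hab, h4, eventually_gt_atTop 0] with N hA hB h5 h6 h7
  have h7' : (0 : ℝ) < N := Nat.cast_pos.2 h7
  have h8 := h3 (y := b N) (by rw [Real.dist_eq, abs_of_nonneg (by linarith)]; linarith)
  have h9 := h3 (y := a N) (by rw [Real.dist_eq, abs_of_nonpos (by linarith)]; linarith)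
  rw [Real.norm_eq_abs, abs_of_nonneg (by linarith : 0 ≤ b N - t)] at h8
  rw [Real.norm_eq_abs, abs_of_nonpos (by linarith : a N - t ≤ 0)] at h9
  have h10 : (N : ℝ) * (b N - a N) = 1 := by rw [h5]; exact mul_inv_cancel₀ h7'.ne'
  have h11 : (N : ℝ) • (η (b N) - η (a N)) - deriv η t =
      (N : ℝ) • ((η (b N) - η t - (b N - t) • deriv η t) -
        (η (a N) - η t - (a N - t) • deriv η t)) := by
    have h12 : deriv η t = ((N : ℝ) * (b N - a N)) • deriv η t := by rw [h10, one_smul]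
    calc (N : ℝ) • (η (b N) - η (a N)) - deriv η t
        = (N : ℝ) • (η (b N) - η (a N)) - ((N : ℝ) * (b N - a N)) • deriv η t := by
          rw [← h12]
      _ = _ := by
          rw [mul_smul, ← smul_sub]
          congr 1
          rw [sub_smul, sub_smul, sub_smul]
          abel
  rw [dist_eq_norm, h11, norm_smul, Real.norm_eq_abs, abs_of_pos h7']
  calc (N : ℝ) * ‖(η (b N) - η t - (b N - t) • deriv η t) -
        (η (a N) - η t - (a N - t) • deriv η t)‖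
      ≤ (N : ℝ) * (c / 2 * (b N - t) + c / 2 * -(a N - t)) :=
        mul_le_mul_of_nonneg_left ((norm_sub_le _ _).trans (add_le_add h8 h9)) h7'.le
    _ = c / 2 * ((N : ℝ) * (b N - a N)) := by ring
    _ < c := by rw [h10]; linarith

private theorem lsc_low {M : E n → E n → ℝ → ℝ}
    (hM : Continuous fun z : E n × E n × ℝ => M z.1 z.2.1 z.2.2)
    (hc : ∀ x t, ConvexOn ℝ Set.univ fun v => M x v t) {ρ : ℝ} (hρ : 0 ≤ ρ) {δ : ℝ → E n}
    {x : ℕ → E n} (hδ : Lip ρ δ) {N : ℕ} (hN : 0 < N) {ε : ℝ}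
    (h : ∀ i < N, ∀ s ∈ Set.Icc ((i : ℝ) / N) (((i + 1 : ℕ) : ℝ) / N),
      M (x i) (deriv δ s) (i / N) - ε ≤ M (δ s) (deriv δ s) s) :
    ∑ i ∈ Finset.range N, (N : ℝ)⁻¹ *
        M (x i) ((N : ℝ) • (δ (((i + 1 : ℕ) : ℝ) / N) - δ (i / N))) (i / N) - ε
      ≤ ∫ t in (0 : ℝ)..1, M (δ t) (deriv δ t) t := by
  have hN' : (0 : ℝ) < N := Nat.cast_pos.2 hN
  have hI := Pool.Agent.H68.TO.lpi_int hM hρ hδ
  have hd : ∀ i : ℕ, ((i + 1 : ℕ) : ℝ) / N - (i : ℝ) / N = (N : ℝ)⁻¹ := by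
    intro i; push_cast; field_simp; ring
  have hlt : ∀ i : ℕ, (i : ℝ) / N < ((i + 1 : ℕ) : ℝ) / N := by
    intro i
    have := hd i
    have h2 : (0 : ℝ) < (N : ℝ)⁻¹ := inv_pos.2 hN'
    linarith
  have hsub : ∀ i < N, Set.uIcc ((i : ℝ) / N) (((i + 1 : ℕ) : ℝ) / N) ⊆ Set.uIcc (0 : ℝ) 1 := by
    intro i hi
    rw [Set.uIcc_of_le (hlt i).le, Set.uIcc_of_le zero_le_one]
    refine Set.Icc_subset_Icc (by positivity) ?_
    rw [div_le_one hN']
    exact_mod_cast hi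
  have hsum := intervalIntegral.sum_integral_adjacent_intervals (a := fun i : ℕ => (i : ℝ) / N)
    (n := N) (f := fun t => M (δ t) (deriv δ t) t) (μ := volume)
    (fun i hi => hI.mono_set (hsub i hi))
  have h0 : ((0 : ℕ) : ℝ) / N = 0 := by simp
  have h1 : (N : ℝ) / N = 1 := div_self hN'.ne'
  simp only [h0, h1] at hsum
  rw [← hsum]
  have h2 : ε = ∑ i ∈ Finset.range N, (N : ℝ)⁻¹ * ε := by
    rw [Finset.sum_const, Finset.card_range, nsmul_eq_mul, ← mul_assoc, mul_inv_cancel₀ hN'.ne',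
      one_mul]
  conv_lhs => rw [h2]
  rw [← Finset.sum_sub_distrib]
  refine Finset.sum_le_sum fun i hi => ?_
  have hi' := Finset.mem_range.1 hi
  have hcont : Continuous fun v => M (x i) v ((i : ℝ) / N) :=
    hM.comp (continuous_const.prodMk (continuous_id.prodMk continuous_const))
  have h3 := jen (hc (x i) ((i : ℝ) / N)) hcont hρ hδ (hlt i)
  rw [hd, inv_inv] at h3
  have hI' : IntervalIntegrable (fun s => M (x i) (deriv δ s) ((i : ℝ) / N)) volume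
      ((i : ℝ) / N) (((i + 1 : ℕ) : ℝ) / N) := by
    have h4 := Pool.Agent.H68.TO.lpi_int (M := fun _ v _ => M (x i) v ((i : ℝ) / N))
      (hcont.comp (continuous_fst.comp continuous_snd)) hρ hδ
    exact h4.mono_set (hsub i hi')
  have h5 : ∫ s in ((i : ℝ) / N)..(((i + 1 : ℕ) : ℝ) / N), (M (x i) (deriv δ s) ((i : ℝ) / N) - ε)
      ≤ ∫ s in ((i : ℝ) / N)..(((i + 1 : ℕ) : ℝ) / N), M (δ s) (deriv δ s) s :=
    intervalIntegral.integral_mono_on (hlt i).le (hI'.sub intervalIntegrable_const)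
      (hI.mono_set (hsub i hi')) (h i hi')
  rw [intervalIntegral.integral_sub hI' intervalIntegrable_const, intervalIntegral.integral_const,
    hd, smul_eq_mul] at h5
  linarith

private theorem lsc_unif {M : E n → E n → ℝ → ℝ}
    (hM : Continuous fun z : E n × E n × ℝ => M z.1 z.2.1 z.2.2) {ρ : ℝ} (hρ : 0 ≤ ρ)
    {δ : ℕ → ℝ → E n} {η : ℝ → E n} (hδ : ∀ k, Lip ρ (δ k)) (hη : Lip ρ η)
    (hlim : ∀ t, Tendsto (fun k => δ k t) atTop (𝓝 (η t))) {ε : ℝ} (hε : 0 < ε) :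
    ∃ N₀ : ℕ, ∀ N : ℕ, N₀ ≤ N → 0 < N ∧ ∀ᶠ k in atTop, ∀ i < N,
      ∀ s ∈ Set.Icc ((i : ℝ) / N) (((i + 1 : ℕ) : ℝ) / N),
      M (η (i / N)) (deriv (δ k) s) (i / N) - ε ≤ M (δ k s) (deriv (δ k) s) s := by
  have hK : IsCompact (Metric.closedBall (0 : E n) (‖η 0‖ + ρ + 1) ×ˢ
      (Metric.closedBall (0 : E n) ρ ×ˢ Set.Icc (0 : ℝ) 1)) :=
    (isCompact_closedBall _ _).prod ((isCompact_closedBall _ _).prod isCompact_Icc)
  have hU := hK.uniformContinuousOn_of_continuous hM.continuousOn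
  rw [Metric.uniformContinuousOn_iff] at hU
  obtain ⟨d, hd, hU⟩ := hU ε hε
  have hd' : 0 < min d 1 := lt_min hd one_pos
  have hdd : min d 1 ≤ d := min_le_left _ _
  have hd1 : min d 1 ≤ 1 := min_le_right _ _
  generalize min d 1 = e at hd' hdd hd1
  obtain ⟨N₀, hN₀⟩ := exists_nat_gt (2 * (ρ + 1) / e)
  refine ⟨N₀, fun N hN => ?_⟩
  have hNN : (N₀ : ℝ) ≤ N := by exact_mod_cast hN
  have h0 : 0 ≤ 2 * (ρ + 1) / e := by positivity
  have hNpos : (0 : ℝ) < N := by linarith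
  have hNd : (ρ + 1) * (N : ℝ)⁻¹ < e / 2 := by
    rw [← div_eq_mul_inv, div_lt_iff₀ hNpos]
    rw [div_lt_iff₀ hd'] at hN₀
    nlinarith
  refine ⟨by exact_mod_cast hNpos, ?_⟩
  have hev : ∀ᶠ k in atTop, ∀ i ∈ Finset.range N,
      dist (δ k ((i : ℝ) / N)) (η ((i : ℝ) / N)) < e / 2 := by
    rw [Filter.eventually_all_finset]
    intro i _
    exact (Metric.tendsto_nhds.1 (hlim _)) _ (by positivity)
  filter_upwards [hev] with k hk i hi s hs
  have h1 := hk i (Finset.mem_range.2 hi)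
  rw [dist_eq_norm] at h1
  have hinv : (0 : ℝ) < (N : ℝ)⁻¹ := inv_pos.2 hNpos
  have hs2 : s - (i : ℝ) / N ≤ (N : ℝ)⁻¹ := by
    have h2 := hs.2
    have h3 : ((i + 1 : ℕ) : ℝ) / N = (i : ℝ) / N + (N : ℝ)⁻¹ := by
      push_cast; field_simp
    linarith
  have hs1 : 0 ≤ s - (i : ℝ) / N := by linarith [hs.1]
  have hi0 : (0 : ℝ) ≤ (i : ℝ) / N := by positivity
  have hi1 : ((i + 1 : ℕ) : ℝ) / N ≤ 1 := by
    rw [div_le_one hNpos]
    exact_mod_cast hi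
  have hs01 : s ∈ Set.Icc (0 : ℝ) 1 := ⟨hi0.trans hs.1, hs.2.trans hi1⟩
  have hi01 : (i : ℝ) / N ∈ Set.Icc (0 : ℝ) 1 := ⟨hi0, (by linarith [hs.1, hs01.2])⟩
  have h2 : ‖δ k s - δ k ((i : ℝ) / N)‖ ≤ ρ * (N : ℝ)⁻¹ := by
    refine (hδ k _ _).trans (mul_le_mul_of_nonneg_left ?_ hρ)
    rw [abs_of_nonneg hs1]
    exact hs2
  have h3 : ‖δ k s - η ((i : ℝ) / N)‖ < e := by
    calc ‖δ k s - η ((i : ℝ) / N)‖
        = ‖(δ k s - δ k ((i : ℝ) / N)) + (δ k ((i : ℝ) / N) - η ((i : ℝ) / N))‖ := by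
          congr 1; abel
      _ ≤ ‖δ k s - δ k ((i : ℝ) / N)‖ + ‖δ k ((i : ℝ) / N) - η ((i : ℝ) / N)‖ := norm_add_le _ _
      _ < e := by nlinarith
  have h4 : ‖η ((i : ℝ) / N)‖ ≤ ‖η 0‖ + ρ := by
    have h5 : ‖η ((i : ℝ) / N) - η 0‖ ≤ ρ * 1 := by
      refine (hη _ _).trans (mul_le_mul_of_nonneg_left ?_ hρ)
      rw [sub_zero, abs_of_nonneg hi01.1]
      exact hi01.2
    calc ‖η ((i : ℝ) / N)‖ = ‖η 0 + (η ((i : ℝ) / N) - η 0)‖ := by congr 1; abel
      _ ≤ ‖η 0‖ + ‖η ((i : ℝ) / N) - η 0‖ := norm_add_le _ _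
      _ ≤ ‖η 0‖ + ρ := by linarith
  have h5 : ‖δ k s‖ ≤ ‖η 0‖ + ρ + 1 := by
    calc ‖δ k s‖ = ‖η ((i : ℝ) / N) + (δ k s - η ((i : ℝ) / N))‖ := by congr 1; abel
      _ ≤ ‖η ((i : ℝ) / N)‖ + ‖δ k s - η ((i : ℝ) / N)‖ := norm_add_le _ _
      _ ≤ ‖η 0‖ + ρ + 1 := by linarith
  have h6 : ‖deriv (δ k) s‖ ≤ ρ := Pool.Agent.H68.TO.lpi_deriv hρ (hδ k) s
  have h7 := hU (δ k s, deriv (δ k) s, s)
    ⟨by rw [Metric.mem_closedBall, dist_zero_right]; exact h5,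
      by rw [Metric.mem_closedBall, dist_zero_right]; exact h6, hs01⟩
    (η ((i : ℝ) / N), deriv (δ k) s, (i : ℝ) / N)
    ⟨by rw [Metric.mem_closedBall, dist_zero_right]; linarith,
      by rw [Metric.mem_closedBall, dist_zero_right]; exact h6, hi01⟩ (by
      rw [Prod.dist_eq, Prod.dist_eq]
      refine max_lt ?_ (max_lt ?_ ?_)
      · rw [dist_eq_norm]
        exact h3.trans_le hdd
      · simpa using hd
      · rw [Real.dist_eq, abs_of_nonneg hs1]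
        nlinarith)
  rw [Real.dist_eq] at h7
  linarith [(abs_lt.1 h7).1]

private theorem lsc_lim {M : E n → E n → ℝ → ℝ}
    (hM : Continuous fun z : E n × E n × ℝ => M z.1 z.2.1 z.2.2) {ρ : ℝ} (hρ : 0 ≤ ρ)
    {η : ℝ → E n} (hη : Lip ρ η) :
    Tendsto (fun N : ℕ => ∑ i ∈ Finset.range N, (N : ℝ)⁻¹ *
        M (η (i / N)) ((N : ℝ) • (η (((i + 1 : ℕ) : ℝ) / N) - η (i / N))) (i / N)) atTop
      (𝓝 (∫ t in (0 : ℝ)..1, M (η t) (deriv η t) t)) := by
  have hL : LipschitzWith ⟨ρ, hρ⟩ η := by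
    refine LipschitzWith.of_dist_le_mul fun x y => ?_
    rw [dist_eq_norm, Real.dist_eq]
    exact hη y x
  have hηc : Continuous η := hL.continuous
  set F : ℕ → ℝ → ℝ := fun N t => M (η ((⌊(N : ℝ) * t⌋ : ℝ) / N))
    ((N : ℝ) • (η (((⌊(N : ℝ) * t⌋ : ℝ) + 1) / N) - η ((⌊(N : ℝ) * t⌋ : ℝ) / N)))
    ((⌊(N : ℝ) * t⌋ : ℝ) / N) with hF
  have hmeas : ∀ N, Measurable (F N) := by
    intro N
    have h1 : Measurable fun t : ℝ => (⌊(N : ℝ) * t⌋ : ℝ) :=
      (measurable_from_top : Measurable (Int.cast : ℤ → ℝ)).comp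
        (Measurable.floor (measurable_const.mul measurable_id))
    have h2 : Measurable fun t : ℝ => (⌊(N : ℝ) * t⌋ : ℝ) / N := h1.div_const _
    have h3 : Measurable fun t : ℝ => ((⌊(N : ℝ) * t⌋ : ℝ) + 1) / N := (h1.add_const _).div_const _
    exact hM.measurable.comp ((hηc.measurable.comp h2).prodMk
      ((((hηc.measurable.comp h3).sub (hηc.measurable.comp h2)).const_smul (N : ℝ)).prodMk h2))
  have hK : IsCompact ((η '' Set.Icc 0 1) ×ˢ (Metric.closedBall (0 : E n) ρ ×ˢ Set.Icc (0 : ℝ) 1)) :=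
    (isCompact_Icc.image hηc).prod ((isCompact_closedBall _ _).prod isCompact_Icc)
  obtain ⟨C, hC⟩ := hK.exists_bound_of_continuousOn hM.continuousOn
  have hbd : ∀ N : ℕ, 0 < N → ∀ t ∈ Set.Icc (0 : ℝ) 1, ‖F N t‖ ≤ C := by
    intro N hN t ht
    have hN' : (0 : ℝ) < N := Nat.cast_pos.2 hN
    have h1 : (⌊(N : ℝ) * t⌋ : ℝ) / N ∈ Set.Icc (0 : ℝ) 1 := by
      have h2 : (0 : ℝ) ≤ (⌊(N : ℝ) * t⌋ : ℝ) := by
        exact_mod_cast Int.floor_nonneg.2 (mul_nonneg hN'.le ht.1)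
      refine ⟨by positivity, ?_⟩
      rw [div_le_one hN']
      refine (Int.floor_le _).trans ?_
      nlinarith [ht.2]
    refine hC (η ((⌊(N : ℝ) * t⌋ : ℝ) / N),
      (N : ℝ) • (η (((⌊(N : ℝ) * t⌋ : ℝ) + 1) / N) - η ((⌊(N : ℝ) * t⌋ : ℝ) / N)),
      (⌊(N : ℝ) * t⌋ : ℝ) / N) ⟨⟨_, h1, rfl⟩, ?_, h1⟩
    rw [Metric.mem_closedBall, dist_zero_right, norm_smul, Real.norm_eq_abs, abs_of_pos hN']
    have h3 := hη ((⌊(N : ℝ) * t⌋ : ℝ) / N) (((⌊(N : ℝ) * t⌋ : ℝ) + 1) / N)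
    have h4 : ((⌊(N : ℝ) * t⌋ : ℝ) + 1) / N - (⌊(N : ℝ) * t⌋ : ℝ) / N = (N : ℝ)⁻¹ := by
      field_simp; ring
    rw [h4, abs_of_pos (inv_pos.2 hN')] at h3
    calc (N : ℝ) * ‖η (((⌊(N : ℝ) * t⌋ : ℝ) + 1) / N) - η ((⌊(N : ℝ) * t⌋ : ℝ) / N)‖
        ≤ (N : ℝ) * (ρ * (N : ℝ)⁻¹) := mul_le_mul_of_nonneg_left h3 hN'.le
      _ = ρ := by field_simp
  have hInt : ∀ N : ℕ, 0 < N → IntervalIntegrable (F N) volume 0 1 := by
    intro N hN
    rw [intervalIntegrable_iff_integrableOn_Icc_of_le zero_le_one]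
    refine Measure.integrableOn_of_bounded (M := C) (by simp) (hmeas N).aestronglyMeasurable ?_
    rw [ae_restrict_iff' measurableSet_Icc]
    exact Filter.Eventually.of_forall fun t ht => hbd N hN t ht
  have hsum : ∀ N : ℕ, 0 < N → ∫ t in (0 : ℝ)..1, F N t = ∑ i ∈ Finset.range N, (N : ℝ)⁻¹ *
        M (η (i / N)) ((N : ℝ) • (η (((i + 1 : ℕ) : ℝ) / N) - η (i / N))) (i / N) := by
    intro N hN
    have hN' : (0 : ℝ) < N := Nat.cast_pos.2 hN
    have hd : ∀ i : ℕ, ((i + 1 : ℕ) : ℝ) / N - (i : ℝ) / N = (N : ℝ)⁻¹ := by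
      intro i; push_cast; field_simp; ring
    have hlt : ∀ i : ℕ, (i : ℝ) / N < ((i + 1 : ℕ) : ℝ) / N := by
      intro i
      have := hd i
      have h2 : (0 : ℝ) < (N : ℝ)⁻¹ := inv_pos.2 hN'
      linarith
    have hsub : ∀ i < N, Set.uIcc ((i : ℝ) / N) (((i + 1 : ℕ) : ℝ) / N) ⊆
        Set.uIcc (0 : ℝ) 1 := by
      intro i hi
      rw [Set.uIcc_of_le (hlt i).le, Set.uIcc_of_le zero_le_one]
      refine Set.Icc_subset_Icc (by positivity) ?_
      rw [div_le_one hN']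
      exact_mod_cast hi
    have hsum := intervalIntegral.sum_integral_adjacent_intervals
      (a := fun i : ℕ => (i : ℝ) / N) (n := N) (f := F N) (μ := volume)
      (fun i hi => (hInt N hN).mono_set (hsub i hi))
    have h0 : ((0 : ℕ) : ℝ) / N = 0 := by simp
    have h1 : (N : ℝ) / N = 1 := div_self hN'.ne'
    simp only [h0, h1] at hsum
    rw [← hsum]
    refine Finset.sum_congr rfl fun i hi => ?_
    rw [intervalIntegral.integral_of_le (hlt i).le, integral_Ioc_eq_integral_Ioo,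
      ← integral_Ico_eq_integral_Ioo]
    have h2 : ∀ t ∈ Set.Ico ((i : ℝ) / N) (((i + 1 : ℕ) : ℝ) / N), F N t =
        M (η (i / N)) ((N : ℝ) • (η (((i + 1 : ℕ) : ℝ) / N) - η (i / N))) (i / N) := by
      intro t ht
      have h3 : ⌊(N : ℝ) * t⌋ = (i : ℤ) := by
        rw [Int.floor_eq_iff]
        have h4 := ht.1
        have h5 := ht.2
        rw [div_le_iff₀ hN'] at h4
        rw [lt_div_iff₀ hN'] at h5
        push_cast at h5 ⊢
        constructor <;> linarith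
      simp only [hF, h3]
      push_cast
      rfl
    rw [setIntegral_congr_fun measurableSet_Ico h2, setIntegral_const, smul_eq_mul,
      Real.volume_real_Ico_of_le (hlt i).le, hd]
  have hDCT : Tendsto (fun N : ℕ => ∫ t in (0 : ℝ)..1, F N t) atTop
      (𝓝 (∫ t in (0 : ℝ)..1, M (η t) (deriv η t) t)) := by
    refine intervalIntegral.tendsto_integral_filter_of_dominated_convergence (fun _ => C)
      (Filter.Eventually.of_forall fun N => (hmeas N).aestronglyMeasurable) ?_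
      intervalIntegrable_const ?_
    · filter_upwards [eventually_gt_atTop 0] with N hN
      refine Filter.Eventually.of_forall fun t ht => hbd N hN t ?_
      rw [Set.uIoc_of_le zero_le_one] at ht
      exact ⟨ht.1.le, ht.2⟩
    · have hae : ∀ᵐ t : ℝ, DifferentiableAt ℝ η t := hL.ae_differentiableAt
      filter_upwards [hae] with t hdiff _
      have hfl : ∀ᶠ N : ℕ in atTop, (⌊(N : ℝ) * t⌋ : ℝ) / N ≤ t := by
        filter_upwards [eventually_gt_atTop 0] with N hN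
        have hN' : (0 : ℝ) < N := Nat.cast_pos.2 hN
        rw [div_le_iff₀ hN', mul_comm]
        exact Int.floor_le _
      have hfu : ∀ᶠ N : ℕ in atTop, t ≤ ((⌊(N : ℝ) * t⌋ : ℝ) + 1) / N := by
        filter_upwards [eventually_gt_atTop 0] with N hN
        have hN' : (0 : ℝ) < N := Nat.cast_pos.2 hN
        rw [le_div_iff₀ hN', mul_comm]
        exact (Int.lt_floor_add_one _).le
      have hfd : ∀ᶠ N : ℕ in atTop, ((⌊(N : ℝ) * t⌋ : ℝ) + 1) / N - (⌊(N : ℝ) * t⌋ : ℝ) / N =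
          (N : ℝ)⁻¹ := by
        filter_upwards [eventually_gt_atTop 0] with N hN
        have hN' : (0 : ℝ) < N := Nat.cast_pos.2 hN
        field_simp; ring
      have h1 := lsc_quot hdiff hfl hfu hfd
      have h2 : Tendsto (fun N : ℕ => (⌊(N : ℝ) * t⌋ : ℝ) / N) atTop (𝓝 t) := by
        have h3 : Tendsto (fun N : ℕ => t - (N : ℝ)⁻¹) atTop (𝓝 (t - 0)) :=
          tendsto_const_nhds.sub (tendsto_inv_atTop_nhds_zero_nat (𝕜 := ℝ))
        rw [sub_zero] at h3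
        refine tendsto_of_tendsto_of_tendsto_of_le_of_le' h3 tendsto_const_nhds ?_ hfl
        filter_upwards [hfu, hfd] with N h4 h5
        linarith
      have h3 : Tendsto (fun N : ℕ => (η ((⌊(N : ℝ) * t⌋ : ℝ) / N),
          (N : ℝ) • (η (((⌊(N : ℝ) * t⌋ : ℝ) + 1) / N) - η ((⌊(N : ℝ) * t⌋ : ℝ) / N)),
          (⌊(N : ℝ) * t⌋ : ℝ) / N)) atTop (𝓝 (η t, deriv η t, t)) :=
        ((hηc.tendsto t).comp h2).prodMk_nhds (h1.prodMk_nhds h2)
      exact (hM.tendsto (η t, deriv η t, t)).comp h3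
  refine hDCT.congr' ?_
  filter_upwards [eventually_gt_atTop 0] with N hN
  exact hsum N hN

theorem lsc {M : E n → E n → ℝ → ℝ} (hM : Continuous fun z : E n × E n × ℝ => M z.1 z.2.1 z.2.2)
    (hc : ∀ x t, ConvexOn ℝ Set.univ fun v => M x v t) {ρ : ℝ} (hρ : 0 ≤ ρ) {δ : ℕ → ℝ → E n}
    {η : ℝ → E n} (hδ : ∀ k, Lip ρ (δ k)) (hη : Lip ρ η)
    (hlim : ∀ t, Tendsto (fun k => δ k t) atTop (𝓝 (η t))) {m : ℝ}
    (hm : Tendsto (fun k => ∫ t in (0 : ℝ)..1, M (δ k t) (deriv (δ k) t) t) atTop (𝓝 m)) :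
    ∫ t in (0 : ℝ)..1, M (η t) (deriv η t) t ≤ m := by
  refine le_of_forall_pos_le_add fun ε hε => ?_
  obtain ⟨N₀, hN₀⟩ := lsc_unif hM hρ hδ hη hlim hε
  refine le_of_tendsto (lsc_lim hM hρ hη) ?_
  filter_upwards [eventually_ge_atTop N₀] with N hN
  obtain ⟨hN1, hev⟩ := hN₀ N hN
  rw [← sub_le_iff_le_add]
  have h1 : Tendsto (fun k => ∑ i ∈ Finset.range N, (N : ℝ)⁻¹ *
      M (η (i / N)) ((N : ℝ) • (δ k (((i + 1 : ℕ) : ℝ) / N) - δ k (i / N))) (i / N) - ε) atTop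
      (𝓝 (∑ i ∈ Finset.range N, (N : ℝ)⁻¹ *
        M (η (i / N)) ((N : ℝ) • (η (((i + 1 : ℕ) : ℝ) / N) - η (i / N))) (i / N) - ε)) := by
    refine Tendsto.sub_const (tendsto_finsetSum _ fun i _ => Tendsto.const_mul _ ?_) _
    have h2 : Continuous fun v => M (η ((i : ℝ) / N)) v ((i : ℝ) / N) :=
      hM.comp (continuous_const.prodMk (continuous_id.prodMk continuous_const))
    exact (h2.tendsto _).comp (((hlim _).sub (hlim _)).const_smul _)
  refine le_of_tendsto_of_tendsto h1 hm ?_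
  filter_upwards [hev] with k hk
  exact lsc_low hM hc hρ (hδ k) hN1 hk

end Pool.Agent.H68.TG
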