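import Pool.Agent.H68.TG.Def
import Pool.Agent.H68.TG.La

/-!
# Module Ltm: dependence of the auxiliary Lagrangian on the time
Let `w` be a minimizer at `(x, v, s)` (`ls_at`), `u = v - w`: `Ls(t) - Ls(s) ≤ L x w t - L x w s` (`ls_le` at `t` with the same `w`). Case
`‖u‖ < U`: for small `λ > 0`, `‖u + λ w‖ ≤ U` and `L(w) + Q(u) ≤ L((1 - λ) w) + Q(u + λ w) ≤ (1 - λ) L(w) + λ L(0) + Q(u) + P λ ‖w‖`
(`sconv`), so `L(w) ≤ L(0) + P‖w‖`, `‖w‖ ≤ W₁`, difference `≤ K |t - s| ≤ K |t - s| (D + Ls)` as `Ls ≥ -B` (`Qf ≥ 0`), `D + Ls ≥ 1`. Case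
`‖u‖ ≥ U`: `L(w) ≤ L(0) + (P + S)‖w‖` (`qf_lip`), so `‖w‖ ≤ W₂`, difference `≤ κ₂ |t - s|`, and `D + Ls ≥ 1 + P U`.
-/

set_option autoImplicit false

open MeasureTheory Filter
open scoped RealInnerProductSpace Topology

namespace Pool.Agent.H68.TG

open Pool.Agent.H33.AM (E Tor pr IsPeriodic IsEL)
open Pool.Agent.H68.HD
open Pool.Agent.H68.TO (Slow Cst md)

variable {n : ℕ}

private theorem ltm_near {L : E n → E n → ℝ → ℝ} (hL : Ton L) {P S U : ℝ} (hP : 0 ≤ P) (hS : 0 ≤ S)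
    {x v w : E n} {s : ℝ} (hw : Mi L P S U x v s w) (hu : ‖v - w‖ < U) :
    L x w s ≤ L x 0 s + P * ‖w‖ := by
  obtain ⟨l, hl0, hl1, hl⟩ : ∃ l : ℝ, 0 < l ∧ l ≤ 1 ∧ l * ‖w‖ ≤ U - ‖v - w‖ := by
    have h1 : 0 < ‖w‖ + 1 := by positivity
    have h2 : 0 < U - ‖v - w‖ := by linarith
    refine ⟨min 1 ((U - ‖v - w‖) / (‖w‖ + 1)), lt_min one_pos (div_pos h2 h1), min_le_left _ _, ?_⟩
    calc min 1 ((U - ‖v - w‖) / (‖w‖ + 1)) * ‖w‖ ≤ (U - ‖v - w‖) / (‖w‖ + 1) * (‖w‖ + 1) := by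
          refine mul_le_mul (min_le_right _ _) (by linarith) (norm_nonneg _) (by positivity)
      _ = U - ‖v - w‖ := div_mul_cancel₀ _ h1.ne'
  have h1 := ls_le hL hP hS U x v ((1 - l) • w) s
  rw [hw] at h1
  have h2 : v - (1 - l) • w = (v - w) + l • w := by
    rw [sub_smul, one_smul]
    abel
  rw [h2] at h1
  have h3 : ‖(v - w) + l • w‖ ≤ ‖v - w‖ + l * ‖w‖ := by
    refine (norm_add_le _ _).trans ?_
    rw [norm_smul, Real.norm_eq_abs, abs_of_pos hl0]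
  have h4 : Qf P S U ((v - w) + l • w) ≤ P * (‖v - w‖ + l * ‖w‖) := by
    unfold Qf
    rw [max_eq_right (by linarith : ‖(v - w) + l • w‖ - U ≤ 0), mul_zero, add_zero]
    exact mul_le_mul_of_nonneg_left h3 hP
  have h5 : Qf P S U (v - w) = P * ‖v - w‖ := by
    unfold Qf
    rw [max_eq_right (by linarith : ‖v - w‖ - U ≤ 0), mul_zero, add_zero]
  have h6 : L x ((1 - l) • w) s ≤ (1 - l) * L x w s + l * L x 0 s := by
    have h7 := (sconv hL x s).convexOn.2 (Set.mem_univ w) (Set.mem_univ (0 : E n))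
      (by linarith : (0 : ℝ) ≤ 1 - l) hl0.le (by ring : (1 - l) + l = 1)
    simpa using h7
  have h8 : l * L x w s ≤ l * (L x 0 s + P * ‖w‖) := by nlinarith [h1, h4, h5, h6]
  exact le_of_mul_le_mul_left h8 hl0

private theorem ltm_far {L : E n → E n → ℝ → ℝ} (hL : Ton L) {P S U : ℝ} (hP : 0 ≤ P) (hS : 0 ≤ S)
    {x v w : E n} {s : ℝ} (hw : Mi L P S U x v s w) :
    L x w s ≤ L x 0 s + (P + S) * ‖w‖ := by
  have h1 := ls_le hL hP hS U x v 0 s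
  rw [hw] at h1
  have h2 := qf_lip hP hS U (v - 0) (v - w)
  have h3 : ‖(v - 0) - (v - w)‖ = ‖w‖ := by
    congr 1
    abel
  rw [h3] at h2
  linarith

theorem ls_time {L : E n → E n → ℝ → ℝ} (hL : Ton L) {P S U K D B W₁ W₂ κ₂ : ℝ} (hP : 0 ≤ P)
    (hS : 0 ≤ S) (hK : 0 ≤ K) (hlo : ∀ x v t, -B ≤ L x v t) (hD : B + 1 ≤ D)
    (hW₁ : ∀ x w t, L x w t ≤ L x 0 t + P * ‖w‖ → ‖w‖ ≤ W₁)
    (hW₂ : ∀ x w t, L x w t ≤ L x 0 t + (P + S) * ‖w‖ → ‖w‖ ≤ W₂)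
    (hκ₁ : ∀ x w t s, ‖w‖ ≤ W₁ → |L x w t - L x w s| ≤ K * |t - s|)
    (hκ₂ : ∀ x w t s, ‖w‖ ≤ W₂ → |L x w t - L x w s| ≤ κ₂ * |t - s|)
    (hU : κ₂ ≤ K * (P * U)) (x v : E n) (t s : ℝ) :
    Ls L P S U x v t - Ls L P S U x v s ≤ K * |t - s| * (D + Ls L P S U x v s) := by
  obtain ⟨w, hw⟩ := ls_at hL hP hS U x v s
  have h1 := ls_le hL hP hS U x v w t
  have hw' : Ls L P S U x v s = L x w s + Qf P S U (v - w) := hw
  have hq : P * ‖v - w‖ ≤ Qf P S U (v - w) := by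
    unfold Qf
    have := mul_nonneg hS (le_max_right (‖v - w‖ - U) 0)
    linarith
  have hq0 : 0 ≤ P * ‖v - w‖ := mul_nonneg hP (norm_nonneg _)
  have h2 : 1 + Qf P S U (v - w) ≤ D + Ls L P S U x v s := by
    rw [hw']
    linarith [hlo x w s]
  have h3 : Ls L P S U x v t - Ls L P S U x v s ≤ L x w t - L x w s := by
    rw [hw']
    linarith
  have hts : 0 ≤ |t - s| := abs_nonneg _
  refine h3.trans ((le_abs_self _).trans ?_)
  rcases lt_or_ge ‖v - w‖ U with hu | hu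
  · refine (hκ₁ x w t s (hW₁ x w s (ltm_near hL hP hS hw hu))).trans ?_
    exact le_mul_of_one_le_right (mul_nonneg hK hts) (by linarith)
  · refine (hκ₂ x w t s (hW₂ x w s (ltm_far hL hP hS hw))).trans ?_
    calc κ₂ * |t - s| ≤ K * (P * U) * |t - s| := mul_le_mul_of_nonneg_right hU hts
      _ = K * |t - s| * (P * U) := by ring
      _ ≤ K * |t - s| * (D + Ls L P S U x v s) := by
          refine mul_le_mul_of_nonneg_left ?_ (mul_nonneg hK hts)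
          have := mul_le_mul_of_nonneg_left hu hP
          linarith

end Pool.Agent.H68.TG
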