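import Pool.Agent.H68.TG.Def
import Pool.Agent.H68.TO.Step

/-!
# Module StB: replacement by a Lipschitz curve with the same end points
-/

set_option autoImplicit false

open MeasureTheory Filter
open scoped RealInnerProductSpace Topology

namespace Pool.Agent.H68.TG

open Pool.Agent.H33.AM (E Tor pr IsPeriodic IsEL)
open Pool.Agent.H68.HD
open Pool.Agent.H68.TO

variable {n : ℕ}

theorem stb {M : E n → E n → ℝ → ℝ} {R B K D C₀ C₁ C₂ C₃ e₀ e V ρ : ℝ}
    (hM : Slow M R B K D C₀ e₀ e V ρ) (hC : Cst n R B K D C₀ C₁ C₂ C₃ e₀ e V ρ) {c : E n}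
    (hc : ‖c‖ ≤ R) {a r : ℝ} {γ : ℝ → E n} (h : Crv M c a 1 γ r) (hr : r ≤ C₂ + a) :
    ∃ (δ : ℝ → E n) (r' : ℝ), Crv M c a 1 δ r' ∧ r' ≤ r ∧ δ 0 = γ 0 ∧ δ 1 = γ 1 ∧ Lip ρ δ := by
  have hρ0 : 0 ≤ ρ := le_trans zero_le_one hC.hρ1
  obtain ⟨hI1, hI2, hI3, hI4, hI5⟩ := pre hM hC hc h hr
  obtain ⟨θ, τ, hτ0, hθ⟩ := tht (g := fun t => ‖deriv γ t‖) (measurable_deriv γ).norm hI2
    (fun t => norm_nonneg _) hI3 hC.hC₁ hC.hV hC.hρC hC.hρV
  obtain ⟨T, S, hT, hTu⟩ := tim hθ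
  have hac : AbsolutelyContinuousOnInterval γ 0 1 := by
    have h1 := h.ac
    rwa [Nat.cast_one] at h1
  obtain ⟨δ, hδ0, hδ1, hδL, hδae⟩ := cur hac hρ0 hθ hT
  refine ⟨δ, _, lpi_crv hM.cont hρ0 hδL c a, ?_, hδ0, hδ1, hδL⟩
  rw [hI5, hδ0, hδ1]
  suffices hmain : ∫ t in (0 : ℝ)..1, M (δ t) (deriv δ t) t ≤
      ∫ t in (0 : ℝ)..1, M (γ t) (deriv γ t) t by linarith
  obtain ⟨hJ1, hJ2⟩ := cov hT hθ.meas hθ.lo (lpi_int hM.cont hρ0 hδL)
  rw [hJ2]
  set I : ℝ := ∫ t in (0 : ℝ)..1, M (γ t) (deriv γ t) t with hI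
  -- the lower bound of the action
  have hlow : -B ≤ I := by
    have h1 : ∫ _t in (0 : ℝ)..1, (-B) = -B := by
      rw [intervalIntegral.integral_const]
      simp
    rw [← h1, hI]
    refine intervalIntegral.integral_mono_on zero_le_one intervalIntegrable_const hI1
      fun t _ => ?_
    have h2 := hM.lo (γ t) (deriv γ t) t
    have h3 : 0 ≤ (R + 1) * ‖deriv γ t‖ :=
      mul_nonneg (by linarith [hC.hR]) (norm_nonneg _)
    linarith
  -- integrability
  have hd1 : IntervalIntegrable (fun t => max (1 - θ t) 0) volume 0 1 := by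
    have h1 : IntervalIntegrable (fun t => 1 - θ t) volume 0 1 :=
      (intervalIntegrable_const (c := (1 : ℝ))).sub hθ.int
    exact ⟨h1.1.pos_part, h1.2.pos_part⟩
  have hd2 : IntervalIntegrable (fun t => max (θ t - 1) 0) volume 0 1 := by
    have h1 : IntervalIntegrable (fun t => θ t - 1) volume 0 1 :=
      hθ.int.sub (intervalIntegrable_const (c := (1 : ℝ)))
    exact ⟨h1.1.pos_part, h1.2.pos_part⟩
  have hF1 : IntervalIntegrable (fun t => M (γ t) (deriv γ t) t + e₀ * max (1 - θ t) 0) volume 0 1 :=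
    hI1.add (hd1.const_mul e₀)
  have hF2 : IntervalIntegrable (fun t => M (γ t) (deriv γ t) t + e₀ * max (1 - θ t) 0 -
      e * max (θ t - 1) 0) volume 0 1 := hF1.sub (hd2.const_mul e)
  have hF3 : IntervalIntegrable (fun t => (1 + K * τ) * (M (γ t) (deriv γ t) t +
      e₀ * max (1 - θ t) 0 - e * max (θ t - 1) 0)) volume 0 1 := hF2.const_mul _
  have hF4 : IntervalIntegrable (fun t => K * τ * D * θ t) volume 0 1 := hθ.int.const_mul _
  have hle : ∫ u in (0 : ℝ)..1, θ u * M (δ (T u)) (deriv δ (T u)) (T u) ≤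
      ∫ u in (0 : ℝ)..1, ((1 + K * τ) * (M (γ u) (deriv γ u) u +
        e₀ * max (1 - θ u) 0 - e * max (θ u - 1) 0) + K * τ * D * θ u) := by
    refine intervalIntegral.integral_mono_ae_restrict zero_le_one hJ1 (hF3.add hF4) ?_
    refine (ae_restrict_iff' measurableSet_Icc).2 ?_
    filter_upwards [hδae] with u hu hu'
    obtain ⟨h1, h2⟩ := hu hu'
    show θ u * M (δ (T u)) (deriv δ (T u)) (T u) ≤ _
    rw [h1, h2]
    exact ineq hM hC (γ u) (deriv γ u) (hθ.lo u) (hθ.fast u hu') (hθ.slow u hu') (hTu u hu')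
  refine hle.trans ?_
  rw [intervalIntegral.integral_add hF3 hF4, intervalIntegral.integral_const_mul,
    intervalIntegral.integral_const_mul, intervalIntegral.integral_sub hF1 (hd2.const_mul e),
    intervalIntegral.integral_add hI1 (hd1.const_mul e₀), intervalIntegral.integral_const_mul,
    intervalIntegral.integral_const_mul, hθ.one, hθ.up, hθ.dn, ← hI]
  have h1 := hC.he
  have h2 := hC.hK
  have h3 := hC.hD
  have h4 : K * (I + D) ≤ K * (C₃ + D) := mul_le_mul_of_nonneg_left (by linarith) h2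
  have h5 : 0 ≤ K * (I + D) := mul_nonneg h2 (by linarith)
  have h6 : τ * (K * (I + D)) ≤ τ * (e - e₀) := mul_le_mul_of_nonneg_left (by linarith) hτ0
  have h7 : 0 ≤ K * τ * (τ * (e - e₀)) :=
    mul_nonneg (mul_nonneg h2 hτ0) (mul_nonneg hτ0 (by linarith))
  nlinarith

end Pool.Agent.H68.TG
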