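import Pool.Agent.H68.TG.Def
import Pool.Agent.H68.TG.StB
import Pool.Agent.H68.TG.Lsc
import Pool.Agent.H68.TG.Arz
import Pool.Agent.H68.TO.LpI

/-!
# Module Mex: existence of a Lipschitz minimizer with fixed end points
`m` = infimum of `∫ M(η, η', t)` over all Lipschitz `η` with the end points of `γ` (nonempty by `stb`, bounded below by `-B`). A
minimizing sequence may be taken with action at most that of the curve of `stb` for `γ`; each member is a `Crv` (`lpi_crv`) with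
action `≤ r ≤ C₂ + a`; replace it by a `ρ`-Lipschitz curve (`stb`). `arz`, `lsc`; end points pass to the limit. `∫ M = r - a + ⟪c, γ 1 - γ 0⟫`
compares the actions of curves with the same end points.
-/

set_option autoImplicit false

open MeasureTheory Filter
open scoped RealInnerProductSpace Topology

namespace Pool.Agent.H68.TG

open Pool.Agent.H33.AM (E Tor pr IsPeriodic IsEL)
open Pool.Agent.H68.HD
open Pool.Agent.H68.TO (Slow Cst md)

variable {n : ℕ}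

/-- the action of a Lipschitz curve is at least `-B` -/
private theorem mex_low {M : E n → E n → ℝ → ℝ} {R B K D C₀ C₁ C₂ C₃ e₀ e V ρ : ℝ}
    (hM : Slow M R B K D C₀ e₀ e V ρ) (hC : Cst n R B K D C₀ C₁ C₂ C₃ e₀ e V ρ)
    {η : ℝ → E n} {ρ' : ℝ} (hρ : 0 ≤ ρ') (hη : Lip ρ' η) :
    -B ≤ ∫ t in (0 : ℝ)..1, M (η t) (deriv η t) t := by
  have h1 : ∫ _t in (0 : ℝ)..1, (-B) = -B := by
    rw [intervalIntegral.integral_const]
    simp
  rw [← h1]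
  refine intervalIntegral.integral_mono_on zero_le_one intervalIntegrable_const
    (TO.lpi_int hM.cont hρ hη) fun t _ => ?_
  have h2 := hM.lo (η t) (deriv η t) t
  have h3 : 0 ≤ (R + 1) * ‖deriv η t‖ :=
    mul_nonneg (by linarith [hC.hR]) (norm_nonneg _)
  linarith

theorem mex {M : E n → E n → ℝ → ℝ} {R B K D C₀ C₁ C₂ C₃ e₀ e V ρ : ℝ}
    (hM : Slow M R B K D C₀ e₀ e V ρ) (hC : Cst n R B K D C₀ C₁ C₂ C₃ e₀ e V ρ)
    (hcv : ∀ x t, ConvexOn ℝ Set.univ fun v => M x v t) {c : E n}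
    (hc : ‖c‖ ≤ R) {a r : ℝ} {γ : ℝ → E n} (h : Crv M c a 1 γ r) (hr : r ≤ C₂ + a) :
    ∃ (δ : ℝ → E n) (r' : ℝ), Crv M c a 1 δ r' ∧ r' ≤ r ∧ δ 0 = γ 0 ∧ δ 1 = γ 1 ∧ Lip ρ δ ∧
      ∀ (η : ℝ → E n) (ρ' : ℝ), 0 ≤ ρ' → Lip ρ' η → η 0 = γ 0 → η 1 = γ 1 →
        ∫ t in (0 : ℝ)..1, M (δ t) (deriv δ t) t ≤ ∫ t in (0 : ℝ)..1, M (η t) (deriv η t) t := by
  have hρ0 : 0 ≤ ρ := le_trans zero_le_one hC.hρ1
  -- the action
  set A : (ℝ → E n) → ℝ := fun η => ∫ t in (0 : ℝ)..1, M (η t) (deriv η t) t with hA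
  -- the curve of `stb` for `γ`
  obtain ⟨δ₀, r₀, hcr0, hr0, h00, h01, hL0⟩ := stb hM hC hc h hr
  have hA0 : r₀ = A δ₀ - ⟪c, δ₀ 1 - δ₀ 0⟫ + a := (TO.pre hM hC hc hcr0 (hr0.trans hr)).2.2.2.2
  rw [h00, h01] at hA0
  -- the set of the actions
  set S : Set ℝ := {s | ∃ (η : ℝ → E n) (ρ' : ℝ), 0 ≤ ρ' ∧ Lip ρ' η ∧ η 0 = γ 0 ∧ η 1 = γ 1 ∧
    A η = s} with hS
  have hne : S.Nonempty := ⟨A δ₀, δ₀, ρ, hρ0, hL0, h00, h01, rfl⟩
  have hbd : BddBelow S := by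
    refine ⟨-B, ?_⟩
    rintro s ⟨η, ρ', hρ', hη, _, _, rfl⟩
    exact mex_low hM hC hρ' hη
  -- a minimizing sequence of `ρ`-Lipschitz curves
  have hex : ∀ k : ℕ, ∃ δ : ℝ → E n, Lip ρ δ ∧ δ 0 = γ 0 ∧ δ 1 = γ 1 ∧
      A δ < sInf S + 1 / ((k : ℝ) + 1) := by
    intro k
    have hk : sInf S < sInf S + 1 / ((k : ℝ) + 1) := by
      have : (0 : ℝ) < 1 / ((k : ℝ) + 1) := by positivity
      linarith
    obtain ⟨s, ⟨η, ρ', hρ', hη, hη0, hη1, rfl⟩, hs⟩ := exists_lt_of_csInf_lt hne hk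
    rcases le_total (A η) (A δ₀) with hle | hle
    · have hcr := TO.lpi_crv hM.cont hρ' hη c a
      have hrr : (∫ t in (0 : ℝ)..1, M (η t) (deriv η t) t) - ⟪c, η 1 - η 0⟫ + a ≤ r₀ := by
        rw [hA0, hη0, hη1]
        have : (∫ t in (0 : ℝ)..1, M (η t) (deriv η t) t) ≤ A δ₀ := hle
        linarith
      obtain ⟨δ, r₁, hcr1, hr1, h10, h11, hL1⟩ := stb hM hC hc hcr (hrr.trans (hr0.trans hr))
      have hA1 : r₁ = A δ - ⟪c, δ 1 - δ 0⟫ + a :=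
        (TO.pre hM hC hc hcr1 (hr1.trans (hrr.trans (hr0.trans hr)))).2.2.2.2
      refine ⟨δ, hL1, h10.trans hη0, h11.trans hη1, ?_⟩
      have h12 : A δ ≤ A η := by
        rw [hA1, h10, h11] at hr1
        have : A η = ∫ t in (0 : ℝ)..1, M (η t) (deriv η t) t := rfl
        linarith
      exact h12.trans_lt hs
    · exact ⟨δ₀, hL0, h00, h01, hle.trans_lt hs⟩
  choose δ hδL hδ0 hδ1 hδA using hex
  obtain ⟨φ, hφ, η, hηL, hlim⟩ := arz hρ0 hδL hδ0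
  have hη0 : η 0 = γ 0 := by
    have h1 : Tendsto (fun k => δ (φ k) 0) atTop (𝓝 (γ 0)) := by
      have : (fun k => δ (φ k) 0) = fun _ => γ 0 := funext fun k => hδ0 (φ k)
      rw [this]
      exact tendsto_const_nhds
    exact tendsto_nhds_unique (hlim 0) h1
  have hη1 : η 1 = γ 1 := by
    have h1 : Tendsto (fun k => δ (φ k) 1) atTop (𝓝 (γ 1)) := by
      have : (fun k => δ (φ k) 1) = fun _ => γ 1 := funext fun k => hδ1 (φ k)
      rw [this]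
      exact tendsto_const_nhds
    exact tendsto_nhds_unique (hlim 1) h1
  have hAlim : Tendsto (fun k => A (δ (φ k))) atTop (𝓝 (sInf S)) := by
    have h1 : Tendsto (fun k : ℕ => sInf S + 1 / ((k : ℝ) + 1)) atTop (𝓝 (sInf S)) := by
      have := (tendsto_one_div_add_atTop_nhds_zero_nat (𝕜 := ℝ)).const_add (sInf S)
      rwa [add_zero] at this
    have h2 : Tendsto (fun k : ℕ => sInf S + 1 / (((φ k : ℕ) : ℝ) + 1)) atTop (𝓝 (sInf S)) :=
      h1.comp hφ.tendsto_atTop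
    refine tendsto_of_tendsto_of_tendsto_of_le_of_le tendsto_const_nhds h2 ?_ ?_
    · intro k
      exact csInf_le hbd ⟨δ (φ k), ρ, hρ0, hδL _, hδ0 _, hδ1 _, rfl⟩
    · intro k
      exact (hδA (φ k)).le
  have hηA : A η ≤ sInf S := lsc hM.cont hcv hρ0 (fun k => hδL (φ k)) hηL hlim hAlim
  refine ⟨η, _, TO.lpi_crv hM.cont hρ0 hηL c a, ?_, hη0, hη1, hηL, ?_⟩
  · rw [hη0, hη1]
    refine le_trans ?_ hr0
    rw [hA0]
    have h1 : A η ≤ A δ₀ := hηA.trans (csInf_le hbd ⟨δ₀, ρ, hρ0, hL0, h00, h01, rfl⟩)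
    have h2 : A η = ∫ t in (0 : ℝ)..1, M (η t) (deriv η t) t := rfl
    linarith
  · intro ζ ρ' hρ' hζ hζ0 hζ1
    exact hηA.trans (csInf_le hbd ⟨ζ, ρ', hρ', hζ, hζ0, hζ1, rfl⟩)

end Pool.Agent.H68.TG
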