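import Pool.Agent.H68.TG.Def
import Pool.Agent.H68.TG.Inv
import Pool.Agent.H68.TG.Leq

/-!
# Module Mom: the continuous momentum
`p t = q + ∫_0^t Lx(δ, w, s) ds`, `w' t = Vi L (δ t) (p t) t`: continuous (`vi_cont`; outside `[0, 1]` irrelevant), `Lv L (δ t) (w' t) t = p t` (`vi_spec`), and
`w' = w` a.e. on `[0, 1]` (`hq`, `vi_uniq`), so `p t = q + ∫_0^t Lx(δ, w', s) ds` on `[0, 1]` with a continuous integrand: `dp` (fundamental theorem on
`Icc 0 1`). `small`: `mi_eq`. `slow`: if `‖δ'‖ ≤ ρ` then `‖Lv(δ, δ', t)‖ < P`, `ls_eq`, so `δ'` is a minimizer, `mi_uniq`.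
-/

set_option autoImplicit false

open MeasureTheory Filter
open scoped RealInnerProductSpace Topology

namespace Pool.Agent.H68.TG

open Pool.Agent.H33.AM (E Tor pr IsPeriodic IsEL)
open Pool.Agent.H68.HD
open Pool.Agent.H68.TO (Slow Cst md)

variable {n : ℕ}

private theorem Mom_cont {δ : ℝ → E n} {ρs : ℝ} (hρs : 0 ≤ ρs) (hδ : Lip ρs δ) :
    Continuous δ := by
  have h : LipschitzWith (Real.toNNReal ρs) δ := by
    refine LipschitzWith.of_dist_le_mul fun x y => ?_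
    rw [dist_eq_norm, Real.dist_eq, Real.coe_toNNReal _ hρs]
    exact hδ y x
  exact h.continuous

private theorem Mom_int {L : E n → E n → ℝ → ℝ} (hL : Ton L) {δ w : ℝ → E n} {W : ℝ}
    (hδ : Continuous δ) (hw : Measurable w) (hwb : ∀ t, ‖w t‖ ≤ W) :
    IntegrableOn (fun s => Lx L (δ s) (w s) s) (Set.Icc (0 : ℝ) 1) volume := by
  have hm : Measurable fun s : ℝ => Lx L (δ s) (w s) s :=
    (lx_cont hL).measurable.comp (hδ.measurable.prodMk (hw.prodMk measurable_id))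
  obtain ⟨R, hR⟩ := (isCompact_Icc (a := (0 : ℝ)) (b := 1)).exists_bound_of_continuousOn
    hδ.continuousOn
  have hK : IsCompact (Metric.closedBall (0 : E n) R ×ˢ
      (Metric.closedBall (0 : E n) W ×ˢ Set.Icc (0 : ℝ) 1)) :=
    (isCompact_closedBall _ _).prod ((isCompact_closedBall _ _).prod isCompact_Icc)
  obtain ⟨C, hC⟩ := hK.exists_bound_of_continuousOn (lx_cont hL).continuousOn
  refine Integrable.mono' (g := fun _ => C) ?_ hm.aestronglyMeasurable ?_
  · exact integrableOn_const (by simp) (by simp)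
  · refine (ae_restrict_iff' measurableSet_Icc).2 (Eventually.of_forall fun s hs => ?_)
    exact hC (δ s, w s, s) ⟨by simpa using hR s hs, by simpa using hwb s, hs⟩

theorem mom {L : E n → E n → ℝ → ℝ} (hL : Ton L) {P S U ρ : ℝ} (hP : 0 ≤ P) (hS : 0 ≤ S)
    (hU : 0 ≤ U) (hρ : ∀ x v t, ‖v‖ ≤ ρ → ‖Lv L x v t‖ < P) {δ w : ℝ → E n} {ρs W : ℝ}
    (hρs : 0 ≤ ρs) (hδ : Lip ρs δ) (hw : Measurable w) (hwb : ∀ t, ‖w t‖ ≤ W)
    (hmi : ∀ t, Mi L P S U (δ t) (deriv δ t) t (w t)) {q : E n}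
    (hq : ∀ᵐ t : ℝ, t ∈ Set.Icc (0 : ℝ) 1 →
      Lv L (δ t) (w t) t = q + ∫ s in (0 : ℝ)..t, Lx L (δ s) (w s) s) :
    ∃ w' : ℝ → E n, Mo L P ρ δ w' := by
  have hδc := Mom_cont hρs hδ
  have hint := Mom_int hL hδc hw hwb
  set p : ℝ → E n := fun t => q + ∫ s in (0 : ℝ)..t, Lx L (δ s) (w s) s with hp
  have hpc : ContinuousOn p (Set.Icc (0 : ℝ) 1) := by
    have h1 : ContinuousOn (fun t => ∫ s in (0 : ℝ)..t, Lx L (δ s) (w s) s) (Set.uIcc (0 : ℝ) 1) := by
      refine intervalIntegral.continuousOn_primitive_interval ?_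
      rwa [Set.uIcc_of_le zero_le_one]
    rw [Set.uIcc_of_le zero_le_one] at h1
    exact continuousOn_const.add h1
  set w' : ℝ → E n := fun t => Vi L (δ t) (p t) t with hw'
  have hwc : ContinuousOn w' (Set.Icc (0 : ℝ) 1) := by
    have h1 : ContinuousOn (fun t : ℝ => ((δ t, p t, t) : E n × E n × ℝ)) (Set.Icc (0 : ℝ) 1) :=
      hδc.continuousOn.prodMk (hpc.prodMk continuousOn_id)
    exact (vi_cont hL).comp_continuousOn h1
  have hsp : ∀ t, Lv L (δ t) (w' t) t = p t := fun t => vi_spec hL _ _ _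
  have hae : ∀ᵐ t : ℝ, t ∈ Set.Icc (0 : ℝ) 1 → w t = w' t := by
    filter_upwards [hq] with t ht h1
    exact vi_uniq hL (ht h1)
  have hcl : Continuous fun c : ℝ => max (0 : ℝ) (min c 1) := by fun_prop
  have hcm : ∀ c : ℝ, max (0 : ℝ) (min c 1) ∈ Set.Icc (0 : ℝ) 1 := fun c =>
    ⟨le_max_left _ _, max_le zero_le_one (min_le_right _ _)⟩
  have hce : ∀ c ∈ Set.Icc (0 : ℝ) 1, max (0 : ℝ) (min c 1) = c := fun c hc => by
    rw [min_eq_left hc.2, max_eq_right hc.1]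
  set h : ℝ → E n := fun c => Lx L (δ (max (0 : ℝ) (min c 1))) (w' (max (0 : ℝ) (min c 1)))
    (max (0 : ℝ) (min c 1)) with hh
  have hhc : Continuous h := by
    have h1 : Continuous fun c : ℝ => w' (max (0 : ℝ) (min c 1)) :=
      hwc.comp_continuous hcl hcm
    exact (lx_cont hL).comp ((hδc.comp hcl).prodMk (h1.prodMk hcl))
  have hpe : ∀ t ∈ Set.Icc (0 : ℝ) 1, p t = q + ∫ s in (0 : ℝ)..t, h s := by
    intro t ht
    simp only [hp]
    congr 1
    refine intervalIntegral.integral_congr_ae ?_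
    filter_upwards [hae] with s hs h1
    rw [Set.uIoc_of_le ht.1] at h1
    have h2 : s ∈ Set.Icc (0 : ℝ) 1 := ⟨h1.1.le, h1.2.trans ht.2⟩
    simp only [hh]
    rw [hce s h2, hs h2]
  refine ⟨w', hwc, fun t ht => ?_, ?_, ?_⟩
  · have h1 : HasDerivAt (fun u => q + ∫ s in (0 : ℝ)..u, h s) (h t) t :=
      (hhc.integral_hasStrictDerivAt 0 t).hasDerivAt.const_add q
    have h2 : h t = Lx L (δ t) (w' t) t := by
      simp only [hh]
      rw [hce t ht]
    rw [h2] at h1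
    refine h1.hasDerivWithinAt.congr (fun s hs => ?_) ?_
    · rw [hsp, hpe s hs]
    · rw [hsp, hpe t ht]
  · filter_upwards [hae] with t h1 ht h2
    rw [← h1 ht] at h2 ⊢
    exact (mi_eq hL hP hS (hmi t) h2).symm
  · filter_upwards [hae] with t h1 ht h2
    rw [← h1 ht]
    refine mi_uniq hL hP hS (?_ : Mi L P S U (δ t) (deriv δ t) t (deriv δ t)) (hmi t)
    have h3 := ls_eq hL (P := P) hS hU (x := δ t) (v := deriv δ t) (t := t) (hρ _ _ _ h2).le
    unfold Mi
    rw [h3]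
    have h4 : Qf P S U (deriv δ t - deriv δ t) = 0 := by
      unfold Qf
      rw [sub_self, norm_zero, mul_zero, zero_sub, max_eq_right (neg_nonpos.2 hU), mul_zero,
        add_zero]
    rw [h4, add_zero]

end Pool.Agent.H68.TG
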