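import Pool.Agent.H68.TG.Def
import Pool.Agent.H68.TG.La
import Pool.Agent.H68.TG.Leq

/-!
# Module Wst: the minimizer depends continuously on (x, v, t)
`g (x, v, t)` = the minimizer (`ls_at`, unique by `mi_uniq`, in the ball of `mi_bd`). Continuity: sequences `z_k → z`, `g(z_k)` in a compact
ball; every cluster point `w` satisfies `L(w) + Q(v - w) ≤ L(w') + Q(v - w')` for all `w'`, so is the minimizer at `z`
(`Mi` from the inequality for all `w'`: `le_ciInf`); a bounded sequence with only one cluster point converges.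
-/

set_option autoImplicit false

open MeasureTheory Filter
open scoped RealInnerProductSpace Topology

namespace Pool.Agent.H68.TG

open Pool.Agent.H33.AM (E Tor pr IsPeriodic IsEL)
open Pool.Agent.H68.HD
open Pool.Agent.H68.TO (Slow Cst md)

variable {n : ℕ}

private theorem wst_qf_cont (P S U : ℝ) : Continuous (Qf P S U : E n → ℝ) := by
  unfold Qf
  exact (continuous_const.mul continuous_norm).add
    (continuous_const.mul ((continuous_norm.sub continuous_const).max continuous_const))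

private theorem wst_cont {L : E n → E n → ℝ → ℝ} (hL : Ton L) (P S U : ℝ) :
    Continuous fun z : (E n × E n × ℝ) × E n =>
      L z.1.1 z.2 z.1.2.2 + Qf P S U (z.1.2.1 - z.2) := by
  have h1 : Continuous fun z : (E n × E n × ℝ) × E n => (z.1.1, z.2, z.1.2.2) :=
    (continuous_fst.comp continuous_fst).prodMk
      (continuous_snd.prodMk (continuous_snd.comp (continuous_snd.comp continuous_fst)))
  have h2 : Continuous fun z : (E n × E n × ℝ) × E n => z.1.2.1 - z.2 :=
    (continuous_fst.comp (continuous_snd.comp continuous_fst)).sub continuous_snd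
  exact (hL.smooth.continuous.comp h1).add ((wst_qf_cont P S U).comp h2)

theorem wst {L : E n → E n → ℝ → ℝ} (hL : Ton L) {P S : ℝ} (hP : 0 ≤ P) (hS : 0 ≤ S) (U : ℝ) :
    ∃ g : E n × E n × ℝ → E n, Continuous g ∧ ∀ x v t, Mi L P S U x v t (g (x, v, t)) := by
  choose g hg using fun z : E n × E n × ℝ => ls_at hL hP hS U z.1 z.2.1 z.2.2
  obtain ⟨W, hW⟩ := mi_bd hL hP hS U
  refine ⟨g, ?_, fun x v t => hg (x, v, t)⟩
  rw [continuous_iff_continuousAt]
  intro z
  refine tendsto_of_subseq_tendsto fun ns hns => ?_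
  have hb : ∀ k, g (ns k) ∈ Metric.closedBall (0 : E n) W := fun k => by
    rw [mem_closedBall_zero_iff]
    exact hW _ _ _ _ (hg (ns k))
  obtain ⟨a, _, φ, hφ, ha⟩ := (isCompact_closedBall (0 : E n) W).tendsto_subseq hb
  have hz : Tendsto (fun k => ns (φ k)) atTop (𝓝 z) := hns.comp hφ.tendsto_atTop
  have hle : ∀ w', L z.1 a z.2.2 + Qf P S U (z.2.1 - a) ≤
      L z.1 w' z.2.2 + Qf P S U (z.2.1 - w') := by
    intro w'
    have h1 : Tendsto (fun k => L (ns (φ k)).1 (g (ns (φ k))) (ns (φ k)).2.2 +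
        Qf P S U ((ns (φ k)).2.1 - g (ns (φ k)))) atTop
        (𝓝 (L z.1 a z.2.2 + Qf P S U (z.2.1 - a))) :=
      ((wst_cont hL P S U).tendsto (z, a)).comp (hz.prodMk_nhds ha)
    have h2 : Tendsto (fun k => L (ns (φ k)).1 w' (ns (φ k)).2.2 +
        Qf P S U ((ns (φ k)).2.1 - w')) atTop
        (𝓝 (L z.1 w' z.2.2 + Qf P S U (z.2.1 - w'))) :=
      ((wst_cont hL P S U).tendsto (z, w')).comp (hz.prodMk_nhds tendsto_const_nhds)
    refine le_of_tendsto_of_tendsto' h1 h2 fun k => ?_
    have h3 : Ls L P S U (ns (φ k)).1 (ns (φ k)).2.1 (ns (φ k)).2.2 =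
        L (ns (φ k)).1 (g (ns (φ k))) (ns (φ k)).2.2 +
        Qf P S U ((ns (φ k)).2.1 - g (ns (φ k))) := hg (ns (φ k))
    rw [← h3]
    exact ls_le hL hP hS U _ _ _ _
  have hma : Mi L P S U z.1 z.2.1 z.2.2 a :=
    le_antisymm (ls_le hL hP hS U _ _ _ _) (le_ciInf hle)
  have haz : a = g z := mi_uniq hL hP hS hma (hg z)
  exact ⟨φ, haz ▸ ha⟩

end Pool.Agent.H68.TG
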