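import Pool.Agent.H68.TG.Pk
import Pool.Agent.H68.TG.Lcx
import Pool.Agent.H68.TG.Wst
import Pool.Agent.H68.TG.Mex
import Pool.Agent.H68.TG.Db1
import Pool.Agent.H68.TG.Db2
import Pool.Agent.H68.TG.Mom
import Pool.Agent.H68.TG.Ctn
import Pool.Agent.H68.TO.Sht
import Pool.Agent.H68.TO.Pre

/-!
# Module Rpl: replacement by curves of velocity at most ρ
If `r > C₂ + a`: `TO.sht` for `Ls` (`√n ≤ ρ`). Otherwise `mex` (`ls_conv`) gives a minimizer `δ`, `ρs`-Lipschitz; `w t = g (δ t, deriv δ t, t)` with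
`g` from `wst` (measurable, bounded by `mi_bd`); `db1`, `db2` (`f = Lv L (δ t) (w t) t`, `g = Lx ...`, bounded on `[0, 1]`: compactness), `mom`: `w'`. By
`TO.pre` for `δ`: `∫ ‖δ'‖ ≤ C₁`, so `{t ∈ [0, 1] : ‖δ' t‖ ≤ C₁}` is not a null set, so it contains `t₀` with `deriv δ t₀ = w' t₀` (`Mo.slow`,
`C₁ ≤ ρ`). `ctn`: `‖w'‖ ≤ ρ` on `[0, 1]`, so `‖Lv(δ, w', t)‖ < P` and `deriv δ = w'` a.e. (`Mo.small`).
-/

set_option autoImplicit false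

open MeasureTheory Filter
open scoped RealInnerProductSpace Topology

namespace Pool.Agent.H68.TG

open Pool.Agent.H33.AM (E Tor pr IsPeriodic IsEL)
open Pool.Agent.H68.HD
open Pool.Agent.H68.TO (Slow Cst md)

variable {n : ℕ}

/-- A Lipschitz curve is continuous. -/
private lemma rpl_cont {ρs : ℝ} (hρs : 0 ≤ ρs) {δ : ℝ → E n} (hδ : Lip ρs δ) : Continuous δ := by
  have h : LipschitzWith (Real.toNNReal ρs) δ := by
    refine LipschitzWith.of_dist_le_mul fun s t => ?_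
    rw [Real.coe_toNNReal ρs hρs, dist_eq_norm, Real.dist_eq]
    exact hδ t s
  exact h.continuous

/-- A continuous function of `(δ t, w t, t)` is bounded on `[0, 1]`. -/
private lemma rpl_bd {F : E n × E n × ℝ → E n} (hF : Continuous F) {δ w : ℝ → E n}
    (hδ : Continuous δ) {W : ℝ} (hw : ∀ t, ‖w t‖ ≤ W) :
    ∃ N : ℝ, ∀ t ∈ Set.Icc (0 : ℝ) 1, ‖F (δ t, w t, t)‖ ≤ N := by
  have hK : IsCompact ((δ '' Set.Icc (0 : ℝ) 1) ×ˢ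
      (Metric.closedBall (0 : E n) W ×ˢ Set.Icc (0 : ℝ) 1)) :=
    (isCompact_Icc.image hδ).prod ((isCompact_closedBall (0 : E n) W).prod isCompact_Icc)
  obtain ⟨N, hN⟩ := hK.exists_bound_of_continuousOn hF.continuousOn
  refine ⟨N, fun t ht => hN _ ⟨Set.mem_image_of_mem _ ht, ?_, ht⟩⟩
  rw [mem_closedBall_zero_iff]
  exact hw t

/-- A time of small velocity, off a null set. -/
private lemma rpl_time {δ w' : ℝ → E n} {L : E n → E n → ℝ → ℝ} {P ρ C₁ : ℝ}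
    (hmo : Mo L P ρ δ w') (hC : C₁ ≤ ρ)
    (hi : IntervalIntegrable (fun t => ‖deriv δ t‖) volume 0 1)
    (hle : ∫ t in (0 : ℝ)..1, ‖deriv δ t‖ ≤ C₁) :
    ∃ t₀ ∈ Set.Icc (0 : ℝ) 1, ‖w' t₀‖ ≤ C₁ := by
  have hpr : IsProbabilityMeasure (volume.restrict (Set.Ioc (0 : ℝ) 1)) := ⟨by simp⟩
  have hi' : Integrable (fun t => ‖deriv δ t‖) (volume.restrict (Set.Ioc (0 : ℝ) 1)) := by
    rw [intervalIntegrable_iff_integrableOn_Ioc_of_le zero_le_one] at hi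
    exact hi
  have hae : ∀ᵐ t ∂(volume.restrict (Set.Ioc (0 : ℝ) 1)),
      t ∈ Set.Ioc (0 : ℝ) 1 ∧ (t ∈ Set.Icc (0 : ℝ) 1 → ‖deriv δ t‖ ≤ ρ → deriv δ t = w' t) :=
    (ae_restrict_mem measurableSet_Ioc).and (ae_restrict_of_ae hmo.slow)
  obtain ⟨t, htN, ht⟩ := exists_notMem_null_le_integral hi' (ae_iff.mp hae)
  have h1 : t ∈ Set.Ioc (0 : ℝ) 1 ∧
      (t ∈ Set.Icc (0 : ℝ) 1 → ‖deriv δ t‖ ≤ ρ → deriv δ t = w' t) := by
    by_contra hcon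
    exact htN hcon
  have h2 : t ∈ Set.Icc (0 : ℝ) 1 := ⟨h1.1.1.le, h1.1.2⟩
  have h3 : ‖deriv δ t‖ ≤ C₁ := by
    rw [intervalIntegral.integral_of_le zero_le_one] at hle
    exact ht.trans hle
  refine ⟨t, h2, ?_⟩
  rw [← h1.2 h2 (h3.trans hC)]
  exact h3

/-- The case of small action: the minimizer with fixed end points is `ρs`-Lipschitz, of velocity at most `ρ`. -/
theorem rplb {L : E n → E n → ℝ → ℝ} (hL : Ton L)
    {R B K D C₀ C₁ C₂ C₃ e₀ e V ρs ρ P S U : ℝ}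
    (hpk : Pk L R B K D C₀ C₁ C₂ C₃ e₀ e V ρs ρ P S U) {c : E n} (hc : ‖c‖ ≤ R) {a r : ℝ}
    {γ : ℝ → E n} (h : Crv (Ls L P S U) c a 1 γ r) (hr : r ≤ C₂ + a) :
    ∃ (δ : ℝ → E n) (r' : ℝ), Crv (Ls L P S U) c a 1 δ r' ∧ r' ≤ r ∧
      δ 0 = γ 0 ∧ δ 1 = γ 1 ∧ Lip ρs δ ∧
      ∀ᵐ t : ℝ, t ∈ Set.Icc (0 : ℝ) 1 → ‖deriv δ t‖ ≤ ρ := by
  obtain ⟨δ, r', hδ, hr', h0, h1, hLip, hmin⟩ :=
    mex hpk.slow hpk.cst (fun x t => ls_conv hL hpk.hP hpk.hS U x t) hc h hr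
  have hρs : 0 ≤ ρs := zero_le_one.trans hpk.cst.hρ1
  have hδc : Continuous δ := rpl_cont hρs hLip
  obtain ⟨g, hg, hgm⟩ := wst hL hpk.hP hpk.hS U
  obtain ⟨W, hW⟩ := mi_bd hL hpk.hP hpk.hS U
  obtain ⟨w, hwdef⟩ : ∃ w : ℝ → E n, ∀ t, w t = g (δ t, deriv δ t, t) := ⟨_, fun _ => rfl⟩
  have hmi : ∀ t, Mi L P S U (δ t) (deriv δ t) t (w t) := fun t => by
    rw [hwdef t]
    exact hgm _ _ _
  have hwb : ∀ t, ‖w t‖ ≤ W := fun t => hW _ _ _ _ (hmi t)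
  have hwm : Measurable w := by
    have h2 : Measurable fun t : ℝ => ((δ t, deriv δ t, t) : E n × E n × ℝ) :=
      hδc.measurable.prodMk ((measurable_deriv δ).prodMk measurable_id)
    have h3 : w = fun t => g (δ t, deriv δ t, t) := funext hwdef
    rw [h3]
    exact hg.measurable.comp h2
  have hzm : Measurable fun t : ℝ => ((δ t, w t, t) : E n × E n × ℝ) :=
    hδc.measurable.prodMk (hwm.prodMk measurable_id)
  have hfm : Measurable fun t => Lv L (δ t) (w t) t := (lv_cont hL).measurable.comp hzm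
  have hgm' : Measurable fun t => Lx L (δ t) (w t) t := (lx_cont hL).measurable.comp hzm
  obtain ⟨N₁, hN₁⟩ := rpl_bd (lv_cont hL) hδc hwb
  obtain ⟨N₂, hN₂⟩ := rpl_bd (lx_cont hL) hδc hwb
  obtain ⟨q, hq⟩ := db2 (f := fun t => Lv L (δ t) (w t) t) (g := fun t => Lx L (δ t) (w t) t)
    hfm hgm' (N := max N₁ N₂) (fun t ht => (hN₁ t ht).trans (le_max_left _ _))
    (fun t ht => (hN₂ t ht).trans (le_max_right _ _))
    (fun ψ hψ hψb hψ0 => by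
      obtain ⟨N', hN'⟩ := hψb
      exact db1 hL hpk.hP hpk.hS hρs hLip hwm hwb hmi
        (fun η ρ' hρ' hη hη0 hη1 => hmin η ρ' hρ' hη (hη0.trans h0) (hη1.trans h1))
        hψ hN' hψ0)
  obtain ⟨w', hmo⟩ := mom hL hpk.hP hpk.hS hpk.hU hpk.mom hρs hLip hwm hwb hmi hq
  obtain ⟨-, hi, hle, -, -⟩ :=
    Pool.Agent.H68.TO.pre hpk.slow hpk.cst hc hδ (hr'.trans hr)
  obtain ⟨t₀, ht₀, hw₀⟩ := rpl_time hmo hpk.hρC hi hle
  have hfin := ctn hL hρs hLip hmo hpk.mom hpk.un hpk.hρC ht₀ hw₀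
  refine ⟨δ, r', hδ, hr', h0, h1, hLip, ?_⟩
  filter_upwards [hmo.small] with t ht hti
  rw [ht hti (hpk.mom _ _ _ (hfin t hti))]
  exact hfin t hti

theorem rpl {L : E n → E n → ℝ → ℝ} (hL : Ton L)
    {R B K D C₀ C₁ C₂ C₃ e₀ e V ρs ρ P S U : ℝ}
    (hpk : Pk L R B K D C₀ C₁ C₂ C₃ e₀ e V ρs ρ P S U) {c : E n} (hc : ‖c‖ ≤ R) {a r : ℝ}
    {γ : ℝ → E n} (h : Crv (Ls L P S U) c a 1 γ r) :
    ∃ (δ : ℝ → E n) (r' : ℝ) (z : Fin n → ℤ), Crv (Ls L P S U) c a 1 δ r' ∧ r' ≤ r ∧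
      δ 0 = γ 0 ∧ δ 1 = γ 1 + zv z ∧ ∀ᵐ t : ℝ, t ∈ Set.Icc (0 : ℝ) 1 → ‖deriv δ t‖ ≤ ρ := by
  rcases lt_or_ge (C₂ + a) r with hr | hr
  · obtain ⟨δ, r₁, z, hδ, hr₁, h0, h1, hd⟩ :=
      Pool.Agent.H68.TO.sht hpk.slow hpk.cst.hR hc a (γ 0) (γ 1)
    refine ⟨δ, r₁, z, hδ, ?_, h0, h1, Eventually.of_forall fun t _ => (hd t).trans hpk.hρn⟩
    have h2 := hpk.cst.h2
    linarith
  · obtain ⟨δ, r', hδ, hr', h0, h1, -, hd⟩ := rplb hL hpk hc h hr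
    refine ⟨δ, r', 0, hδ, hr', h0, ?_, hd⟩
    rw [zv_zero, add_zero]
    exact h1

end Pool.Agent.H68.TG
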