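import Pool.Agent.H68.TG.Pk
import Pool.Agent.H68.TG.Rpl
import Pool.Agent.H68.TG.Lb
import Pool.Agent.H68.TG.Leq

/-!
# Module Rep: replacement of curves for Lagrangians above Ls
`Crv M c a 1 γ r` gives `Crv (Ls) c a 1 γ r₁` with `r₁ ≤ r`: `Ls(γ, γ', t)` is measurable on `[0, 1]` (`ls_cont`, `γ` continuous there, `measurable_deriv`), and
`-B + a ≤ Ls - c · γ' + a ≤ M - c · γ' + a` (`hpk.slow.lo`), so it is integrable. `rpl`; then `Ls = L = M'` along `δ` a.e. (`ls_eq`,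
`hpk.mom`).
-/

set_option autoImplicit false

open MeasureTheory Filter
open scoped RealInnerProductSpace Topology

namespace Pool.Agent.H68.TG

open Pool.Agent.H33.AM (E Tor pr IsPeriodic IsEL)
open Pool.Agent.H68.HD
open Pool.Agent.H68.TO (Slow Cst md)

variable {n : ℕ}

private theorem Rep_meas {M : E n → E n → ℝ → ℝ}
    (hM : Continuous fun z : E n × E n × ℝ => M z.1 z.2.1 z.2.2) (c : E n) (a : ℝ)
    {γ : ℝ → E n} (h : AbsolutelyContinuousOnInterval γ 0 1) :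
    AEStronglyMeasurable (fun t => M (γ t) (deriv γ t) t - ⟪c, deriv γ t⟫ + a)
      (volume.restrict (Set.Ioc (0 : ℝ) 1)) := by
  have h1 : AEStronglyMeasurable γ (volume.restrict (Set.Ioc (0 : ℝ) 1)) := by
    have h2 : ContinuousOn γ (Set.uIcc 0 1) := h.continuousOn
    rw [Set.uIcc_of_le zero_le_one] at h2
    exact (h2.mono Set.Ioc_subset_Icc_self).aestronglyMeasurable measurableSet_Ioc
  have h3 : AEStronglyMeasurable (deriv γ) (volume.restrict (Set.Ioc (0 : ℝ) 1)) :=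
    (stronglyMeasurable_deriv γ).aestronglyMeasurable
  have h4 : AEStronglyMeasurable (fun t => M (γ t) (deriv γ t) t)
      (volume.restrict (Set.Ioc (0 : ℝ) 1)) :=
    hM.comp_aestronglyMeasurable (h1.prodMk (h3.prodMk aestronglyMeasurable_id))
  exact (h4.sub (aestronglyMeasurable_const.inner h3)).add aestronglyMeasurable_const

private theorem Rep_lo {x : ℝ} {R B a : ℝ} {c v : E n} (hc : ‖c‖ ≤ R)
    (h : (R + 1) * ‖v‖ - B ≤ x) : a - B ≤ x - ⟪c, v⟫ + a := by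
  have h1 : ⟪c, v⟫ ≤ ‖c‖ * ‖v‖ := real_inner_le_norm c v
  have h2 : ‖c‖ * ‖v‖ ≤ R * ‖v‖ := mul_le_mul_of_nonneg_right hc (norm_nonneg v)
  have h3 := norm_nonneg v
  linarith

/-- the curve for the smaller Lagrangian -/
private theorem Rep_down {L₀ M : E n → E n → ℝ → ℝ}
    (hc₀ : Continuous fun z : E n × E n × ℝ => L₀ z.1 z.2.1 z.2.2) {R B : ℝ}
    (hlo : ∀ x v t, (R + 1) * ‖v‖ - B ≤ L₀ x v t) (hM : ∀ x v t, L₀ x v t ≤ M x v t)
    {c : E n} (hc : ‖c‖ ≤ R) {a r : ℝ} {γ : ℝ → E n} (h : Crv M c a 1 γ r) :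
    ∃ r₁, Crv L₀ c a 1 γ r₁ ∧ r₁ ≤ r := by
  have hac : AbsolutelyContinuousOnInterval γ 0 1 := by simpa using h.ac
  have hI : Integrable (fun t => M (γ t) (deriv γ t) t - ⟪c, deriv γ t⟫ + a)
      (volume.restrict (Set.Ioc (0 : ℝ) 1)) := by
    have h3 := h.int
    rw [Nat.cast_one, intervalIntegrable_iff_integrableOn_Ioc_of_le zero_le_one] at h3
    exact h3
  have hm := Rep_meas hc₀ c a hac
  have hI₀ : Integrable (fun t => L₀ (γ t) (deriv γ t) t - ⟪c, deriv γ t⟫ + a)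
      (volume.restrict (Set.Ioc (0 : ℝ) 1)) := by
    refine (hI.norm.add (integrable_const |a - B|)).mono' hm (Eventually.of_forall fun t => ?_)
    have h1 := Rep_lo (a := a) hc (hlo (γ t) (deriv γ t) t)
    have h2 := hM (γ t) (deriv γ t) t
    simp only [Pi.add_apply, Real.norm_eq_abs]
    rw [abs_le]
    have h3 := le_abs_self (M (γ t) (deriv γ t) t - ⟪c, deriv γ t⟫ + a)
    have h4 := abs_nonneg (M (γ t) (deriv γ t) t - ⟪c, deriv γ t⟫ + a)
    have h5 := neg_abs_le (a - B)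
    have h6 := abs_nonneg (a - B)
    constructor <;> linarith
  refine ⟨∫ t in (0 : ℝ)..((1 : ℕ) : ℝ), (L₀ (γ t) (deriv γ t) t - ⟪c, deriv γ t⟫ + a),
    ⟨h.ac, ?_, rfl⟩, ?_⟩
  · rw [Nat.cast_one, intervalIntegrable_iff_integrableOn_Ioc_of_le zero_le_one]
    exact hI₀
  · rw [h.eq, Nat.cast_one, intervalIntegral.integral_of_le zero_le_one,
      intervalIntegral.integral_of_le zero_le_one]
    refine integral_mono hI₀ hI fun t => ?_
    have h2 := hM (γ t) (deriv γ t) t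
    simp only
    linarith

/-- change of the Lagrangian where it is equal -/
private theorem Rep_congr {L₀ M' : E n → E n → ℝ → ℝ} {c : E n} {a r : ℝ} {δ : ℝ → E n}
    (h : Crv L₀ c a 1 δ r) (he : ∀ᵐ t : ℝ, t ∈ Set.Icc (0 : ℝ) 1 →
      L₀ (δ t) (deriv δ t) t = M' (δ t) (deriv δ t) t) : Crv M' c a 1 δ r := by
  have hI : Integrable (fun t => L₀ (δ t) (deriv δ t) t - ⟪c, deriv δ t⟫ + a)
      (volume.restrict (Set.Ioc (0 : ℝ) 1)) := by
    have h3 := h.int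
    rw [Nat.cast_one, intervalIntegrable_iff_integrableOn_Ioc_of_le zero_le_one] at h3
    exact h3
  have hae : (fun t => L₀ (δ t) (deriv δ t) t - ⟪c, deriv δ t⟫ + a)
      =ᵐ[volume.restrict (Set.Ioc (0 : ℝ) 1)]
      (fun t => M' (δ t) (deriv δ t) t - ⟪c, deriv δ t⟫ + a) := by
    have h1 : ∀ᵐ t : ℝ, t ∈ Set.Ioc (0 : ℝ) 1 →
        L₀ (δ t) (deriv δ t) t - ⟪c, deriv δ t⟫ + a =
          M' (δ t) (deriv δ t) t - ⟪c, deriv δ t⟫ + a := by
      filter_upwards [he] with t ht ht'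
      rw [ht (Set.Ioc_subset_Icc_self ht')]
    exact (ae_restrict_iff' measurableSet_Ioc).2 h1
  refine ⟨h.ac, ?_, ?_⟩
  · rw [Nat.cast_one, intervalIntegrable_iff_integrableOn_Ioc_of_le zero_le_one]
    exact hI.congr hae
  · rw [h.eq, Nat.cast_one, intervalIntegral.integral_of_le zero_le_one,
      intervalIntegral.integral_of_le zero_le_one]
    exact integral_congr_ae hae

theorem rep {L : E n → E n → ℝ → ℝ} (hL : Ton L)
    {R B K D C₀ C₁ C₂ C₃ e₀ e V ρs ρ P S U : ℝ}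
    (hpk : Pk L R B K D C₀ C₁ C₂ C₃ e₀ e V ρs ρ P S U) {M M' : E n → E n → ℝ → ℝ}
    (hM : ∀ x v t, Ls L P S U x v t ≤ M x v t) (hM' : ∀ x v t, ‖v‖ ≤ ρ → M' x v t = L x v t)
    {c : E n} (hc : ‖c‖ ≤ R) {a r : ℝ} {γ : ℝ → E n} (h : Crv M c a 1 γ r) :
    ∃ (δ : ℝ → E n) (r' : ℝ) (z : Fin n → ℤ), Crv M' c a 1 δ r' ∧ r' ≤ r ∧
      δ 0 = γ 0 ∧ δ 1 = γ 1 + zv z := by
  obtain ⟨r₁, h₁, hr₁⟩ := Rep_down hpk.slow.cont hpk.slow.lo hM hc h
  obtain ⟨δ, r', z, hδ, hr', e0, e1, hρ'⟩ := rpl hL hpk hc h₁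
  refine ⟨δ, r', z, Rep_congr hδ ?_, hr'.trans hr₁, e0, e1⟩
  filter_upwards [hρ'] with t ht ht'
  have h2 := ht ht'
  rw [ls_eq hL hpk.hS hpk.hU (hpk.mom _ _ _ h2).le, hM' _ _ _ h2]

end Pool.Agent.H68.TG
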