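import Pool.Agent.H68.TG.Sl
import Pool.Agent.H68.TG.Rep
import Pool.Agent.H68.TG.Lmd
import Pool.Agent.H68.TO.Grw
import Pool.Agent.H68.TO.Dom
import Mathlib.Analysis.Calculus.BumpFunction.InnerProduct

/-!
# Module Mn: main theorem: transfer for Tonelli Lagrangians with a complete flow
As `TO.transfer` (see TO/Main.lean): `R` replaced by `max R 0`, `sl`, `A` from `TO.bd`, `M₀ = max (A + P + S) 1`, `f` a `ContDiffBump` with
radii `ρ`, `2 ρ`, `L' = md L f M₀` (`TO.md_growth`, `κ = M₀`), autonomous if `L` is. `TO.dom` with `rep` for `(M, M') = (L, L')` (`ls_le_l`) and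
`(L', L)` (`ls_le_md`).
-/

set_option autoImplicit false

open MeasureTheory Filter
open scoped RealInnerProductSpace Topology

namespace Pool.Agent.H68.TG

open Pool.Agent.H33.AM (E Tor pr IsPeriodic IsEL)
open Pool.Agent.H68.HD
open Pool.Agent.H68.TO (Slow Cst md)

variable {n : ℕ}

theorem transfer' {L : E n → E n → ℝ → ℝ} (hL : Ton L) (R : ℝ) :
    ∃ (L' : E n → E n → ℝ → ℝ) (κ K : ℝ), Growth L' κ K ∧
      (Pool.Agent.H68.HDA.Aut L → Pool.Agent.H68.HDA.Aut L') ∧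
      ∀ c : E n, ‖c‖ ≤ R → alpha L c = alpha L' c ∧ aubry L c = aubry L' c := by
  obtain ⟨R₀, hR₀⟩ : ∃ R₀, R₀ = max R 0 := ⟨_, rfl⟩
  have hR0 : 0 ≤ R₀ := hR₀ ▸ le_max_right _ _
  have hRR : R ≤ R₀ := hR₀ ▸ le_max_left _ _
  obtain ⟨B, K, D, C₀, C₁, C₂, C₃, e₀, e, V, ρs, ρ, P, S, U, hpk⟩ := sl hL hR0
  obtain ⟨A, hA0, hA⟩ := Pool.Agent.H68.TO.bd hL.per hL.smooth.continuous 0
  have hρ1 : 1 ≤ ρ := hpk.hρ1
  have hρ0 : 0 < ρ := lt_of_lt_of_le one_pos hρ1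
  obtain ⟨M₀, hM₀⟩ : ∃ M₀, M₀ = max (A + P + S) 1 := ⟨_, rfl⟩
  have hM1 : A + P + S ≤ M₀ := hM₀ ▸ le_max_left _ _
  have hM2 : 1 ≤ M₀ := hM₀ ▸ le_max_right _ _
  have hM0 : 0 < M₀ := lt_of_lt_of_le one_pos hM2
  let f : ContDiffBump (0 : E n) := ⟨ρ, 2 * ρ, hρ0, by linarith⟩
  have hf1 : ∀ v : E n, ‖v‖ ≤ ρ → f v = 1 := by
    intro v hv
    refine f.one_of_mem_closedBall ?_
    rw [mem_closedBall_zero_iff]
    exact hv
  have hf0 : ∀ v : E n, 2 * ρ ≤ ‖v‖ → f v = 0 := by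
    intro v hv
    refine f.zero_of_le_dist ?_
    rw [dist_zero_right]
    exact hv
  have hfs : ContDiff ℝ 2 (f : E n → ℝ) := f.contDiff
  obtain ⟨K', hG⟩ := Pool.Agent.H68.TO.md_growth hL.per hL.smooth hfs hf0 hM0
  have hmper : IsPeriodic (md L f M₀) := by
    intro x y v s t h1 h2
    simp only [md]
    rw [hL.per x y v s t h1 h2]
  have hA' : ∀ (x : E n) (t : ℝ), L x 0 t ≤ A := by
    intro x t
    have h0 : ‖(0 : E n)‖ ≤ 0 := by rw [norm_zero]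
    exact (le_abs_self _).trans (hA x 0 t h0)
  have heq : ∀ (x v : E n) (t : ℝ), ‖v‖ ≤ ρ → md L f M₀ x v t = L x v t := by
    intro x v t hv
    simp only [md, hf1 v hv]
    ring
  refine ⟨md L f M₀, M₀, K', hG, ?_, ?_⟩
  · intro ha x v t
    simp only [md]
    rw [ha x v t]
  · intro c hc
    have hc0 : ‖c‖ ≤ R₀ := hc.trans hRR
    refine Pool.Agent.H68.TO.dom hL.per hmper ?_ ?_
    · intro a γ r h
      exact rep hL hpk (fun x v t => ls_le_l hL hpk.hP hpk.hS hpk.hU x v t) heq hc0 h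
    · intro a γ r h
      exact rep hL hpk
        (fun x v t => ls_le_md hL hpk.hP hpk.hS hpk.hU hρ1 (fun v => f.nonneg) (fun v => f.le_one)
          hf1 hA0 hA' hM1 x v t)
        (fun x v t _ => rfl) hc0 h

end Pool.Agent.H68.TG
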