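import Pool.Agent.H68.TG.Def

/-!
# The package of constants of the project TG
-/

set_option autoImplicit false

open MeasureTheory Filter
open scoped RealInnerProductSpace

namespace Pool.Agent.H68.TG

open Pool.Agent.H33.AM (E Tor pr IsPeriodic IsEL)
open Pool.Agent.H68.HD
open Pool.Agent.H68.TO (Slow Cst)

/-- The constants: `Ls` has the properties `Slow`, and `ρ` bounds the velocities of minimizers. -/
structure Pk {n : ℕ} (L : E n → E n → ℝ → ℝ) (R B K D C₀ C₁ C₂ C₃ e₀ e V ρs ρ P S U : ℝ) : Prop where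
  cst : Cst n R B K D C₀ C₁ C₂ C₃ e₀ e V ρs
  slow : Slow (Ls L P S U) R B K D C₀ e₀ e V ρs
  hP : 0 ≤ P
  hS : 0 ≤ S
  hU : 0 ≤ U
  hρn : Real.sqrt n ≤ ρ
  hρC : C₁ ≤ ρ
  hρ1 : 1 ≤ ρ
  mom : ∀ x v t, ‖v‖ ≤ ρ → ‖Lv L x v t‖ < P
  un : Un L C₁ ρ

end Pool.Agent.H68.TG
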