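import Pool.Agent.H68.TG.Def
import Pool.Agent.H68.TO.Bd

/-!
# Module Tlp: L is Lipschitz in the time for bounded velocities
The derivative of `L` in `t` is continuous and periodic, so bounded for `‖w‖ ≤ W` (compactness: `exists_near`, `pr_eq_pr`, `Int.fract`;
`TO.bd` for the function `(x, v, t) ↦ deriv (fun t => L x v t) t`), mean value inequality.
-/

set_option autoImplicit false

open MeasureTheory Filter
open scoped RealInnerProductSpace Topology

namespace Pool.Agent.H68.TG

open Pool.Agent.H33.AM (E Tor pr IsPeriodic IsEL)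
open Pool.Agent.H68.HD
open Pool.Agent.H68.TO (Slow Cst md)

variable {n : ℕ}

theorem tlp {L : E n → E n → ℝ → ℝ} (hL : Ton L) (W : ℝ) :
    ∃ κ : ℝ, 0 ≤ κ ∧ ∀ x w t s, ‖w‖ ≤ W → |L x w t - L x w s| ≤ κ * |t - s| := by
  have hd : ∀ (x w : E n) (t : ℝ), HasDerivAt (fun s => L x w s)
      (fderiv ℝ (fun z : E n × E n × ℝ => L z.1 z.2.1 z.2.2) (x, w, t) (0, 0, 1)) t := by
    intro x w t
    have h1 : HasFDerivAt (fun z : E n × E n × ℝ => L z.1 z.2.1 z.2.2)
        (fderiv ℝ (fun z : E n × E n × ℝ => L z.1 z.2.1 z.2.2) (x, w, t)) (x, w, t) :=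
      (hL.smooth.differentiable (by norm_num) (x, w, t)).hasFDerivAt
    have h2 : HasDerivAt (fun s : ℝ => ((x, w, s) : E n × E n × ℝ)) (0, 0, 1) t :=
      (hasDerivAt_const t x).prodMk ((hasDerivAt_const t w).prodMk (hasDerivAt_id t))
    exact h1.comp_hasDerivAt t h2
  have hper : IsPeriodic (n := n) fun x v t => deriv (fun s => L x v s) t := by
    intro x y v s t hxy hst
    have h1 : (fun r => L x v (s + r)) = fun r => L y v (t + r) := by
      funext r
      refine hL.per x y v (s + r) (t + r) hxy ?_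
      rw [AddCircle.coe_add, AddCircle.coe_add, hst]
    have h2 := deriv_comp_const_add (fun s => L x v s) s 0
    have h3 := deriv_comp_const_add (fun s => L y v s) t 0
    rw [add_zero] at h2 h3
    show deriv (fun s => L x v s) s = deriv (fun s => L y v s) t
    rw [← h2, ← h3]
    exact congrArg (fun f : ℝ → ℝ => deriv f 0) h1
  have hcont : Continuous fun z : E n × E n × ℝ => deriv (fun s => L z.1 z.2.1 s) z.2.2 := by
    have h1 : (fun z : E n × E n × ℝ => deriv (fun s => L z.1 z.2.1 s) z.2.2) =
        fun z => fderiv ℝ (fun z : E n × E n × ℝ => L z.1 z.2.1 z.2.2) z (0, 0, 1) := by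
      funext z
      exact (hd z.1 z.2.1 z.2.2).deriv
    rw [h1]
    exact (hL.smooth.continuous_fderiv (by norm_num)).clm_apply continuous_const
  obtain ⟨κ, hκ, hb⟩ := TO.bd hper hcont W
  refine ⟨κ, hκ, fun x w t s hw => ?_⟩
  have h1 := Convex.norm_image_sub_le_of_norm_deriv_le (f := fun s => L x w s) (C := κ)
    (s := Set.univ) (x := s) (y := t) (fun r _ => (hd x w r).differentiableAt)
    (fun r _ => hb x w r hw) convex_univ trivial trivial
  exact h1

end Pool.Agent.H68.TG
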