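import Pool.Agent.H68.TG.Def
import Pool.Agent.H68.TG.Cls
import Pool.Agent.H68.TG.Elg

/-!
# Module Tub: a tube about one orbit
`Γ` from `hL.flow x₀ v₀ t₀` (`elg`: `Γ'` continuous), `‖Γ'‖ ≤ ρ₀` on `[0, 1]` (compact), `V = ρ₀ + 1`, `C` from `cls`. Take `ε` so
small that `C (2 ε + ‖Γ t₁ - x₀‖ + ‖Γ' t₁ - v₀‖) ≤ 1/2` for `|t₁ - t₀| < ε`, and `2 ε + ... ≤ 1/2`. Continuation: as long as `‖w‖ ≤ V` on a
subinterval containing `t₁`, `cls` (on it, for `γ` and `Γ`; `Elc` restricts to subintervals) gives `‖w - Γ'‖ ≤ 1/2` there, so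
`‖w‖ ≤ ρ₀ + 1/2 < V`; by continuity of `w` on `[a, b]` (e.g. `sSup` of the good times, forward and backward) it holds on `[a, b]`.
-/

set_option autoImplicit false

open MeasureTheory Filter
open scoped RealInnerProductSpace Topology

namespace Pool.Agent.H68.TG

open Pool.Agent.H33.AM (E Tor pr IsPeriodic IsEL)
open Pool.Agent.H68.HD
open Pool.Agent.H68.TO (Slow Cst md)

variable {n : ℕ}

/-- continuation of a bound along an interval -/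
private theorem tub_cont (f : ℝ → ℝ) {a b t₁ V : ℝ} (hf : ContinuousOn f (Set.Icc a b))
    (h1 : t₁ ∈ Set.Icc a b) (hf1 : f t₁ < V)
    (H : ∀ c d : ℝ, a ≤ c → d ≤ b → t₁ ∈ Set.Icc c d → (∀ t ∈ Set.Icc c d, f t ≤ V) →
      ∀ t ∈ Set.Icc c d, f t < V) : ∀ t ∈ Set.Icc a b, f t ≤ V := by
  intro s hs
  by_contra hV
  push Not at hV
  rcases le_total t₁ s with hts | hts
  · -- forward
    have hf' : ContinuousOn f (Set.Icc t₁ s) := hf.mono (Set.Icc_subset_Icc h1.1 hs.2)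
    have hcl : IsClosed (Set.Icc t₁ s ∩ f ⁻¹' {V}) :=
      hf'.preimage_isClosed_of_isClosed isClosed_Icc isClosed_singleton
    have hK : IsCompact (Set.Icc t₁ s ∩ f ⁻¹' {V}) :=
      isCompact_Icc.of_isClosed_subset hcl Set.inter_subset_left
    obtain ⟨t2, ht2, hft2⟩ := intermediate_value_Icc hts hf' ⟨hf1.le, hV.le⟩
    obtain ⟨T, hT, hTl⟩ := hK.exists_isLeast ⟨t2, ht2, hft2⟩
    have hTV : f T = V := hT.2
    have hT1 : t₁ ∈ Set.Icc t₁ T := ⟨le_refl _, hT.1.1⟩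
    have hall : ∀ t ∈ Set.Icc t₁ T, f t ≤ V := by
      intro t ht
      by_contra hlt
      push Not at hlt
      have hf'' : ContinuousOn f (Set.Icc t₁ t) :=
        hf'.mono (Set.Icc_subset_Icc (le_refl _) (ht.2.trans hT.1.2))
      obtain ⟨t3, ht3, hft3⟩ := intermediate_value_Icc ht.1 hf'' ⟨hf1.le, hlt.le⟩
      have h3 : T ≤ t3 := hTl ⟨⟨ht3.1, ht3.2.trans (ht.2.trans hT.1.2)⟩, hft3⟩
      have h4 : t = T := le_antisymm ht.2 (h3.trans ht3.2)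
      rw [h4, hTV] at hlt
      exact lt_irrefl _ hlt
    have h5 := H t₁ T h1.1 (hT.1.2.trans hs.2) hT1 hall T ⟨hT.1.1, le_refl _⟩
    rw [hTV] at h5
    exact lt_irrefl _ h5
  · -- backward
    have hf' : ContinuousOn f (Set.Icc s t₁) := hf.mono (Set.Icc_subset_Icc hs.1 h1.2)
    have hcl : IsClosed (Set.Icc s t₁ ∩ f ⁻¹' {V}) :=
      hf'.preimage_isClosed_of_isClosed isClosed_Icc isClosed_singleton
    have hK : IsCompact (Set.Icc s t₁ ∩ f ⁻¹' {V}) :=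
      isCompact_Icc.of_isClosed_subset hcl Set.inter_subset_left
    obtain ⟨t2, ht2, hft2⟩ := intermediate_value_Icc' hts hf' ⟨hf1.le, hV.le⟩
    obtain ⟨T, hT, hTl⟩ := hK.exists_isGreatest ⟨t2, ht2, hft2⟩
    have hTV : f T = V := hT.2
    have hT1 : t₁ ∈ Set.Icc T t₁ := ⟨hT.1.2, le_refl _⟩
    have hall : ∀ t ∈ Set.Icc T t₁, f t ≤ V := by
      intro t ht
      by_contra hlt
      push Not at hlt
      have hf'' : ContinuousOn f (Set.Icc t t₁) :=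
        hf'.mono (Set.Icc_subset_Icc (hT.1.1.trans ht.1) (le_refl _))
      obtain ⟨t3, ht3, hft3⟩ := intermediate_value_Icc' ht.2 hf'' ⟨hf1.le, hlt.le⟩
      have h3 : t3 ≤ T := hTl ⟨⟨(hT.1.1.trans ht.1).trans ht3.1, ht3.2⟩, hft3⟩
      have h4 : t = T := le_antisymm (ht3.1.trans h3) ht.1
      rw [h4, hTV] at hlt
      exact lt_irrefl _ hlt
    have h5 := H T t₁ (hs.1.trans hT.1.1) h1.2 hT1 hall T ⟨le_refl _, hT.1.2⟩
    rw [hTV] at h5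
    exact lt_irrefl _ h5

private theorem tub_elc {L : E n → E n → ℝ → ℝ} {γ w : ℝ → E n} {a b c d : ℝ}
    (h : Elc L γ w a b) (hc : a ≤ c) (hd : d ≤ b) : Elc L γ w c d := by
  have hs : Set.Icc c d ⊆ Set.Icc a b := Set.Icc_subset_Icc hc hd
  exact ⟨h.wc.mono hs, fun t ht => (h.dx t (hs ht)).mono hs, fun t ht => (h.dp t (hs ht)).mono hs⟩

theorem tub {L : E n → E n → ℝ → ℝ} (hL : Ton L) (x₀ v₀ : E n) {t₀ : ℝ}
    (ht₀ : t₀ ∈ Set.Icc (0 : ℝ) 1) :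
    ∃ ρ ε : ℝ, 0 < ε ∧ ∀ (γ w : ℝ → E n) (a b t₁ : ℝ), 0 ≤ a → b ≤ 1 → t₁ ∈ Set.Icc a b →
      Elc L γ w a b → ‖γ t₁ - x₀‖ < ε → ‖w t₁ - v₀‖ < ε → |t₁ - t₀| < ε →
      ∀ t ∈ Set.Icc a b, ‖w t‖ ≤ ρ := by
  obtain ⟨Γ, hΓ, hΓx, hΓv⟩ := hL.flow x₀ v₀ t₀
  obtain ⟨hcont, helc⟩ := elg hL hΓ
  have hΓc : Continuous Γ := continuous_iff_continuousAt.2 fun t => (hΓ.1 t).continuousAt
  obtain ⟨ρ₁, hρ₁⟩ := (isCompact_Icc (a := (0 : ℝ)) (b := 1)).exists_bound_of_continuousOn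
    hcont.continuousOn
  obtain ⟨ρ₀, hρ₀⟩ : ∃ ρ₀ : ℝ, ρ₀ = ρ₁ := ⟨_, rfl⟩
  rw [← hρ₀] at hρ₁
  obtain ⟨C, hC0, hC⟩ := cls hL (ρ₀ + 1)
  obtain ⟨η, hη⟩ : ∃ η : ℝ, η = 1 / (8 * (C + 1)) := ⟨_, rfl⟩
  have hC1 : 0 < C + 1 := by linarith
  have hη0 : 0 < η := by rw [hη]; positivity
  have hηC : η * (8 * (C + 1)) = 1 := by
    rw [hη]
    exact one_div_mul_cancel (by positivity)
  have hη1 : C * (4 * η) ≤ 1 / 2 := by nlinarith
  have hη2 : 4 * η ≤ 1 / 2 := by nlinarith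
  obtain ⟨δ₁, hδ₁, hd1⟩ := Metric.continuousAt_iff.1 (hΓc.continuousAt (x := t₀)) η hη0
  obtain ⟨δ₂, hδ₂, hd2⟩ := Metric.continuousAt_iff.1 (hcont.continuousAt (x := t₀)) η hη0
  refine ⟨ρ₀ + 1, min η (min δ₁ δ₂), lt_min hη0 (lt_min hδ₁ hδ₂), ?_⟩
  intro γ w a b t₁ ha hb ht₁ hel hγ hw ht
  have hγ' : ‖γ t₁ - x₀‖ < η := lt_of_lt_of_le hγ (min_le_left _ _)
  have hw' : ‖w t₁ - v₀‖ < η := lt_of_lt_of_le hw (min_le_left _ _)
  have ht1 : |t₁ - t₀| < δ₁ := lt_of_lt_of_le ht ((min_le_right _ _).trans (min_le_left _ _))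
  have ht2 : |t₁ - t₀| < δ₂ := lt_of_lt_of_le ht ((min_le_right _ _).trans (min_le_right _ _))
  have hg1 : ‖Γ t₁ - x₀‖ < η := by
    have h := hd1 (x := t₁) (by rw [Real.dist_eq]; exact ht1)
    rwa [dist_eq_norm, hΓx] at h
  have hg2 : ‖deriv Γ t₁ - v₀‖ < η := by
    have h := hd2 (x := t₁) (by rw [Real.dist_eq]; exact ht2)
    rwa [dist_eq_norm, hΓv] at h
  have hD1 : ‖γ t₁ - Γ t₁‖ ≤ 2 * η := by
    have h : γ t₁ - Γ t₁ = (γ t₁ - x₀) - (Γ t₁ - x₀) := by abel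
    rw [h]
    exact (norm_sub_le _ _).trans (by linarith)
  have hD2 : ‖w t₁ - deriv Γ t₁‖ ≤ 2 * η := by
    have h : w t₁ - deriv Γ t₁ = (w t₁ - v₀) - (deriv Γ t₁ - v₀) := by abel
    rw [h]
    exact (norm_sub_le _ _).trans (by linarith)
  have hsub : ∀ c d : ℝ, a ≤ c → d ≤ b → ∀ t ∈ Set.Icc c d, t ∈ Set.Icc (0 : ℝ) 1 :=
    fun c d hc hd t ht' => ⟨(ha.trans hc).trans ht'.1, ht'.2.trans (hd.trans hb)⟩
  have hw1 : ‖w t₁‖ < ρ₀ + 1 := by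
    have h1 := hρ₁ t₁ (hsub a b (le_refl _) (le_refl _) t₁ ht₁)
    have h2 : w t₁ = (w t₁ - deriv Γ t₁) + deriv Γ t₁ := by abel
    have h3 := norm_add_le (w t₁ - deriv Γ t₁) (deriv Γ t₁)
    rw [← h2] at h3
    linarith
  refine tub_cont (fun t => ‖w t‖) hel.wc.norm ht₁ hw1 ?_
  intro c d hc hd htcd hle t htc
  have hcd : d - c ≤ 1 := by linarith
  have h1 := hC γ w Γ (deriv Γ) c d t₁ hcd htcd (tub_elc hel hc hd) (helc c d) hle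
    (fun s hs => (hρ₁ s (hsub c d hc hd s hs)).trans (by linarith)) t htc
  have h2 : C * (‖γ t₁ - Γ t₁‖ + ‖w t₁ - deriv Γ t₁‖) ≤ C * (4 * η) :=
    mul_le_mul_of_nonneg_left (by linarith) hC0
  have h3 := hρ₁ t (hsub c d hc hd t htc)
  have h4 : w t = (w t - deriv Γ t) + deriv Γ t := by abel
  have h5 := norm_add_le (w t - deriv Γ t) (deriv Γ t)
  rw [← h4] at h5
  have h6 := norm_nonneg (γ t - Γ t)
  show ‖w t‖ < ρ₀ + 1
  linarith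

end Pool.Agent.H68.TG
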