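import Pool.Agent.H68.TG.Def
import Pool.Agent.H68.TG.Tub
import Pool.Agent.H68.TG.Rg2

/-!
# Module Uni: uniform bound of the velocities
The set `closedBall 0 √n × closedBall 0 V × [0, 1]` is compact; cover it by the neighbourhoods of `tub` (finitely many), `ρ` = maximum of the
bounds. A curve with `‖w t₁‖ ≤ V`: translate `γ` by `zv z` with `‖γ t₁ + zv z‖ ≤ √n` (`exists_near`); `Elc` is invariant under this
translation (`lv_per`, `lx_per` with `k = 0`).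
-/

set_option autoImplicit false

open MeasureTheory Filter
open scoped RealInnerProductSpace Topology

namespace Pool.Agent.H68.TG

open Pool.Agent.H33.AM (E Tor pr IsPeriodic IsEL)
open Pool.Agent.H68.HD
open Pool.Agent.H68.TO (Slow Cst md)

variable {n : ℕ}

/-- The translate of an Euler-Lagrange curve by an integer vector. -/
private theorem elc_tr_Uni {L : E n → E n → ℝ → ℝ} (hL : Ton L) {γ w : ℝ → E n} {a b : ℝ}
    (h : Elc L γ w a b) (z : Fin n → ℤ) : Elc L (fun t => γ t + zv z) w a b := by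
  have h1 : ∀ (x v : E n) (t : ℝ), Lv L (x + zv z) v t = Lv L x v t := by
    intro x v t
    have h := lv_per hL x v z t 0
    rwa [Int.cast_zero, add_zero] at h
  have h2 : ∀ (x v : E n) (t : ℝ), Lx L (x + zv z) v t = Lx L x v t := by
    intro x v t
    have h := lx_per hL x v z t 0
    rwa [Int.cast_zero, add_zero] at h
  refine ⟨h.wc, fun t ht => (h.dx t ht).add_const (zv z), fun t ht => ?_⟩
  have h3 := h.dp t ht
  have h4 : (fun s => Lv L (γ s + zv z) (w s) s) = fun s => Lv L (γ s) (w s) s :=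
    funext fun s => h1 _ _ _
  show HasDerivWithinAt (fun s => Lv L (γ s + zv z) (w s) s) (Lx L (γ t + zv z) (w t) t)
    (Set.Icc a b) t
  rw [h4, h2]
  exact h3

theorem uni {L : E n → E n → ℝ → ℝ} (hL : Ton L) (V : ℝ) : ∃ ρ : ℝ, Un L V ρ := by
  have hK : IsCompact (Metric.closedBall (0 : E n) (Real.sqrt n) ×ˢ
      (Metric.closedBall (0 : E n) V ×ˢ Set.Icc (0 : ℝ) 1)) :=
    (isCompact_closedBall _ _).prod ((isCompact_closedBall _ _).prod isCompact_Icc)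
  obtain ⟨ρ, hρ⟩ : ∃ ρ : ℝ, ∀ (γ w : ℝ → E n) (a b t₁ : ℝ), 0 ≤ a → b ≤ 1 → t₁ ∈ Set.Icc a b →
      Elc L γ w a b → (γ t₁, w t₁, t₁) ∈ (Metric.closedBall (0 : E n) (Real.sqrt n) ×ˢ
        (Metric.closedBall (0 : E n) V ×ˢ Set.Icc (0 : ℝ) 1)) →
      ∀ t ∈ Set.Icc a b, ‖w t‖ ≤ ρ := by
    refine hK.induction_on (p := fun s => ∃ ρ : ℝ, ∀ (γ w : ℝ → E n) (a b t₁ : ℝ), 0 ≤ a → b ≤ 1 →
      t₁ ∈ Set.Icc a b → Elc L γ w a b → (γ t₁, w t₁, t₁) ∈ s → ∀ t ∈ Set.Icc a b, ‖w t‖ ≤ ρ)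
      ?_ ?_ ?_ ?_
    · exact ⟨0, fun γ w a b t₁ _ _ _ _ h => absurd h (Set.notMem_empty _)⟩
    · intro s t hst ⟨ρ, h⟩
      exact ⟨ρ, fun γ w a b t₁ h0 h1 h2 h3 h4 => h γ w a b t₁ h0 h1 h2 h3 (hst h4)⟩
    · intro s t ⟨ρ, h⟩ ⟨ρ', h'⟩
      refine ⟨max ρ ρ', fun γ w a b t₁ h0 h1 h2 h3 h4 u hu => ?_⟩
      rcases h4 with h4 | h4
      · exact (h γ w a b t₁ h0 h1 h2 h3 h4 u hu).trans (le_max_left _ _)
      · exact (h' γ w a b t₁ h0 h1 h2 h3 h4 u hu).trans (le_max_right _ _)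
    · rintro ⟨x₀, v₀, t₀⟩ hx
      obtain ⟨ρ, ε, hε, h⟩ := tub hL x₀ v₀ (t₀ := t₀) hx.2.2
      refine ⟨Metric.ball x₀ ε ×ˢ (Metric.ball v₀ ε ×ˢ Metric.ball t₀ ε), mem_nhdsWithin_of_mem_nhds
        (prod_mem_nhds (Metric.ball_mem_nhds _ hε) (prod_mem_nhds (Metric.ball_mem_nhds _ hε)
          (Metric.ball_mem_nhds _ hε))), ρ, fun γ w a b t₁ h0 h1 h2 h3 h4 => ?_⟩
      refine h γ w a b t₁ h0 h1 h2 h3 ?_ ?_ ?_
      · have := h4.1
        rwa [Metric.mem_ball, dist_eq_norm] at this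
      · have := h4.2.1
        rwa [Metric.mem_ball, dist_eq_norm] at this
      · have := h4.2.2
        rwa [Metric.mem_ball, Real.dist_eq] at this
  refine ⟨ρ, fun γ w a b t₁ h0 h1 h2 h3 h4 => ?_⟩
  obtain ⟨z, hz, -⟩ := exists_near (γ t₁)
  refine hρ (fun t => γ t + zv z) w a b t₁ h0 h1 h2 (elc_tr_Uni hL h3 z) ⟨?_, ?_, ?_⟩
  · rw [Metric.mem_closedBall, dist_zero_right]
    exact hz
  · rw [Metric.mem_closedBall, dist_zero_right]
    exact h4
  · exact ⟨h0.trans h2.1, h2.2.trans h1⟩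

end Pool.Agent.H68.TG
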