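import Pool.Agent.H68.TG.Pk
import Pool.Agent.H68.TG.Lb
import Pool.Agent.H68.TG.Lcx
import Pool.Agent.H68.TG.Leq
import Pool.Agent.H68.TG.Ltm
import Pool.Agent.H68.TG.Tlp
import Pool.Agent.H68.TG.Uni
import Pool.Agent.H68.TO.Bd
import Pool.Agent.H68.TO.Cvx

/-!
# Module Sl: the choice of the constants
`B ≥ 1` from `hL.sup (R + 1)`; `C₀ ≥ 0` from `TO.bd` for `L` with `√n`; `C₂ = C₀ + R √n`, `C₁ = C₂ + B`, `C₃ = C₂ + R C₁`, `V = 2 C₁ + 1`;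
`ρ` = max of the bound of `uni hL C₁`, `√n`, `C₁`, `1` (`Un` is monotone in `ρ`); `P` = max of (bound of `‖Lv‖` for `‖v‖ ≤ ρ`, from
compactness and `lv_per`, or `mu_lip`) `+ 1`, `R + 1`, `1`; `D = B + 1`; `W₁ = A₀ + b_{P+1}` (`A₀` bound of `L(·,0,·)`), `K = max κ₁ 1` with `κ₁` from
`tlp` for `W₁`; `A ≥ 0` bound of `L` for `‖v‖ ≤ 2 V`, `e₀ = A + 2 B`; `e = e₀ + K (C₃ + D)`; `m ≥ 0` bound of `L` for `‖v‖ ≤ 1`; `a = m + e + 1`,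
`S = a`; `W₂ = A₀ + b_{P+S+1}`, `κ₂` from `tlp` for `W₂`, `U = κ₂` (`K P ≥ 1`); `ρs` = max of `8 C₁`, `2 V`, `√n`, `2`, `b_a + S U` (`ls_lo'`). `Slow`: `per` `ls_per`,
`cont` `ls_cont`, `lo` `ls_lo` with `a = R + 1`, `time` `ls_time`, `short` `ls_le_l`, `slow` `TO.con_slow` with `f = Ls x · t` (`ls_conv`,
`ls_le_l`, `ls_lo`), `fast` `TO.con_fast` (`ls_lo'`: for `‖w‖ = ρs`, `Ls ≥ (m + e + 1) ρs - (b_a + S U) ≥ ρs (m + e)`).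
-/

set_option autoImplicit false

open MeasureTheory Filter
open scoped RealInnerProductSpace Topology

namespace Pool.Agent.H68.TG

open Pool.Agent.H33.AM (E Tor pr IsPeriodic IsEL)
open Pool.Agent.H68.HD
open Pool.Agent.H68.TO (Slow Cst md)

variable {n : ℕ}

theorem slm {L : E n → E n → ℝ → ℝ} (hL : Ton L) {R : ℝ} (hR : 0 ≤ R) :
    ∃ B : ℝ, 1 ≤ B ∧ (∀ x v t, (R + 1) * ‖v‖ - B ≤ L x v t) ∧
      ∀ m : ℝ, ∃ K D C₀ C₁ C₂ C₃ e₀ e V ρs ρ P S U : ℝ,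
        Pk L R B K D C₀ C₁ C₂ C₃ e₀ e V ρs ρ P S U ∧ m ≤ C₂ := by
  have hLc : Continuous fun z : E n × E n × ℝ => L z.1 z.2.1 z.2.2 := hL.smooth.continuous
  have hsn : 0 ≤ Real.sqrt n := Real.sqrt_nonneg _
  obtain ⟨b₁, hb₁⟩ := hL.sup (R + 1)
  obtain ⟨B, hB1, hBb⟩ : ∃ B : ℝ, 1 ≤ B ∧ b₁ ≤ B := ⟨max b₁ 1, le_max_right _ _, le_max_left _ _⟩
  have hlo : ∀ x v t, (R + 1) * ‖v‖ - B ≤ L x v t := fun x v t => by
    have := hb₁ x v t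
    linarith
  have hlo0 : ∀ x v t, -B ≤ L x v t := fun x v t => by
    have h1 := hlo x v t
    have h2 : 0 ≤ (R + 1) * ‖v‖ := by positivity
    linarith
  refine ⟨B, hB1, hlo, fun m' => ?_⟩
  obtain ⟨C₀, hC₀, hC₀b⟩ := Pool.Agent.H68.TO.bd hL.per hLc (Real.sqrt n)
  obtain ⟨C₂, hC₂, hC₂m⟩ : ∃ C₂ : ℝ, C₀ + R * Real.sqrt n ≤ C₂ ∧ m' ≤ C₂ :=
    ⟨max (C₀ + R * Real.sqrt n) m', le_max_left _ _, le_max_right _ _⟩
  have hRn : 0 ≤ R * Real.sqrt n := mul_nonneg hR hsn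
  obtain ⟨C₁, hC₁⟩ : ∃ C₁, C₁ = C₂ + B := ⟨_, rfl⟩
  obtain ⟨C₃, hC₃⟩ : ∃ C₃, C₃ = C₂ + R * C₁ := ⟨_, rfl⟩
  have hC₁0 : 0 ≤ C₁ := by linarith
  have hC₃0 : 0 ≤ C₃ := by
    have : 0 ≤ R * C₁ := mul_nonneg hR hC₁0
    linarith
  obtain ⟨V, hV⟩ : ∃ V, V = 2 * C₁ + 1 := ⟨_, rfl⟩
  obtain ⟨ρu, hρu⟩ := uni hL C₁
  obtain ⟨ρ, h1, h2, h3, h4⟩ : ∃ ρ : ℝ, ρu ≤ ρ ∧ Real.sqrt n ≤ ρ ∧ C₁ ≤ ρ ∧ 1 ≤ ρ :=
    ⟨max ρu (max (Real.sqrt n) (max C₁ 1)), le_max_left _ _, by simp, by simp, by simp⟩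
  have hun : Un L C₁ ρ := fun γ w a b t₁ ha hb ht₁ he hw t ht =>
    (hρu γ w a b t₁ ha hb ht₁ he hw t ht).trans h1
  have hLvp : IsPeriodic (fun (x v : E n) (t : ℝ) => ‖Lv L x v t‖) := by
    intro x y v s t hxy hst
    have e : (fun v => L x v s) = fun v => L y v t := funext fun v => hL.per x y v s t hxy hst
    simp only [Lv, e]
  obtain ⟨AP, hAP, hAPb⟩ : ∃ A : ℝ, 0 ≤ A ∧ ∀ x v t, ‖v‖ ≤ ρ → ‖Lv L x v t‖ ≤ A := by
    obtain ⟨A, hA, h⟩ := Pool.Agent.H68.TO.bd hLvp (lv_cont hL).norm ρ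
    exact ⟨A, hA, fun x v t hv => (le_abs_self _).trans (h x v t hv)⟩
  obtain ⟨P, hP1, hPA, hPR⟩ : ∃ P : ℝ, 1 ≤ P ∧ AP + 1 ≤ P ∧ R + 1 ≤ P :=
    ⟨max (AP + 1) (max (R + 1) 1), by simp, by simp, by simp⟩
  have hP : 0 ≤ P := by linarith
  have hmom : ∀ x v t, ‖v‖ ≤ ρ → ‖Lv L x v t‖ < P := fun x v t hv => by
    have := hAPb x v t hv
    linarith
  obtain ⟨D, hD⟩ : ∃ D, D = B + 1 := ⟨_, rfl⟩
  obtain ⟨A₀, hA₀, hA₀b⟩ := Pool.Agent.H68.TO.bd hL.per hLc 0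
  have hA₀' : ∀ x t, L x 0 t ≤ A₀ := fun x t =>
    (le_abs_self _).trans (hA₀b x 0 t (by simp))
  obtain ⟨bP, hbP⟩ := hL.sup (P + 1)
  have hW₁ : ∀ x w t, L x w t ≤ L x 0 t + P * ‖w‖ → ‖w‖ ≤ A₀ + bP := fun x w t h => by
    have h5 := hbP x w t
    have h6 := hA₀' x t
    have h7 : (P + 1) * ‖w‖ = P * ‖w‖ + ‖w‖ := by ring
    linarith
  obtain ⟨κ₁, hκ₁0, hκ₁⟩ := tlp hL (A₀ + bP)
  obtain ⟨K, hK1, hKκ⟩ : ∃ K : ℝ, 1 ≤ K ∧ κ₁ ≤ K := ⟨max κ₁ 1, le_max_right _ _, le_max_left _ _⟩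
  have hK : 0 ≤ K := by linarith
  obtain ⟨A, hA, hAb⟩ := Pool.Agent.H68.TO.bd hL.per hLc (2 * V)
  obtain ⟨e₀, he₀⟩ : ∃ e₀, e₀ = A + 2 * B := ⟨_, rfl⟩
  obtain ⟨e, he⟩ : ∃ e, e = e₀ + K * (C₃ + D) := ⟨_, rfl⟩
  have he₀0 : 0 ≤ e₀ := by linarith
  have he0 : 0 ≤ e := by
    have : 0 ≤ K * (C₃ + D) := mul_nonneg hK (by linarith)
    linarith
  obtain ⟨m, hm, hmb⟩ := Pool.Agent.H68.TO.bd hL.per hLc 1
  obtain ⟨S, hS⟩ : ∃ S, S = m + e + 1 := ⟨_, rfl⟩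
  have hS0 : 0 ≤ S := by linarith
  obtain ⟨bS, hbS⟩ := hL.sup (P + S + 1)
  have hW₂ : ∀ x w t, L x w t ≤ L x 0 t + (P + S) * ‖w‖ → ‖w‖ ≤ A₀ + bS := fun x w t h => by
    have h5 := hbS x w t
    have h6 := hA₀' x t
    have h7 : (P + S + 1) * ‖w‖ = (P + S) * ‖w‖ + ‖w‖ := by ring
    linarith
  obtain ⟨U, hU0, hκ₂⟩ := tlp hL (A₀ + bS)
  have hU : U ≤ K * (P * U) := by
    have h5 : 1 ≤ K * P := by nlinarith
    calc U = 1 * U := by ring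
      _ ≤ (K * P) * U := mul_le_mul_of_nonneg_right h5 hU0
      _ = K * (P * U) := by ring
  obtain ⟨ba, hba⟩ := hL.sup (m + e + 1)
  obtain ⟨ρs, r1, r2, r3, r4, r5⟩ : ∃ ρs : ℝ, 8 * C₁ ≤ ρs ∧ 2 * V ≤ ρs ∧ Real.sqrt n ≤ ρs ∧ 2 ≤ ρs ∧
      ba + S * U ≤ ρs :=
    ⟨max (8 * C₁) (max (2 * V) (max (Real.sqrt n) (max 2 (ba + S * U)))), by simp, by simp, by simp,
      by simp, by simp⟩
  have hle : ∀ x v t, Ls L P S U x v t ≤ L x v t := fun x v t => ls_le_l hL hP hS0 hU0 x v t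
  have hlos : ∀ x v t, (R + 1) * ‖v‖ - B ≤ Ls L P S U x v t := fun x v t =>
    ls_lo hL hS0 (by linarith) hPR hlo x v t
  have hlos0 : ∀ x v t, -B ≤ Ls L P S U x v t := fun x v t => by
    have h1 := hlos x v t
    have h2 : 0 ≤ (R + 1) * ‖v‖ := by positivity
    linarith
  refine ⟨K, D, C₀, C₁, C₂, C₃, e₀, e, V, ρs, ρ, P, S, U, ?_, hC₂m⟩
  refine
    { cst :=
        { hR := hR
          hB := hB1
          hK := hK
          hD := by linarith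
          he₀ := he₀0
          hC₁ := hC₁0
          h2 := hC₂
          h1 := hC₁.ge
          h3 := hC₃.ge
          hV := hV.ge
          he := he.ge
          he' := he0
          hρC := r1
          hρV := r2
          hρn := r3
          hρ1 := by linarith }
      slow :=
        { per := ls_per hL P S U
          cont := ls_cont hL hP hS0 U
          lo := hlos
          time := ?_
          short := ?_
          slow := ?_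
          fast := ?_ }
      hP := hP
      hS := hS0
      hU := hU0
      hρn := h2
      hρC := h3
      hρ1 := h4
      mom := hmom
      un := hun }
  · intro x v t s
    refine ls_time hL hP hS0 hK hlo0 hD.ge hW₁ hW₂ ?_ hκ₂ hU x v t s
    intro x w t s hw
    exact (hκ₁ x w t s hw).trans (mul_le_mul_of_nonneg_right hKκ (abs_nonneg _))
  · intro x v t hv
    exact (hle x v t).trans ((le_abs_self _).trans (hC₀b x v t hv))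
  · intro x v t θ hv hθ1 hθ2
    rw [he₀]
    exact Pool.Agent.H68.TO.con_slow (f := fun v => Ls L P S U x v t) (ls_conv hL hP hS0 U x t)
      (fun w hw => (hle x w t).trans ((le_abs_self _).trans (hAb x w t hw)))
      (fun w => hlos0 x w t) hv hθ1 hθ2
  · intro x v t θ hθ hv
    refine Pool.Agent.H68.TO.con_fast (f := fun v => Ls L P S U x v t) (m := m)
      (ls_conv hL hP hS0 U x t) he0
      (fun w hw => (hle x w t).trans ((le_abs_self _).trans (hmb x w t hw))) (by linarith) ?_ hθ hv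
    intro w hw
    have h5 := ls_lo' (U := U) hL hP hS0 (by linarith : (0 : ℝ) ≤ m + e + 1) (by linarith) hba x w t
    rw [hw] at h5
    have h6 : (m + e + 1) * ρs = ρs * (m + e) + ρs := by ring
    linarith

theorem sl {L : E n → E n → ℝ → ℝ} (hL : Ton L) {R : ℝ} (hR : 0 ≤ R) :
    ∃ B K D C₀ C₁ C₂ C₃ e₀ e V ρs ρ P S U : ℝ,
      Pk L R B K D C₀ C₁ C₂ C₃ e₀ e V ρs ρ P S U := by
  obtain ⟨B, -, -, h⟩ := slm hL hR
  obtain ⟨K, D, C₀, C₁, C₂, C₃, e₀, e, V, ρs, ρ, P, S, U, h, -⟩ := h 0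
  exact ⟨B, K, D, C₀, C₁, C₂, C₃, e₀, e, V, ρs, ρ, P, S, U, h⟩

end Pool.Agent.H68.TG
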