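import Pool.Agent.H68.TG.Mn
import Pool.Agent.H68.TO.Tr

/-!
# Transfer of local statements: all three classes of Lagrangians
-/

set_option autoImplicit false

open MeasureTheory Filter
open scoped RealInnerProductSpace

namespace Pool.Agent.H68.TG

open Pool.Agent.H33.AM (E Tor pr IsPeriodic IsEL)
open Pool.Agent.H68.HD
open Pool.Agent.H68.TO (Tame Loc loc_of)

variable {n : ℕ}

theorem loc_of3 {L : E n → E n → ℝ → ℝ} (hL : (∃ κ K, Growth L κ K) ∨ Tame L ∨ Ton L) : Loc L := by
  rcases hL with h | h | h
  · exact loc_of (Or.inl h)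
  · exact loc_of (Or.inr h)
  · exact fun R => transfer' h R

end Pool.Agent.H68.TG
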